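import Pool.Agent.H89.L.Y116_UV_Pres

/-!
# The hypersurfaces of tripartite hypergraphs

`∑_{(i, j, k) ∈ H} x_i y_j z_k = 1` for a finite set `H` of triples.
-/

set_option autoImplicit false

open MvPolynomial

namespace Pool.Agent.Y116.UV

variable {R : Type} [CommRing R]

lemma tri_ind {a b c : ℕ} (H : Finset (Fin a × Fin b × Fin c)) :
    tri (fun i j k => if (i, j, k) ∈ H then (1 : R) else 0) =
      ∑ h ∈ H, X (Sum.inl h.1) * X (Sum.inr (Sum.inl h.2.1)) * X (Sum.inr (Sum.inr h.2.2)) := by
  classical
  have h1 : ∀ i j k, (C (if (i, j, k) ∈ H then (1 : R) else 0) * X (Sum.inl i) *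
      X (Sum.inr (Sum.inl j)) * X (Sum.inr (Sum.inr k)) :
        MvPolynomial (Fin a ⊕ (Fin b ⊕ Fin c)) R) =
      if (i, j, k) ∈ H then X (Sum.inl i) * X (Sum.inr (Sum.inl j)) * X (Sum.inr (Sum.inr k))
        else 0 := by
    intro i j k
    split_ifs
    · rw [map_one, one_mul]
    · rw [map_zero, zero_mul, zero_mul, zero_mul]
  have h2 : ∑ h : Fin a × Fin b × Fin c, (if h ∈ H then X (Sum.inl h.1) *
      X (Sum.inr (Sum.inl h.2.1)) * X (Sum.inr (Sum.inr h.2.2)) else
        (0 : MvPolynomial (Fin a ⊕ (Fin b ⊕ Fin c)) R)) =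
      ∑ h ∈ H, X (Sum.inl h.1) * X (Sum.inr (Sum.inl h.2.1)) * X (Sum.inr (Sum.inr h.2.2)) := by
    rw [← Finset.sum_filter, Finset.filter_univ_mem]
  rw [← h2, Fintype.sum_prod_type, tri]
  apply Finset.sum_congr rfl
  intro i _
  rw [Fintype.sum_prod_type]
  apply Finset.sum_congr rfl
  intro j _
  apply Finset.sum_congr rfl
  intro k _
  exact h1 i j k

/-- Over `ℤ` and over its quotients: a property that is closed under closed-open decompositions, under
the affine bundles of Jouanolou and under passing from `X × 𝔾_m` to `X`, and which is true for the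
affine spaces and for the hypersurfaces of the tripartite hypergraphs, is true for all (separated)
schemes of finite type. -/
theorem universal_int [IsNoetherianRing R] (hR : Function.Surjective (Int.cast : ℤ → R))
    {sep : Prop} {P : Sch R → Prop} (hP : Uni sep P)
    (hH : ∀ (a b c : ℕ) (H : Finset (Fin a × Fin b × Fin c)), P (aff R (Trip R H)))
    (X : Sch R) (hX : FT sep X) : P X := by
  classical
  refine universal hP (S := {0, 1}) (Or.inl rfl) (Or.inr rfl) ?_ (presents_zero_one hR) X hX
  intro a b c T hT
  let H : Finset (Fin a × Fin b × Fin c) := Finset.univ.filter fun h => T h.1 h.2.1 h.2.2 = 1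
  have h1 : T = fun i j k => if (i, j, k) ∈ H then (1 : R) else 0 := by
    funext i j k
    have hm : (i, j, k) ∈ H ↔ T i j k = 1 := by
      rw [Finset.mem_filter]
      exact ⟨fun h => h.2, fun h => ⟨Finset.mem_univ _, h⟩⟩
    by_cases h : T i j k = 1
    · rw [if_pos (hm.mpr h), h]
    · rw [if_neg fun h2 => h (hm.mp h2)]
      rcases hT i j k with h2 | h2
      · exact h2
      · exact absurd h2 h
  have h2 := hH a b c H
  unfold Trip at h2
  rw [← tri_ind, ← h1] at h2
  exact h2

section

variable {α β γ : Type} [Fintype α] [Fintype β] [Fintype γ] (T : α → β → γ → R)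

lemma aeval_tri {B : Type} [CommRing B] [Algebra R B] (v : α ⊕ (β ⊕ γ) → B) :
    aeval v (tri T) = ∑ i, ∑ j, ∑ k, algebraMap R B (T i j k) * v (Sum.inl i) *
      v (Sum.inr (Sum.inl j)) * v (Sum.inr (Sum.inr k)) := by
  simp only [tri, map_sum, map_mul, aeval_X, algHom_C]

/-- The hypersurface `T(x, y, z) = 1` is smooth over `R`. -/
theorem hyp_smooth : Algebra.Smooth R (Hyp T) where
  formallySmooth := by
    apply Algebra.FormallySmooth.of_comp_surjective
    intro B _ _ I hI g
    have hsur : Function.Surjective (Ideal.Quotient.mkₐ R I) := Ideal.Quotient.mkₐ_surjective R I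
    choose v hv using fun s => hsur (g (Ideal.Quotient.mk _ (X s)))
    have h1 : (Ideal.Quotient.mkₐ R I).comp (aeval v) =
        g.comp (Ideal.Quotient.mkₐ R (Ideal.span {tri T - 1})) := by
      apply MvPolynomial.algHom_ext
      intro s
      change Ideal.Quotient.mkₐ R I (aeval v (X s)) = _
      rw [aeval_X]
      exact hv s
    have h2 : Ideal.Quotient.mkₐ R I (aeval v (tri T) - 1) = 0 := by
      have h3 := congrArg (fun f : MvPolynomial (α ⊕ (β ⊕ γ)) R →ₐ[R] B ⧸ I => f (tri T - 1)) h1
      change Ideal.Quotient.mkₐ R I (aeval v (tri T - 1)) =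
        g (Ideal.Quotient.mk _ (tri T - 1)) at h3
      rw [Ideal.Quotient.eq_zero_iff_mem.mpr (Ideal.mem_span_singleton_self _), map_zero, map_sub,
        map_one] at h3
      exact h3
    have h4 : aeval v (tri T) - 1 ∈ I := Ideal.Quotient.eq_zero_iff_mem.mp h2
    let d : B := aeval v (tri T) - 1
    have h5 : d * d = 0 := by
      have : d * d ∈ I ^ 2 := by
        rw [pow_two]
        exact Ideal.mul_mem_mul h4 h4
      rw [hI] at this
      exact this
    let w : α ⊕ (β ⊕ γ) → B := Sum.elim (fun i => (1 - d) * v (Sum.inl i)) fun s => v (Sum.inr s)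
    have h6 : aeval w (tri T) = 1 := by
      have h7 : aeval w (tri T) = (1 - d) * aeval v (tri T) := by
        rw [aeval_tri, aeval_tri, Finset.mul_sum]
        apply Finset.sum_congr rfl
        intro i _
        rw [Finset.mul_sum]
        apply Finset.sum_congr rfl
        intro j _
        rw [Finset.mul_sum]
        apply Finset.sum_congr rfl
        intro k _
        change _ * ((1 - d) * v (Sum.inl i)) * v (Sum.inr (Sum.inl j)) *
          v (Sum.inr (Sum.inr k)) = _
        ring
      have h8 : aeval v (tri T) = 1 + d := by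
        change _ = 1 + (aeval v (tri T) - 1)
        ring
      rw [h7, h8]
      linear_combination -h5
    refine ⟨Ideal.Quotient.liftₐ _ (aeval w) ?_, ?_⟩
    · intro p hp
      have h9 : Ideal.span {tri T - 1} ≤ RingHom.ker (aeval w : MvPolynomial (α ⊕ (β ⊕ γ)) R →ₐ[R] B) := by
        rw [Ideal.span_le, Set.singleton_subset_iff]
        change aeval w (tri T - 1) = 0
        rw [map_sub, h6, map_one, sub_self]
      exact h9 hp
    · have hd : Ideal.Quotient.mkₐ R I d = 0 := h2
      apply Ideal.Quotient.algHom_ext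
      apply MvPolynomial.algHom_ext
      rintro (i | s)
      · change Ideal.Quotient.mkₐ R I (aeval w (X (Sum.inl i))) =
          g (Ideal.Quotient.mk _ (X (Sum.inl i)))
        rw [aeval_X]
        change Ideal.Quotient.mkₐ R I ((1 - d) * v (Sum.inl i)) = _
        rw [map_mul, map_sub, hd, map_one, sub_zero, one_mul]
        exact hv _
      · change Ideal.Quotient.mkₐ R I (aeval w (X (Sum.inr s))) =
          g (Ideal.Quotient.mk _ (X (Sum.inr s)))
        rw [aeval_X]
        exact hv _
  finitePresentation :=
    Algebra.FinitePresentation.quotient ⟨{tri T - 1}, by rw [Finset.coe_singleton]⟩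

/-- The hypersurface of a tripartite hypergraph is smooth over `R`. -/
theorem trip_smooth {a b c : ℕ} (H : Finset (Fin a × Fin b × Fin c)) :
    Algebra.Smooth R (Trip R H) := by
  have h := hyp_smooth (R := R) fun i j k => if (i, j, k) ∈ H then (1 : R) else 0
  unfold Trip
  rw [← tri_ind]
  exact h

end

end Pool.Agent.Y116.UV
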