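import Pool.Agent.H89.L.W5h38_TV_Poly
import Pool.Agent.H89.L.W5h68_SP_Main

/-!
# Systems in few monomials are built from torus schemes
-/

set_option autoImplicit false

open CategoryTheory AlgebraicGeometry MvPolynomial Pool.Agent.Y116.UV Pool.Agent.Z125.UN
  Pool.Agent.W5h68.SP

namespace Pool.Agent.W5h38.TV

section

variable {k : Type} [Field k] (n : ℕ)

/-- the products with the affine spaces are built from torus schemes -/
def BP (A : Type) [CommRing A] [Algebra k A] : Prop :=
  ∀ r : ℕ, Built n (aff k (MvPolynomial (Fin r) A))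

instance ftp {k : Type} [Field k] {A : Type} [CommRing A] [Algebra k A]
    [Algebra.FiniteType k A] (r : ℕ) : Algebra.FiniteType k (MvPolynomial (Fin r) A) :=
  Algebra.FiniteType.trans (S := A) inferInstance inferInstance

/-- the quotient -/
noncomputable def quoE {A : Type} [CommRing A] [Algebra k A] (f : A) (r : ℕ) :
    (MvPolynomial (Fin r) A ⧸ Ideal.span {(C f : MvPolynomial (Fin r) A)}) ≃ₐ[k]
      MvPolynomial (Fin r) (A ⧸ Ideal.span {f}) := by
  have h : Ideal.span {(C f : MvPolynomial (Fin r) A)} =
      (Ideal.span {f}).map (C : A →+* MvPolynomial (Fin r) A) := by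
    rw [Ideal.map_span, Set.image_singleton]
  have e1 : (MvPolynomial (Fin r) A ⧸ Ideal.span {(C f : MvPolynomial (Fin r) A)}) ≃ₐ[A]
      MvPolynomial (Fin r) (A ⧸ Ideal.span {f}) :=
    (Ideal.quotientEquivAlgOfEq A h).trans
      (quotientEquivQuotientMvPolynomial (σ := Fin r) (Ideal.span {f})).symm
  exact e1.restrictScalars k

/-- the localization -/
noncomputable def locE {A : Type} [CommRing A] [Algebra k A] (f : A) (r : ℕ) :
    Localization.Away (C f : MvPolynomial (Fin r) A) ≃ₐ[k]
      MvPolynomial (Fin r) (Localization.Away f) := by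
  let _ : Algebra (MvPolynomial (Fin r) A) (MvPolynomial (Fin r) (Localization.Away f)) :=
    MvPolynomial.algebraMvPolynomial
  have h : IsLocalization ((Submonoid.powers f).map (C : A →+* MvPolynomial (Fin r) A))
      (MvPolynomial (Fin r) (Localization.Away f)) :=
    MvPolynomial.isLocalization (Submonoid.powers f) (Localization.Away f)
  rw [Submonoid.map_powers] at h
  have h1 : IsScalarTower k (MvPolynomial (Fin r) A)
      (MvPolynomial (Fin r) (Localization.Away f)) := by
    refine IsScalarTower.of_algebraMap_eq fun x => ?_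
    change C (algebraMap k (Localization.Away f) x) = MvPolynomial.map _ (C (algebraMap k A x))
    rw [map_C, ← IsScalarTower.algebraMap_apply]
  have e1 : Localization.Away (C f : MvPolynomial (Fin r) A) ≃ₐ[MvPolynomial (Fin r) A]
      MvPolynomial (Fin r) (Localization.Away f) :=
    IsLocalization.algEquiv (Submonoid.powers (C f : MvPolynomial (Fin r) A)) _ _
  exact e1.restrictScalars k

/-- one variable more -/
noncomputable def polE {A : Type} [CommRing A] [Algebra k A] (r : ℕ) :
    MvPolynomial (Fin (r + 1)) A ≃ₐ[k] MvPolynomial (Fin r) (Polynomial A) := by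
  have e1 : MvPolynomial (Fin (r + 1)) A ≃ₐ[A] MvPolynomial (Fin r) (Polynomial A) :=
    (renameEquiv A (finSuccEquiv r)).trans (optionEquivRight A (Fin r))
  exact e1.restrictScalars k

theorem cl_BP : Cl k fun A => BP (k := k) n A where
  iso e h r := built_iso (mapAlgEquiv (Fin r) e) (h r)
  total {A} _ _ _ f h1 h2 r := by
    refine .total _ _ _ _ _ (ft_aff True) (triple_away (C f : MvPolynomial (Fin r) A)) ?_ ?_
    · exact built_iso (quoE f r).symm (h1 r)
    · exact built_iso (locE f r).symm (h2 r)
  opened {A} _ _ _ f h1 h2 r := by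
    refine built_iso (locE f r) ?_
    refine .opened _ _ _ _ _ (ft_aff True) (triple_away (C f : MvPolynomial (Fin r) A)) ?_ (h2 r)
    exact built_iso (quoE f r).symm (h1 r)
  closed {A} _ _ _ f h1 h2 r := by
    refine built_iso (quoE f r) ?_
    refine .closed _ _ _ _ _ (ft_aff True) (triple_away (C f : MvPolynomial (Fin r) A)) (h1 r) ?_
    exact built_iso (locE f r).symm (h2 r)
  poly {A} _ _ _ h r := built_iso (polE r) (h (r + 1))
  zero {A} _ _ hA r := by
    have h1 : Subsingleton (MvPolynomial (Fin r) A) := inferInstance
    have h2 : Algebra.FiniteType k (MvPolynomial (Fin r) A) :=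
      Algebra.FiniteType.of_surjective (Algebra.ofId k _)
        fun b => ⟨0, Subsingleton.elim _ _⟩
    refine built_of_dim ?_
    rw [ringKrullDim_eq_bot_of_subsingleton]
    exact bot_le
  base r := by
    refine built_poly_of_dim ?_ r
    rw [ringKrullDim_eq_zero_of_field]
    exact_mod_cast Nat.zero_le n

theorem bp_zero {A : Type} [CommRing A] [Algebra k A] [Algebra.FiniteType k A]
    (h : BP (k := k) n A) : Built n (aff k A) :=
  built_iso ((isEmptyAlgEquiv A (Fin 0)).restrictScalars k) (h 0)

/-- Inverse images of cones under monomial maps are built from torus schemes. -/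
theorem cones_built : Cones (k := k) n (Built n) := by
  intro m N r t g α b hg hd hb
  exact bp_zero n (q_monomial (cl_BP n) (fun A _ _ _ hA r => built_poly_of_dim hA r)
    g hg hd α b hb)

/-- Sparse systems are built from torus schemes. -/
theorem sparse_built : Sparse (k := k) n (Built n) := by
  intro N c t f S b hf hS hc hb
  exact bp_zero n (q_sparse (cl_BP n) (fun A _ _ _ hA r => built_poly_of_dim hA r)
    f hf S hS hc b hb)

end

end Pool.Agent.W5h38.TV
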