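import Pool.Agent.H89.L.H914R2_KDefs2

/-!
# Numerically algebraic classes: definitions
-/

open CategoryTheory AlgebraicGeometry

universe u v

namespace Pool.Agent.H447

section Alg

variable {K : Type*} [Field K] {V : Type*} [AddCommGroup V] [Module K V]

/-- The operator `T` is the inverse of `L ^ c : gr (n - c) → gr (n + c)`, extended by zero to the
other graded pieces. -/
def IsInv (gr : ℕ → Submodule K V) (n : ℕ) (L : Module.End K V) (c : ℕ)
    (T : Module.End K V) : Prop :=
  (∀ a ∈ gr (n - c), T ((L ^ c) a) = a) ∧ ∀ i, i ≠ n + c → ∀ a ∈ gr i, T a = 0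

end Alg

open Pool.Agent.H914 VarClass Obj WeilCohomology

variable {k : Type u} [Field k] {𝒱 : VarClass k} {ops : CycleOps 𝒱}

/-- `τ` is the class of degree `2 (n - c)` on `X × X`, `n = dim X`, which induces the inverse of
the map `ξ ^ c : H^(n - c)(X) → H^(n + c)(X)` (where `ξ` is the class of `D`) and which induces
zero on `H^i(X)` for all `i` different from `n + c`. -/
def IsInverseClass (W : WeilCohomology.{u, v} ops) (X : 𝒱.Obj) (D : X.Cycles) (c : ℕ)
    (τ : W.H (X.prod X)) : Prop :=
  τ ∈ W.gr (X.prod X) (2 * (X.dim - c)) ∧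
    IsInv (W.gr X) X.dim (LinearMap.mulLeft W.K (W.cl X D)) c (W.corr τ)

/-- For all `1 ≤ c ≤ n = dim X`, the inverse class `τ` attached to `ξ ^ c` has the property
`P (n - c) (n + c) τ`. -/
def ForInverseClasses (W : WeilCohomology.{u, v} ops) (X : 𝒱.Obj) (D : X.Cycles)
    (P : ℕ → ℕ → W.H (X.prod X) → Prop) : Prop :=
  ∀ c, 1 ≤ c → c ≤ X.dim → ∀ τ, IsInverseClass W X D c τ → P (X.dim - c) (X.dim + c) τ

/-- The intersection number of two cohomology classes on `Y`. -/
noncomputable def inter (W : WeilCohomology.{u, v} ops) (Y : 𝒱.Obj) (a b : W.H Y) : W.K :=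
  W.tr Y (a * b)

/-- There is a cycle of codimension `p` on `Y`, with rational coefficients, which has the same
intersection numbers as the class `τ` with all cycles of codimension `q`. -/
def NumAlgebraic (W : WeilCohomology.{u, v} ops) (Y : 𝒱.Obj) (p q : ℕ) (τ : W.H Y) : Prop :=
  ∃ z, Y.IsCyc p z ∧ ∀ u, Y.IsCyc q u →
    inter W Y τ (W.cl Y u) = (Y.V.degCycle (ops.mul z u) : W.K)

/-- The class `τ` has rational intersection numbers with the cycles of codimension `q` on `Y`, and
intersection number zero with those cycles of codimension `q` which have intersection number zero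
with all cycles of codimension `p`. -/
def NumRational (W : WeilCohomology.{u, v} ops) (Y : 𝒱.Obj) (p q : ℕ) (τ : W.H Y) : Prop :=
  ∀ u, Y.IsCyc q u → ∃ r : ℚ, inter W Y τ (W.cl Y u) = (r : W.K) ∧
    ((∀ w, Y.IsCyc p w → Y.V.degCycle (ops.mul w u) = 0) → r = 0)

/-- The class `τ` is orthogonal to all `K`-linear combinations `γ` of classes of cycles of
codimension `q` on `Y` which are orthogonal to all classes of cycles of codimension `p`, where `K`
is the coefficient field. -/
def NumOrthogonal (W : WeilCohomology.{u, v} ops) (Y : 𝒱.Obj) (p q : ℕ) (τ : W.H Y) : Prop :=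
  ∀ γ ∈ spanCycles W Y q, (∀ w, Y.IsCyc p w → inter W Y (W.cl Y w) γ = 0) → inter W Y τ γ = 0

end Pool.Agent.H447
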