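import Pool.Agent.H89.L.H914R2_Core5

/-!
# From the inverses of the powers of `L` to the Lambda operator
-/

open Polynomial Finset

namespace Pool.Agent.H914

variable {K : Type*} [Field K] [CharZero K] {V : Type*} [AddCommGroup V] [Module K V]
  {gr : ℕ → Submodule K V} {n : ℕ} {L : Module.End K V}

/-- A graded algebra of homogeneous operators, closed under rational multiples. -/
structure OpAlg (gr : ℕ → Submodule K V) (R : ℤ → Module.End K V → Prop) : Prop where
  one : R 0 1
  zero : ∀ d, R d 0
  add : ∀ {d y z}, R d y → R d z → R d (y + z)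
  smul : ∀ (q : ℚ) {d y}, R d y → R d ((q : K) • y)
  mul : ∀ {d e y z}, R d y → R e z → R (d + e) (y * z)
  hom : ∀ {d y}, R d y → IsHom gr (2 * d) y

namespace OpAlg

variable {R : ℤ → Module.End K V → Prop} (hR : OpAlg gr R)

include hR

lemma cast {d e : ℤ} {y : Module.End K V} (h : R d y) (hde : d = e) : R e y := hde ▸ h

lemma neg {d : ℤ} {y : Module.End K V} (h : R d y) : R d (-y) := by
  have := hR.smul (-1) h
  simpa using this

lemma sub {d : ℤ} {y z : Module.End K V} (hy : R d y) (hz : R d z) : R d (y - z) := by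
  rw [sub_eq_add_neg]; exact hR.add hy (hR.neg hz)

lemma sum {ι : Type*} {d : ℤ} {s : Finset ι} {y : ι → Module.End K V}
    (hy : ∀ i ∈ s, R d (y i)) : R d (∑ i ∈ s, y i) := by
  classical
  induction s using Finset.induction_on with
  | empty => simpa using hR.zero d
  | insert a s ha ih =>
    rw [Finset.sum_insert ha]
    exact hR.add (hy a (by simp)) (ih (fun i hi => hy i (by simp [hi])))

lemma pow {d : ℤ} {y : Module.End K V} (hy : R d y) (m : ℕ) : R (m * d) (y ^ m) := by
  induction m with
  | zero => simpa using hR.one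
  | succ m ih =>
    rw [pow_succ]
    exact hR.cast (hR.mul ih hy) (by push_cast; ring)

lemma ev {y : Module.End K V} (hy : R 0 y) (f : ℚ[X]) : R 0 (ev y f) := by
  induction f using Polynomial.induction_on' with
  | add p q hp hq => rw [map_add]; exact hR.add hp hq
  | monomial r c =>
    rw [← C_mul_X_pow_eq_monomial, map_mul, map_pow, ev_C, ev_X, smul_mul_assoc, one_mul]
    apply hR.smul
    exact hR.cast (hR.pow hy r) (by simp)

/-- The projectors are in the algebra if the Lambda operator is. -/
lemma proj_mem [Module.Finite K V] (h : DirectSum.IsInternal gr) (hbd : ∀ i, 2 * n + 1 ≤ i → gr i = ⊥)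
    (hL : R 1 L) (hHL : HardLef gr n L) {Lam : Module.End K V} (hLamR : R (-1) Lam)
    (hLam : IsLam gr n L Lam) (i : ℕ) : R 0 (proj h i) := by
  have hLh : IsHom gr 2 L := by simpa using hR.hom hL
  by_cases hi : i < 2 * n + 1
  · have h1 := sum_comm_eq_wt h hLh hbd hHL hLam
    have h2 : R 0 (wt h n) := by
      rw [← h1]
      apply hR.sum
      intro m _
      apply hR.sub
      · exact hR.cast (hR.mul (hR.pow hL (m + 1)) (hR.pow hLamR (m + 1))) (by push_cast; ring)
      · exact hR.cast (hR.mul (hR.pow hLamR (m + 1)) (hR.pow hL (m + 1))) (by push_cast; ring)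
    have h3 := hR.ev h2 (herm n 1 i)
    rwa [ev_wt_herm h hbd le_rfl (Finset.mem_range.2 hi)] at h3
  · have : proj h i = 0 := by
      apply gr_ext h
      intro j a ha
      by_cases hj : j = i
      · subst hj
        rw [hbd j (by omega)] at ha
        rw [(Submodule.mem_bot _).1 ha, map_zero, map_zero]
      · rw [proj_ne h ha hj, LinearMap.zero_apply]
    rw [this]
    exact hR.zero 0

/-- If there are operators in the algebra inverting the powers of `L`, then the projectors are in
the algebra. -/
lemma proj_mem_of_theta (h : DirectSum.IsInternal gr) (hbd : ∀ i, 2 * n + 1 ≤ i → gr i = ⊥)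
    (hL : R 1 L) (hHL : HardLef gr n L) (θ : ℕ → Module.End K V)
    (hθR : ∀ c ≤ n, R (-c) (θ c)) (hθ : ∀ c ≤ n, ∀ a ∈ gr (n - c), θ c ((L ^ c) a) = a) :
    ∀ m ≤ n, ∀ c, c + m = n → R 0 (proj h (n - c)) ∧ R 0 (proj h (n + c)) := by
  have hLh : IsHom gr 2 L := by simpa using hR.hom hL
  intro m
  induction m using Nat.strong_induction_on with
  | _ m ih =>
    intro hm c hc
    -- the truncated inverse
    set A : Module.End K V := 1 - ∑ l ∈ range m, proj h l with hA
    set B : Module.End K V := 1 - ∑ l ∈ range m, proj h (2 * n - l) with hB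
    have hAR : R 0 A := by
      apply hR.sub hR.one
      apply hR.sum
      intro l hl
      rw [Finset.mem_range] at hl
      have := (ih l hl (by omega) (n - l) (by omega)).1
      rwa [show n - (n - l) = l by omega] at this
    have hBR : R 0 B := by
      apply hR.sub hR.one
      apply hR.sum
      intro l hl
      rw [Finset.mem_range] at hl
      have := (ih l hl (by omega) (n - l) (by omega)).2
      rwa [show n + (n - l) = 2 * n - l by omega] at this
    set T := A * θ c * B with hT
    have hTR : R (-c) T := hR.cast (hR.mul (hR.mul hAR (hθR c (by omega))) hBR) (by ring)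
    have hAlow : ∀ l < m, ∀ a ∈ gr l, A a = 0 := by
      intro l hl a ha
      rw [hA, LinearMap.sub_apply, Module.End.one_apply, LinearMap.sum_apply,
        Finset.sum_eq_single l, proj_same h ha, sub_self]
      · intro l' _ hl'; exact proj_ne h ha (Ne.symm hl')
      · intro h'; exact absurd (Finset.mem_range.2 hl) h'
    have hAhigh : ∀ l, m ≤ l → ∀ a ∈ gr l, A a = a := by
      intro l hl a ha
      rw [hA, LinearMap.sub_apply, Module.End.one_apply, LinearMap.sum_apply,
        Finset.sum_eq_zero, sub_zero]
      intro l' hl'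
      rw [Finset.mem_range] at hl'
      exact proj_ne h ha (by omega)
    have hBhigh : ∀ l, 2 * n - m < l → ∀ a ∈ gr l, B a = 0 := by
      intro l hl a ha
      by_cases hl2 : 2 * n < l
      · rw [hbd l (by omega)] at ha
        rw [(Submodule.mem_bot _).1 ha, map_zero]
      · rw [hB, LinearMap.sub_apply, Module.End.one_apply, LinearMap.sum_apply,
          Finset.sum_eq_single (2 * n - l), show 2 * n - (2 * n - l) = l by omega,
          proj_same h ha, sub_self]
        · intro l' hl' hne
          rw [Finset.mem_range] at hl'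
          exact proj_ne h ha (by omega)
        · intro h'; exact absurd (Finset.mem_range.2 (by omega)) h'
    have hBlow : ∀ l ≤ 2 * n - m, ∀ a ∈ gr l, B a = a := by
      intro l hl a ha
      rw [hB, LinearMap.sub_apply, Module.End.one_apply, LinearMap.sum_apply,
        Finset.sum_eq_zero, sub_zero]
      intro l' hl'
      rw [Finset.mem_range] at hl'
      exact proj_ne h ha (by omega)
    -- `T` is supported in degree `n + c`
    have hTsupp : ∀ l, l ≠ n + c → ∀ a ∈ gr l, T a = 0 := by
      intro l hl a ha
      rw [hT, Module.End.mul_apply, Module.End.mul_apply]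
      by_cases h1 : 2 * n - m < l
      · rw [hBhigh l h1 a ha, map_zero, map_zero]
      · rw [hBlow l (by omega) a ha]
        have h2 := hR.hom (hθR c (by omega)) l a (by rw [grZ_natCast]; exact ha)
        by_cases h3 : 2 * c ≤ l
        · rw [show (l : ℤ) + 2 * -(c : ℤ) = ((l - 2 * c : ℕ) : ℤ) by omega, grZ_natCast] at h2
          exact hAlow _ (by omega) _ h2
        · rw [grZ_of_neg (by omega)] at h2
          rw [(Submodule.mem_bot _).1 h2, map_zero]
    have hTinv : ∀ a ∈ gr (n - c), T ((L ^ c) a) = a := by
      intro a ha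
      have h1 := pow_L_mem hLh ha c
      rw [hT, Module.End.mul_apply, Module.End.mul_apply, hBlow _ (by omega) _ h1,
        hθ c (by omega) a ha, hAhigh _ (by omega) a ha]
    constructor
    · have e : proj h (n - c) = T * L ^ c := by
        apply gr_ext h
        intro l a ha
        rw [Module.End.mul_apply]
        by_cases hl : l = n - c
        · subst hl
          rw [proj_same h ha, hTinv a ha]
        · rw [proj_ne h ha hl, hTsupp (l + 2 * c) (by omega) _ (pow_L_mem hLh ha c)]
      rw [e]
      exact hR.cast (hR.mul hTR (hR.pow hL c)) (by ring)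
    · have e : proj h (n + c) = L ^ c * T := by
        apply gr_ext h
        intro l a ha
        rw [Module.End.mul_apply]
        by_cases hl : l = n + c
        · subst hl
          rw [proj_same h ha]
          obtain ⟨b, hb, hb'⟩ := (hHL (n - c) (by omega)).2 a
            (by rw [show 2 * n - (n - c) = n + c by omega]; exact ha)
          rw [show n - (n - c) = c by omega] at hb'
          rw [← hb', hTinv b hb]
        · rw [proj_ne h ha hl, hTsupp l hl a ha, map_zero]
      rw [e]
      exact hR.cast (hR.mul (hR.pow hL c) hTR) (by ring)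

/-- If there are operators in the algebra inverting the powers of `L`, then the Lambda operator is
in the algebra. -/
theorem exists_lam (h : DirectSum.IsInternal gr) (hbd : ∀ i, 2 * n + 1 ≤ i → gr i = ⊥)
    (hL : R 1 L) (hHL : HardLef gr n L)
    (hθ : ∀ c ≤ n, ∃ θ, R (-c) θ ∧ ∀ a ∈ gr (n - c), θ ((L ^ c) a) = a) :
    ∃ Φ, R (-1) Φ ∧ IsLam gr n L Φ := by
  have hLh : IsHom gr 2 L := by simpa using hR.hom hL
  choose! θ hθR hθ using hθ
  have hproj := hR.proj_mem_of_theta h hbd hL hHL θ hθR hθ
  have hp1 : ∀ c ≤ n, R 0 (proj h (n - c)) := fun c hc => (hproj (n - c) (by omega) c (by omega)).1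
  have hp2 : ∀ c ≤ n, R 0 (proj h (n + c)) := fun c hc => (hproj (n - c) (by omega) c (by omega)).2
  set Φ : Module.End K V := (∑ d ∈ range (n - 1), θ (d + 2) * L ^ (d + 1) * proj h (n - d)) +
    ∑ d ∈ range n, L ^ d * θ (d + 1) * proj h (n + (d + 1)) with hΦ
  refine ⟨Φ, ?_, ?_⟩
  · apply hR.add
    · apply hR.sum
      intro d hd
      rw [Finset.mem_range] at hd
      exact hR.cast (hR.mul (hR.mul (hθR (d + 2) (by omega)) (hR.pow hL (d + 1)))
        (hp1 d (by omega))) (by push_cast; ring)
    · apply hR.sum
      intro d hd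
      rw [Finset.mem_range] at hd
      exact hR.cast (hR.mul (hR.mul (hR.pow hL d) (hθR (d + 1) (by omega)))
        (hp2 (d + 1) (by omega))) (by push_cast; ring)
  have hΦlow : ∀ d ≤ n, ∀ y ∈ gr (n - d), Φ y =
      if d + 2 ≤ n then θ (d + 2) ((L ^ (d + 1)) y) else 0 := by
    intro d hd y hy
    rw [hΦ, LinearMap.add_apply, LinearMap.sum_apply, LinearMap.sum_apply]
    have s2 : ∑ e ∈ range n, (L ^ e * θ (e + 1) * proj h (n + (e + 1))) y = 0 := by
      apply Finset.sum_eq_zero
      intro e he
      rw [Finset.mem_range] at he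
      rw [Module.End.mul_apply, proj_ne h hy (by omega), map_zero]
    rw [s2, add_zero]
    by_cases h2 : d + 2 ≤ n
    · rw [if_pos h2, Finset.sum_eq_single d]
      · rw [Module.End.mul_apply, proj_same h hy, Module.End.mul_apply]
      · intro e he hed
        rw [Finset.mem_range] at he
        rw [Module.End.mul_apply, proj_ne h hy (by omega), map_zero]
      · intro he; exact absurd (Finset.mem_range.2 (by omega)) he
    · rw [if_neg h2]
      apply Finset.sum_eq_zero
      intro e he
      rw [Finset.mem_range] at he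
      rw [Module.End.mul_apply, proj_ne h hy (by omega), map_zero]
  have hΦhigh : ∀ d < n, ∀ y ∈ gr (n + (d + 1)), Φ y = (L ^ d) (θ (d + 1) y) := by
    intro d hd y hy
    rw [hΦ, LinearMap.add_apply, LinearMap.sum_apply, LinearMap.sum_apply]
    have s1 : ∑ e ∈ range (n - 1), (θ (e + 2) * L ^ (e + 1) * proj h (n - e)) y = 0 := by
      apply Finset.sum_eq_zero
      intro e he
      rw [Finset.mem_range] at he
      rw [Module.End.mul_apply, proj_ne h hy (by omega), map_zero]
    rw [s1, zero_add, Finset.sum_eq_single d]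
    · rw [Module.End.mul_apply, proj_same h hy, Module.End.mul_apply]
    · intro e he hed
      rw [Finset.mem_range] at he
      rw [Module.End.mul_apply, proj_ne h hy (by omega), map_zero]
    · intro he; exact absurd (Finset.mem_range.2 hd) he
  intro i hi a ha hprim
  constructor
  · rw [hΦlow (n - i) (by omega) a (by rw [show n - (n - i) = i by omega]; exact ha), hprim,
      map_zero]
    split_ifs <;> rfl
  · intro j hj
    have hmem := pow_L_mem hLh ha (j + 1)
    have hmem' := pow_L_mem hLh ha j
    by_cases hw : i + 2 * (j + 1) ≤ n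
    · set d := n - (i + 2 * (j + 1)) with hd
      rw [hΦlow d (by omega) _ (by rw [show n - d = i + 2 * (j + 1) by omega]; exact hmem),
        if_pos (by omega), ← Module.End.mul_apply (L ^ (d + 1)), ← pow_add,
        show d + 1 + (j + 1) = (d + 2) + j by ring, pow_add, Module.End.mul_apply]
      exact hθ (d + 2) (by omega) _ (by rw [show n - (d + 2) = i + 2 * j by omega]; exact hmem')
    · set d := i + 2 * (j + 1) - n - 1 with hd
      have hmem2 : (L ^ (j + 1)) a ∈ gr (n + (d + 1)) := by
        rw [show n + (d + 1) = i + 2 * (j + 1) by omega]; exact hmem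
      rw [hΦhigh d (by omega) _ hmem2]
      have e1 : (L ^ (j + 1)) a = (L ^ (d + 1)) ((L ^ (j - d)) a) := by
        rw [← Module.End.mul_apply, ← pow_add, show d + 1 + (j - d) = j + 1 by omega]
      have hmem3 := pow_L_mem hLh ha (j - d)
      rw [e1, hθ (d + 1) (by omega) _
        (by rw [show n - (d + 1) = i + 2 * (j - d) by omega]; exact hmem3),
        ← Module.End.mul_apply, ← pow_add, show d + (j - d) = j by omega]

end OpAlg

/-- **Rationality of characteristic polynomials.** If the traces of all powers of `E` are rational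
then a nonzero polynomial with rational coefficients in `E` is nilpotent. -/
theorem exists_rat_poly [Module.Finite K V] {E : Module.End K V}
    (hE : ∀ r : ℕ, ∃ q : ℚ, LinearMap.trace K V (E ^ r) = q) :
    ∃ f : ℚ[X], f ≠ 0 ∧ IsNilpotent (ev E f) := by
  classical
  choose p hp using hE
  obtain ⟨ret, hret⟩ : ∃ ret : K →ₗ[ℚ] ℚ, ret 1 = 1 := by
    have hinj : LinearMap.ker (Algebra.linearMap ℚ K) = ⊥ := by
      rw [LinearMap.ker_eq_bot]
      exact (algebraMap ℚ K).injective
    obtain ⟨g, hg⟩ := LinearMap.exists_leftInverse_of_injective (Algebra.linearMap ℚ K) hinj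
    refine ⟨g, ?_⟩
    have := congrArg (fun F => F (1 : ℚ)) hg
    simpa using this
  set F := minpoly K E with hF
  have hmonic : F.Monic := minpoly.monic (Algebra.IsIntegral.isIntegral E)
  set N := F.natDegree with hN
  set f : ℚ[X] := ∑ s ∈ range (N + 1), C (ret (F.coeff s)) * X ^ s with hf
  have hcoeff : f.coeff N = 1 := by
    rw [hf, finset_sum_coeff, Finset.sum_eq_single N]
    · rw [coeff_C_mul_X_pow, if_pos rfl]
      have : F.coeff N = 1 := hmonic
      rw [this, hret]
    · intro s _ hs
      rw [coeff_C_mul_X_pow, if_neg (Ne.symm hs)]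
    · intro h'; exact absurd (Finset.mem_range.2 (by omega)) h'
  refine ⟨f, ?_, ?_⟩
  · intro h0
    rw [h0, coeff_zero] at hcoeff
    exact zero_ne_one hcoeff
  -- the traces of `f(E) E^r` vanish
  have hevf : ev E f = ∑ s ∈ range (N + 1), ((ret (F.coeff s) : ℚ) : K) • E ^ s := by
    rw [hf, map_sum]
    apply Finset.sum_congr rfl
    intro s _
    rw [map_mul, map_pow, ev_C, ev_X, smul_mul_assoc, one_mul]
  have hzero : ∀ r : ℕ, LinearMap.trace K V (ev E f * E ^ r) = 0 := by
    intro r
    have h1 : (∑ s ∈ range (N + 1), F.coeff s • E ^ s) = 0 := by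
      have := minpoly.aeval K E
      rw [aeval_eq_sum_range] at this
      exact this
    have h2 : ∑ s ∈ range (N + 1), F.coeff s * (p (s + r) : K) = 0 := by
      have := congrArg (fun y => LinearMap.trace K V (y * E ^ r)) h1
      simp only [zero_mul, map_zero, Finset.sum_mul, map_sum, smul_mul_assoc, map_smul,
        smul_eq_mul, ← pow_add, hp] at this
      exact this
    have h3 : ∑ s ∈ range (N + 1), ret (F.coeff s) * p (s + r) = 0 := by
      have h4 := congrArg ret h2
      rw [map_zero, map_sum] at h4
      rw [← h4]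
      apply Finset.sum_congr rfl
      intro s _
      have : F.coeff s * (p (s + r) : K) = p (s + r) • F.coeff s := by
        rw [Algebra.smul_def, mul_comm]; rfl
      rw [this, map_smul, smul_eq_mul, mul_comm]
    rw [hevf, Finset.sum_mul, map_sum]
    have h5 : ∀ s ∈ range (N + 1), LinearMap.trace K V
        ((((ret (F.coeff s) : ℚ) : K) • E ^ s) * E ^ r) =
        ((ret (F.coeff s) * p (s + r) : ℚ) : K) := by
      intro s _
      rw [smul_mul_assoc, map_smul, ← pow_add, hp, smul_eq_mul]
      push_cast; rfl
    rw [Finset.sum_congr rfl h5, ← Rat.cast_sum, h3, Rat.cast_zero]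
  have hzero' : ∀ g : ℚ[X], LinearMap.trace K V (ev E f * ev E g) = 0 := by
    intro g
    induction g using Polynomial.induction_on' with
    | add a b ha hb => rw [map_add, mul_add, map_add, ha, hb, add_zero]
    | monomial r c =>
      rw [← C_mul_X_pow_eq_monomial, map_mul (H914.ev E), map_pow (H914.ev E), ev_C, ev_X,
        smul_mul_assoc, one_mul, mul_smul_comm, map_smul, hzero, smul_zero]
  apply isNilpotent_of_trace_pow
  intro r
  rw [pow_succ', ← map_pow]
  exact hzero' _

/-- A polynomial inverse on a subspace on which `E` is injective. -/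
theorem exists_poly_inverse [Module.Finite K V] {E : Module.End K V}
    (hE : ∀ r : ℕ, ∃ q : ℚ, LinearMap.trace K V (E ^ r) = q) {S : Submodule K V}
    (hS : ∀ x ∈ S, E x ∈ S) (hinj : ∀ x ∈ S, E x = 0 → x = 0) :
    ∃ q : ℚ[X], ∀ x ∈ S, ev E q (E x) = x := by
  obtain ⟨f, hf0, M, hM⟩ := exists_rat_poly hE
  obtain ⟨g, hg, hndvd⟩ := Polynomial.exists_eq_pow_rootMultiplicity_mul_and_not_dvd f hf0 0
  set m := f.rootMultiplicity 0 with hm
  rw [C_0, sub_zero] at hg hndvd
  have hg0 : g.eval 0 ≠ 0 := by
    intro h0
    apply hndvd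
    rw [X_dvd_iff, coeff_zero_eq_eval_zero]
    exact h0
  have hpowS : ∀ (r : ℕ), ∀ x ∈ S, (E ^ r) x ∈ S := by
    intro r
    induction r with
    | zero => intro x hx; simpa using hx
    | succ r ih => intro x hx; rw [pow_succ', Module.End.mul_apply]; exact hS _ (ih x hx)
  have hevS : ∀ (g : ℚ[X]), ∀ x ∈ S, ev E g x ∈ S := by
    intro g
    induction g using Polynomial.induction_on' with
    | add a b ha hb => intro x hx; rw [map_add]; exact Submodule.add_mem _ (ha x hx) (hb x hx)
    | monomial r c =>
      intro x hx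
      rw [← C_mul_X_pow_eq_monomial, map_mul, map_pow, ev_C, ev_X, smul_mul_assoc, one_mul]
      exact Submodule.smul_mem _ _ (hpowS r x hx)
  have hinjpow : ∀ (r : ℕ), ∀ x ∈ S, (E ^ r) x = 0 → x = 0 := by
    intro r
    induction r with
    | zero => intro x _ h; simpa using h
    | succ r ih =>
      intro x hx h
      rw [pow_succ', Module.End.mul_apply] at h
      exact ih x hx (hinj _ (hpowS r x hx) h)
  set h := g ^ M with hh
  have hhS : ∀ x ∈ S, ev E h x = 0 := by
    intro x hx
    apply hinjpow (m * M) _ (hevS h x hx)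
    rw [← Module.End.mul_apply]
    have : E ^ (m * M) * ev E h = ev E f ^ M := by
      have e0 : ev E (X ^ (m * M)) = E ^ (m * M) := by rw [map_pow, ev_X]
      rw [← e0, ← map_mul, ← map_pow]
      congr 1
      conv_rhs => rw [hg]
      rw [mul_pow, ← pow_mul]
    rw [this, hM, LinearMap.zero_apply]
  have hh0 : h.eval 0 ≠ 0 := by rw [hh, eval_pow]; exact pow_ne_zero _ hg0
  obtain ⟨h1, hh1⟩ : X ∣ h - C (h.eval 0) := by
    rw [X_dvd_iff, coeff_zero_eq_eval_zero]; simp
  refine ⟨C (-(h.eval 0)⁻¹) * h1, ?_⟩
  intro x hx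
  have e1 : ev E h = ((h.eval 0 : ℚ) : K) • 1 + ev E h1 * E := by
    have : h = C (h.eval 0) + h1 * X := by rw [mul_comm h1, ← hh1]; ring
    conv_lhs => rw [this]
    rw [map_add, map_mul, ev_C, ev_X]
  have e2 := hhS x hx
  rw [e1, LinearMap.add_apply, LinearMap.smul_apply, Module.End.one_apply,
    Module.End.mul_apply] at e2
  rw [map_mul, ev_C, smul_mul_assoc, one_mul, LinearMap.smul_apply]
  have e3 : ev E h1 (E x) = -(((h.eval 0 : ℚ) : K) • x) := by
    rw [eq_neg_iff_add_eq_zero, add_comm]; exact e2
  rw [e3, smul_neg, smul_smul, ← neg_smul]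
  have : -(((-(eval 0 h)⁻¹ : ℚ) : K) * ((eval 0 h : ℚ) : K)) = 1 := by
    rw [← Rat.cast_mul, neg_mul, inv_mul_cancel₀ hh0]
    simp
  rw [this, one_smul]

end Pool.Agent.H914
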