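import Pool.Agent.H89.L.H914R2_KLef
import Pool.Agent.H89.L.H914R2_HLam
import Pool.Agent.H89.L.H447R3_NumDefs

/-!
# Numerically algebraic inverse Lefschetz operators: the abstract argument
-/

open Polynomial Finset

namespace Pool.Agent.H447

open Pool.Agent.H914

variable {K : Type*} [Field K] {V : Type*} [AddCommGroup V] [Module K V]

variable {gr : ℕ → Submodule K V} {n : ℕ} {L : Module.End K V}

lemma surj_pow (hHL : HardLef gr n L) {c : ℕ} (hc : c ≤ n) {b : V} (hb : b ∈ gr (n + c)) :
    ∃ a ∈ gr (n - c), (L ^ c) a = b := by
  obtain ⟨a, ha, h⟩ := (hHL (n - c) (by omega)).2 b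
    (by rw [show 2 * n - (n - c) = n + c by omega]; exact hb)
  exact ⟨a, ha, by rwa [show n - (n - c) = c by omega] at h⟩

lemma IsInv.unique (h : DirectSum.IsInternal gr) (hHL : HardLef gr n L) {c : ℕ} (hc : c ≤ n)
    {T T' : Module.End K V} (hT : IsInv gr n L c T) (hT' : IsInv gr n L c T') : T = T' := by
  apply gr_ext h
  intro i a ha
  by_cases hi : i = n + c
  · subst hi
    obtain ⟨b, hb, rfl⟩ := surj_pow hHL hc ha
    rw [hT.1 b hb, hT'.1 b hb]
  · rw [hT.2 i hi a ha, hT'.2 i hi a ha]

lemma isInv_of_theta (h : DirectSum.IsInternal gr) (hL : IsHom gr 2 L) {c : ℕ} (hc : c ≤ n)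
    {θ : Module.End K V} (hθ : ∀ a ∈ gr (n - c), θ ((L ^ c) a) = a) :
    IsInv gr n L c (θ * proj h (n + c)) := by
  constructor
  · intro a ha
    have h1 := pow_L_mem hL ha c
    rw [show n - c + 2 * c = n + c by omega] at h1
    rw [Module.End.mul_apply, proj_same h h1, hθ a ha]
  · intro i hi a ha
    rw [Module.End.mul_apply, proj_ne h ha hi, map_zero]

lemma exists_isInv (h : DirectSum.IsInternal gr) (hL : IsHom gr 2 L) (hHL : HardLef gr n L)
    {c : ℕ} (hc : c ≤ n) : ∃ T, IsInv gr n L c T := by
  obtain ⟨θ, -, hθ⟩ := exists_theta h hL hHL hc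
  exact ⟨_, isInv_of_theta h hL hc hθ⟩

lemma IsInv.mul_proj (h : DirectSum.IsInternal gr) (hL : IsHom gr 2 L) {c : ℕ} (hc : c ≤ n)
    {T : Module.End K V} (hT : IsInv gr n L c T) : T * (L ^ c * proj h (n - c)) = proj h (n - c) := by
  apply gr_ext h
  intro i a ha
  rw [Module.End.mul_apply, Module.End.mul_apply]
  by_cases hi : i = n - c
  · subst hi
    rw [proj_same h ha, hT.1 a ha]
  · rw [proj_ne h ha hi, map_zero, map_zero]

lemma IsInv.isHom (h : DirectSum.IsInternal gr) (hHL : HardLef gr n L) {c : ℕ} (hc : c ≤ n)
    {T : Module.End K V} (hT : IsInv gr n L c T) : IsHom gr (2 * -(c : ℤ)) T := by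
  intro i a ha
  by_cases h0 : 0 ≤ i
  · lift i to ℕ using h0
    rw [grZ_natCast] at ha
    by_cases hi : i = n + c
    · subst hi
      obtain ⟨b, hb, rfl⟩ := surj_pow hHL hc ha
      rw [hT.1 b hb, show ((n + c : ℕ) : ℤ) + 2 * -(c : ℤ) = ((n - c : ℕ) : ℤ) by omega,
        grZ_natCast]
      exact hb
    · rw [hT.2 i hi a ha]
      exact Submodule.zero_mem _
  · rw [grZ_of_neg (by omega)] at ha
    rw [(Submodule.mem_bot _).1 ha, map_zero]
    exact Submodule.zero_mem _

variable [CharZero K]

/-- Traces of the products `T u`, where `T` is supported in degree `n + c`. -/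
lemma IsInv.str_eq [Module.Finite K V] (h : DirectSum.IsInternal gr) (hHL : HardLef gr n L)
    {c : ℕ} (hc : c ≤ n) {T : Module.End K V} (hT : IsInv gr n L c T) (u : Module.End K V) :
    LinearMap.trace K V (par h * (T * u)) = (-1 : K) ^ (n - c) * LinearMap.trace K V (T * u) := by
  have h1 : par h * T = (-1 : K) ^ (n - c) • T := by
    apply gr_ext h
    intro i a ha
    rw [Module.End.mul_apply, LinearMap.smul_apply]
    by_cases hi : i = n + c
    · subst hi
      obtain ⟨b, hb, rfl⟩ := surj_pow hHL hc ha
      rw [hT.1 b hb, par, scal_apply h _ hb]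
    · rw [hT.2 i hi a ha, map_zero, smul_zero]
  rw [← mul_assoc, h1, smul_mul_assoc, map_smul, smul_eq_mul]

/-- **The main lemma.** If the inverses of the powers of `L` have the same super traces against the
operators in the algebra as some operators in the algebra, then there are operators in the algebra
which invert the powers of `L`. -/
theorem exists_theta_of_num {R : ℤ → Module.End K V → Prop} (hR : OpAlg gr R)
    [Module.Finite K V] (h : DirectSum.IsInternal gr) (hbd : ∀ i, 2 * n + 1 ≤ i → gr i = ⊥)
    (hL : R 1 L) (hHL : HardLef gr n L)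
    (hnum : ∀ c, 1 ≤ c → c ≤ n → ∀ T, IsInv gr n L c T → ∃ z, R (-c) z ∧ ∀ u, R c u →
      LinearMap.trace K V (par h * (z * u)) = LinearMap.trace K V (par h * (T * u))) :
    ∀ m ≤ n, ∀ c, c + m = n → R 0 (proj h (n - c)) ∧ R 0 (proj h (n + c)) ∧
      ∃ θ, R (-c) θ ∧ ∀ a ∈ gr (n - c), θ ((L ^ c) a) = a := by
  have hLh : IsHom gr 2 L := by simpa using hR.hom hL
  intro m
  induction m using Nat.strong_induction_on with
  | _ m ih =>
    intro hm c hc
    set A : Module.End K V := 1 - ∑ l ∈ range m, proj h l with hA
    set B : Module.End K V := 1 - ∑ l ∈ range m, proj h (2 * n - l) with hB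
    have hAR : R 0 A := by
      apply hR.sub hR.one
      apply hR.sum
      intro l hl
      rw [Finset.mem_range] at hl
      have := (ih l hl (by omega) (n - l) (by omega)).1
      rwa [show n - (n - l) = l by omega] at this
    have hBR : R 0 B := by
      apply hR.sub hR.one
      apply hR.sum
      intro l hl
      rw [Finset.mem_range] at hl
      have := (ih l hl (by omega) (n - l) (by omega)).2.1
      rwa [show n + (n - l) = 2 * n - l by omega] at this
    have hAlow : ∀ l < m, ∀ a ∈ gr l, A a = 0 := by
      intro l hl a ha
      rw [hA, LinearMap.sub_apply, Module.End.one_apply, LinearMap.sum_apply,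
        Finset.sum_eq_single l, proj_same h ha, sub_self]
      · intro l' _ hl'; exact proj_ne h ha (Ne.symm hl')
      · intro h'; exact absurd (Finset.mem_range.2 hl) h'
    have hAhigh : ∀ l, m ≤ l → ∀ a ∈ gr l, A a = a := by
      intro l hl a ha
      rw [hA, LinearMap.sub_apply, Module.End.one_apply, LinearMap.sum_apply,
        Finset.sum_eq_zero, sub_zero]
      intro l' hl'
      rw [Finset.mem_range] at hl'
      exact proj_ne h ha (by omega)
    have hBhigh : ∀ l, 2 * n - m < l → ∀ a ∈ gr l, B a = 0 := by
      intro l hl a ha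
      by_cases hl2 : 2 * n < l
      · rw [hbd l (by omega)] at ha
        rw [(Submodule.mem_bot _).1 ha, map_zero]
      · rw [hB, LinearMap.sub_apply, Module.End.one_apply, LinearMap.sum_apply,
          Finset.sum_eq_single (2 * n - l), show 2 * n - (2 * n - l) = l by omega,
          proj_same h ha, sub_self]
        · intro l' hl' hne
          rw [Finset.mem_range] at hl'
          exact proj_ne h ha (by omega)
        · intro h'; exact absurd (Finset.mem_range.2 (by omega)) h'
    have hBlow : ∀ l ≤ 2 * n - m, ∀ a ∈ gr l, B a = a := by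
      intro l hl a ha
      rw [hB, LinearMap.sub_apply, Module.End.one_apply, LinearMap.sum_apply,
        Finset.sum_eq_zero, sub_zero]
      intro l' hl'
      rw [Finset.mem_range] at hl'
      exact proj_ne h ha (by omega)
    -- the truncation of `L ^ c`
    set U : Module.End K V := B * L ^ c * A with hU
    have hUR : R c U := by
      have h1 : R c (L ^ c) := hR.cast (hR.pow hL c) (by ring)
      exact hR.cast (hR.mul (hR.mul hBR h1) hAR) (by ring)
    have hUeq : U = L ^ c * proj h (n - c) := by
      apply gr_ext h
      intro l a ha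
      rw [hU, Module.End.mul_apply, Module.End.mul_apply, Module.End.mul_apply]
      have hmem := pow_L_mem hLh ha c
      by_cases hl : l = n - c
      · subst hl
        rw [proj_same h ha, hAhigh _ (by omega) a ha, hBlow _ (by omega) _ hmem]
      · rw [proj_ne h ha hl, map_zero]
        by_cases hl2 : l < m
        · rw [hAlow l hl2 a ha, map_zero, map_zero]
        · rw [hAhigh l (by omega) a ha, hBhigh _ (by omega) _ hmem]
    rcases Nat.eq_zero_or_pos c with rfl | hc1
    · -- the middle degree
      have hp : proj h n = B * A := by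
        rw [hU, pow_zero, mul_one] at hUeq
        rw [hUeq, one_mul, Nat.sub_zero]
      have hpR : R 0 (proj h n) := by
        rw [hp]; exact hR.cast (hR.mul hBR hAR) (by ring)
      refine ⟨hpR, hpR, 1, hR.cast hR.one (by simp), fun a _ => by simp⟩
    · obtain ⟨T, hT⟩ := exists_isInv h hLh hHL (c := c) (by omega)
      obtain ⟨z, hzR, hz⟩ := hnum c hc1 (by omega) T hT
      have hzh := hR.hom hzR
      set P := proj h (n - c) with hP
      set g : Module.End K V := z * U with hg
      have hgR : R 0 g := hR.cast (hR.mul hzR hUR) (by ring)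
      have hTU : T * U = P := by rw [hUeq]; exact hT.mul_proj h hLh (by omega)
      have hPP : P * P = P := proj_mul_proj h (n - c)
      have hUP : U * P = U := by rw [hUeq, mul_assoc, hPP]
      have hgP : g * P = g := by rw [hg, mul_assoc, hUP]
      have hg0 : IsHom gr 0 g := by simpa using hR.hom hgR
      have hPg : P * g = g := by rw [hP, hg0.proj_comm h, ← hP, hgP]
      have hkey : ∀ w, R 0 w → LinearMap.trace K V (par h * (g * w)) =
          LinearMap.trace K V (par h * (P * w)) := by
        intro w hw
        rw [hg, mul_assoc, hz (U * w) (hR.cast (hR.mul hUR hw) (by ring)), ← mul_assoc T, hTU]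
      have hparP : par h * P = (-1 : K) ^ (n - c) • P := by
        apply LinearMap.ext
        intro a
        rw [Module.End.mul_apply, par, scal_apply h _ (H914.proj_mem h _ a), LinearMap.smul_apply]
      set u := g - P with hu
      have hPu : P * u = u := by rw [hu, mul_sub, hPP, hPg]
      have hPu' : P * (g - 1) = u := by rw [mul_sub, hPg, mul_one]
      have hcomm : P * (g - 1) = (g - 1) * P := by rw [mul_sub, sub_mul, hPg, hgP, mul_one, one_mul]
      have hupow : ∀ r : ℕ, u ^ (r + 1) = P * ((g - 1) * (g - 1) ^ r) := by
        intro r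
        induction r with
        | zero => rw [pow_zero, mul_one, hPu', zero_add, pow_one]
        | succ r ihr =>
          rw [pow_succ, ihr, ← hPu']
          have hc2 : Commute P (g - 1) := hcomm
          have hc3 : (g - 1) * (g - 1) ^ r * P = P * ((g - 1) * (g - 1) ^ r) := by
            have : Commute P ((g - 1) * (g - 1) ^ r) := hc2.mul_right (hc2.pow_right r)
            exact this.eq.symm
          calc P * ((g - 1) * (g - 1) ^ r) * (P * (g - 1))
              = P * (((g - 1) * (g - 1) ^ r * P) * (g - 1)) := by noncomm_ring
            _ = P * ((P * ((g - 1) * (g - 1) ^ r)) * (g - 1)) := by rw [hc3]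
            _ = P * P * ((g - 1) * ((g - 1) ^ r * (g - 1))) := by noncomm_ring
            _ = P * ((g - 1) * (g - 1) ^ (r + 1)) := by rw [hPP, ← pow_succ]
      have h1R : R 0 (g - 1) := hR.sub hgR hR.one
      have hnil : IsNilpotent u := by
        apply isNilpotent_of_trace_pow
        intro r
        have hwR : R 0 ((g - 1) ^ r) := hR.cast (hR.pow h1R r) (by ring)
        have e1 : LinearMap.trace K V (par h * u ^ (r + 1)) =
            (-1 : K) ^ (n - c) * LinearMap.trace K V (u ^ (r + 1)) := by
          have : u ^ (r + 1) = P * u ^ (r + 1) := by rw [pow_succ', ← mul_assoc, hPu]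
          rw [this, ← mul_assoc, hparP, smul_mul_assoc, map_smul, smul_eq_mul]
        have e2 : LinearMap.trace K V (par h * u ^ (r + 1)) = 0 := by
          have e3 : u ^ (r + 1) = g * (g - 1) ^ r - P * (g - 1) ^ r := by
            rw [hupow, sub_mul, one_mul, mul_sub, ← mul_assoc P, hPg]
          rw [e3, mul_sub, map_sub, hkey _ hwR, sub_self]
        rw [e2] at e1
        rcases mul_eq_zero.1 e1.symm with h0 | h0
        · exact absurd h0 (pow_ne_zero _ (by norm_num))
        · exact h0
      obtain ⟨M, hM⟩ := hnil
      set G : Module.End K V := ∑ r ∈ range M, (1 - g) ^ r with hG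
      have h1R' : R 0 (1 - g) := hR.sub hR.one hgR
      have hGR : R 0 G := by
        apply hR.sum
        intro r _
        exact hR.cast (hR.pow h1R' r) (by ring)
      have hG0 : IsHom gr 0 G := by simpa using hR.hom hGR
      have hGg : G * g = 1 - (1 - g) ^ M := by
        have := geom_sum_mul_neg (1 - g) M
        rwa [sub_sub_cancel] at this
      have hpow0 : ∀ a ∈ gr (n - c), ((1 - g) ^ M) a = 0 := by
        intro a ha
        have e1 : ∀ r : ℕ, (1 - g) ^ r * P = (-1 : K) ^ r • (u ^ r * P) := by
          intro r
          induction r with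
          | zero => simp
          | succ r ihr =>
            have e2 : (1 - g) * P = -(u * P) := by
              rw [hu, sub_mul, sub_mul, one_mul, hPP, neg_sub]
            have e3 : u * P = P * u := by
              rw [hPu, hu, sub_mul, hPP, hgP]
            rw [pow_succ (1 - g), mul_assoc, e2, e3, mul_neg, ← mul_assoc, ihr, pow_succ,
              pow_succ u, smul_mul_assoc, mul_assoc (u ^ r), ← e3]
            rw [mul_neg, mul_one, neg_smul]
            simp only [mul_assoc]
        have e2 := congrArg (fun F => F a) (e1 M)
        simp only [Module.End.mul_apply, hM, zero_mul, smul_zero, LinearMap.zero_apply] at e2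
        rwa [hP, proj_same h ha] at e2
      have hinv : ∀ a ∈ gr (n - c), (G * z) ((L ^ c) a) = a := by
        intro a ha
        have e1 : z ((L ^ c) a) = g a := by
          rw [hg, hUeq, Module.End.mul_apply, Module.End.mul_apply, proj_same h ha]
        rw [Module.End.mul_apply, e1, ← Module.End.mul_apply, hGg, LinearMap.sub_apply,
          Module.End.one_apply, hpow0 a ha, sub_zero]
      refine ⟨?_, ?_, G * z, hR.cast (hR.mul hGR hzR) (by ring), hinv⟩
      · have e : P = G * g := by
          apply gr_ext h
          intro l a ha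
          by_cases hl : l = n - c
          · subst hl
            rw [hP, proj_same h ha, hGg, LinearMap.sub_apply, Module.End.one_apply, hpow0 a ha,
              sub_zero]
          · rw [hP, proj_ne h ha hl, ← hgP, ← mul_assoc, Module.End.mul_apply, hP,
              proj_ne h ha hl, map_zero]
        rw [e]
        exact hR.cast (hR.mul hGR hgR) (by ring)
      · have e : proj h (n + c) = U * (G * z) := by
          apply gr_ext h
          intro l b hb
          by_cases hl : l = n + c
          · subst hl
            obtain ⟨a, ha, rfl⟩ := surj_pow hHL (by omega) hb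
            rw [proj_same h hb, Module.End.mul_apply, hinv a ha, hUeq, Module.End.mul_apply,
              proj_same h ha]
          · rw [proj_ne h hb hl, Module.End.mul_apply, hUeq, Module.End.mul_apply,
              Module.End.mul_apply]
            have h1 := hzh l b (by rw [grZ_natCast]; exact hb)
            by_cases h3 : 2 * c ≤ l
            · rw [show (l : ℤ) + 2 * -(c : ℤ) = ((l - 2 * c : ℕ) : ℤ) by omega] at h1
              have h2 := hG0 _ _ h1
              rw [add_zero, grZ_natCast] at h2
              rw [proj_ne h h2 (by omega), map_zero]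
            · rw [grZ_of_neg (by omega)] at h1
              rw [(Submodule.mem_bot _).1 h1]
              simp
        rw [e]
        exact hR.cast (hR.mul hUR (hR.mul hGR hzR)) (by ring)

end Pool.Agent.H447
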