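import Pool.Agent.H89.L.Z125_UN_Dim2

/-!
# The blocks of variables of a trilinear form can be permuted
-/

set_option autoImplicit false

open CategoryTheory AlgebraicGeometry MvPolynomial Pool.Agent.Y116.UV

namespace Pool.Agent.Z125.UN

section

variable {R : Type} [CommRing R] {α β γ : Type} [Fintype α] [Fintype β] [Fintype γ]

/-- exchange of the second and the third block -/
noncomputable def swapR (T : α → β → γ → R) : Hyp T ≃ₐ[R] Hyp fun i k j => T i j k :=
  Ideal.quotientEquivAlg _ _ (renameEquiv R (Equiv.sumCongr (Equiv.refl α) (Equiv.sumComm β γ))) (by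
    rw [Ideal.map_span, Set.image_singleton]
    congr 2
    simp only [RingHom.coe_coe, map_sub, map_one, tri, map_sum, map_mul, renameEquiv_apply,
      rename_C, rename_X, Equiv.sumCongr_apply, Sum.map_inl, Sum.map_inr, Equiv.sumComm_apply,
      Sum.swap_inl, Sum.swap_inr, Equiv.refl_apply]
    congr 1
    apply Finset.sum_congr rfl
    intro i _
    rw [Finset.sum_comm]
    apply Finset.sum_congr rfl
    intro j _
    apply Finset.sum_congr rfl
    intro k _
    ring)

/-- exchange of the first and the second block of the variables -/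
def swE (α β γ : Type) : α ⊕ (β ⊕ γ) ≃ β ⊕ (α ⊕ γ) :=
  (Equiv.sumAssoc α β γ).symm.trans (((Equiv.sumComm α β).sumCongr (Equiv.refl γ)).trans
    (Equiv.sumAssoc β α γ))

/-- exchange of the first and the second block -/
noncomputable def swapL (T : α → β → γ → R) : Hyp T ≃ₐ[R] Hyp fun j i k => T i j k :=
  Ideal.quotientEquivAlg _ _ (renameEquiv R (swE α β γ)) (by
    have h1 : ∀ i : α, swE α β γ (Sum.inl i) = Sum.inr (Sum.inl i) := fun _ => rfl
    have h2 : ∀ j : β, swE α β γ (Sum.inr (Sum.inl j)) = Sum.inl j := fun _ => rfl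
    have h3 : ∀ k : γ, swE α β γ (Sum.inr (Sum.inr k)) = Sum.inr (Sum.inr k) := fun _ => rfl
    rw [Ideal.map_span, Set.image_singleton]
    congr 2
    simp only [RingHom.coe_coe, map_sub, map_one, tri, map_sum, map_mul, renameEquiv_apply,
      rename_C, rename_X, h1, h2, h3]
    congr 1
    rw [Finset.sum_comm]
    apply Finset.sum_congr rfl
    intro j _
    apply Finset.sum_congr rfl
    intro i _
    apply Finset.sum_congr rfl
    intro k _
    ring)

end

section

variable {R : Type} [CommRing R] {sep : Prop} {P : Sch R → Prop} (hP : Bnd sep P)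

include hP

/-- a short block in any place -/
lemma of_block {c : ℕ} (h : ∀ (a b c' : ℕ), c' ≤ c → ∀ T : Fin a → Fin b → Fin c' → R,
    P (aff R (Hyp T))) {a b d : ℕ} (T : Fin a → Fin b → Fin d → R) (hm : a ≤ c ∨ b ≤ c ∨ d ≤ c) :
    P (hypS T) := by
  rcases hm with hm | hm | hm
  · have e1 := swapL T
    have e2 := swapR fun j i k => T i j k
    exact iso_alg hP.toUni (e1.trans e2).symm (h b d a hm fun j k i => T i j k)
  · exact iso_alg hP.toUni (swapR T).symm (h a d b hm fun i k j => T i j k)
  · exact h a b d hm T

end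

end Pool.Agent.Z125.UN
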