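import Pool.Agent.H89.L.H914R2_ThetaB

/-!
# Descent of the coefficients
-/

open Polynomial Finset

namespace Pool.Agent.H914

variable {K : Type*} [Field K] {V : Type*} [AddCommGroup V] [Module K V]

/-- A polynomial inverse on a subspace on which `E` is injective. -/
theorem exists_inv_on [Module.Finite K V] {E : Module.End K V} {S : Submodule K V}
    (hS : ∀ x ∈ S, E x ∈ S) (hinj : ∀ x ∈ S, E x = 0 → x = 0) :
    ∃ q : K[X], ∀ x ∈ S, aeval E q (E x) = x := by
  obtain ⟨w, k, -, -, hkw, g, hg⟩ := exists_fitting E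
  have hpowS : ∀ (r : ℕ), ∀ x ∈ S, (E ^ r) x ∈ S := by
    intro r
    induction r with
    | zero => intro x hx; simpa using hx
    | succ r ih => intro x hx; rw [pow_succ', Module.End.mul_apply]; exact hS _ (ih x hx)
  have hevS : ∀ (g : K[X]), ∀ x ∈ S, aeval E g x ∈ S := by
    intro g
    induction g using Polynomial.induction_on' with
    | add a b ha hb => intro x hx; rw [map_add]; exact Submodule.add_mem _ (ha x hx) (hb x hx)
    | monomial r c =>
      intro x hx
      rw [aeval_monomial, Algebra.algebraMap_eq_smul_one, smul_mul_assoc, one_mul]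
      exact Submodule.smul_mem _ _ (hpowS r x hx)
  have hinjpow : ∀ (r : ℕ), ∀ x ∈ S, (E ^ r) x = 0 → x = 0 := by
    intro r
    induction r with
    | zero => intro x _ h; simpa using h
    | succ r ih =>
      intro x hx h
      rw [pow_succ', Module.End.mul_apply] at h
      exact ih x hx (hinj _ (hpowS r x hx) h)
  refine ⟨g, fun x hx => ?_⟩
  have h1 : aeval E w x = 0 := by
    apply hinjpow k _ (hevS w x hx)
    rw [← Module.End.mul_apply, hkw, LinearMap.zero_apply]
  have h2 : aeval E (1 - w) = aeval E g * E := by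
    rw [hg, mul_comm, map_mul, aeval_X]
  have h3 := congrArg (fun F => F x) h2
  simp only [map_sub, map_one, LinearMap.sub_apply, Module.End.one_apply, h1, sub_zero,
    Module.End.mul_apply] at h3
  exact h3.symm

variable [CharZero K] {gr : ℕ → Submodule K V} {n : ℕ} {L : Module.End K V}

/-- The `K`-span of a graded set of operators. -/
def KS (R : ℤ → Module.End K V → Prop) (d : ℤ) : Submodule K (Module.End K V) :=
  Submodule.span K {y | R d y}

lemma exists_retract (K : Type*) [Field K] [CharZero K] : ∃ ret : K →ₗ[ℚ] ℚ, ret 1 = 1 := by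
  have hinj : LinearMap.ker (Algebra.linearMap ℚ K) = ⊥ := by
    rw [LinearMap.ker_eq_bot]
    exact (algebraMap ℚ K).injective
  obtain ⟨g, hg⟩ := LinearMap.exists_leftInverse_of_injective (Algebra.linearMap ℚ K) hinj
  refine ⟨g, ?_⟩
  have := congrArg (fun F => F (1 : ℚ)) hg
  simpa using this

lemma ret_ratCast {ret : K →ₗ[ℚ] ℚ} (hret : ret 1 = 1) (q : ℚ) : ret (q : K) = q := by
  have : (q : K) = q • (1 : K) := by rw [Algebra.smul_def, mul_one]; rfl
  rw [this, map_smul, hret, smul_eq_mul, mul_one]

lemma ret_mul {ret : K →ₗ[ℚ] ℚ} (q : ℚ) (c : K) : ret (c * (q : K)) = ret c * q := by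
  have : c * (q : K) = q • c := by rw [Algebra.smul_def, mul_comm]; rfl
  rw [this, map_smul, smul_eq_mul, mul_comm]

/-- The projectors from a nilpotent perturbation of the weight operator. -/
lemma ev_herm_of_nilp (h : DirectSum.IsInternal gr) (hbd : ∀ i, 2 * n + 1 ≤ i → gr i = ⊥)
    {c : Module.End K V} (hc : IsHom gr 0 c) {N : ℕ} (hcN : c ^ N = 0) {i : ℕ}
    (hi : i ∈ range (2 * n + 1)) :
    ev (wt h n + c) (herm n N i) = proj h i := by
  have hcm : ∀ (r j : ℕ), ∀ a ∈ gr j, (c ^ r) a ∈ gr j := by
    intro r j a ha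
    have h1 := (hc.pow r) j a (by rw [grZ_natCast]; exact ha)
    rw [mul_zero, add_zero, grZ_natCast] at h1
    exact h1
  have key : ∀ (r j : ℕ), ∀ a ∈ gr j, ev (wt h n + c) ((X - C (node n j)) ^ r) a = (c ^ r) a := by
    intro r j
    induction r with
    | zero => intro a _; simp
    | succ r ih =>
      intro a ha
      rw [pow_succ, pow_succ, map_mul, Module.End.mul_apply, map_sub, ev_X, ev_C]
      have h1 : (wt h n + c - ((node n j : ℚ) : K) • (1 : Module.End K V)) a = c a := by
        rw [LinearMap.sub_apply, LinearMap.add_apply, wt, scal_apply h _ ha,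
          LinearMap.smul_apply, Module.End.one_apply]
        abel
      have h2 : c a ∈ gr j := by simpa using hcm 1 j a ha
      rw [h1, ih _ h2, Module.End.mul_apply]
  have key2 : ∀ (f : ℚ[X]) (j : ℕ), (X - C (node n j)) ^ N ∣ f → ∀ a ∈ gr j,
      ev (wt h n + c) f a = 0 := by
    rintro f j ⟨g, rfl⟩ a ha
    rw [mul_comm, map_mul, Module.End.mul_apply, key N j a ha, hcN, LinearMap.zero_apply,
      map_zero]
  apply gr_ext h
  intro j a ha
  by_cases hj : j < 2 * n + 1
  · by_cases hij : j = i
    · subst hij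
      rw [proj_same h ha]
      have h1 := key2 _ j (herm_self n N j) a ha
      rw [map_sub, map_one, LinearMap.sub_apply, Module.End.one_apply, sub_eq_zero] at h1
      exact h1
    · rw [proj_ne h ha hij]
      exact key2 _ j (herm_ne (Finset.mem_range.2 hj) hij) a ha
  · rw [hbd j (by omega)] at ha
    rw [(Submodule.mem_bot _).1 ha, map_zero, map_zero]

/-- Super traces are cyclic. -/
lemma str_comm (h : DirectSum.IsInternal gr) {d : ℤ} {x y : Module.End K V}
    (hx : IsHom gr (2 * d) x) :
    LinearMap.trace K V (par h * (x * y)) = LinearMap.trace K V (par h * (y * x)) := by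
  rw [← mul_assoc, hx.par_comm h, mul_assoc, LinearMap.trace_mul_comm, mul_assoc]

namespace OpAlg

variable {R : ℤ → Module.End K V → Prop} (hR : OpAlg gr R)

include hR

/-- The `K`-span of a graded algebra of operators. -/
lemma kspan : OpAlg gr (fun d y => y ∈ KS R d) where
  one := Submodule.subset_span hR.one
  zero d := Submodule.zero_mem _
  add := Submodule.add_mem _
  smul q _ _ h := Submodule.smul_mem _ _ h
  mul := by
    intro d e y z hy hz
    have h1 : y * z ∈ KS R d * KS R e := Submodule.mul_mem_mul hy hz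
    rw [KS, KS, Submodule.span_mul_span] at h1
    refine Submodule.span_mono ?_ h1
    rintro _ ⟨a, ha, b, hb, rfl⟩
    exact hR.mul ha hb
  hom := by
    intro d y hy
    induction hy using Submodule.span_induction with
    | mem x hx => exact hR.hom hx
    | zero => exact isHom_zero _
    | add x y _ _ hx hy => exact hx.add hy
    | smul c x _ hx => exact hx.smul c

lemma kspan_aeval {E : Module.End K V} (hE : E ∈ KS R 0) (q : K[X]) : aeval E q ∈ KS R 0 := by
  induction q using Polynomial.induction_on' with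
  | add a b ha hb => rw [map_add]; exact Submodule.add_mem _ ha hb
  | monomial r c =>
    rw [aeval_monomial, Algebra.algebraMap_eq_smul_one, smul_mul_assoc, one_mul]
    apply Submodule.smul_mem
    exact hR.kspan.cast (hR.kspan.pow hE r) (by simp)

/-- From injections to inverses of the powers of `L`. -/
lemma exists_theta_of_inj [Module.Finite K V] (hL : L ∈ KS R 1) (hHL : HardLef gr n L) {c : ℕ}
    (hc : c ≤ n) {ν : Module.End K V} (hν : ν ∈ KS R (-c))
    (hinj : ∀ a ∈ gr (n + c), ν a = 0 → a = 0) :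
    ∃ θ ∈ KS R (-c), ∀ a ∈ gr (n - c), θ ((L ^ c) a) = a := by
  have hLh : IsHom gr 2 L := by simpa using hR.kspan.hom hL
  have hνh := hR.kspan.hom hν
  have hE : ν * L ^ c ∈ KS R 0 :=
    hR.kspan.cast (hR.kspan.mul hν (hR.kspan.pow hL c)) (by ring)
  have hm : ∀ a ∈ gr (n - c), (L ^ c) a ∈ gr (n + c) := by
    intro a ha
    have := pow_L_mem hLh ha c
    rwa [show n - c + 2 * c = n + c by omega] at this
  obtain ⟨q, hq⟩ := exists_inv_on (E := ν * L ^ c) (S := gr (n - c))
    (by
      intro x hx
      have h1 := hνh (n + c : ℕ) ((L ^ c) x) (by rw [grZ_natCast]; exact hm x hx)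
      rw [show ((n + c : ℕ) : ℤ) + 2 * (-c : ℤ) = ((n - c : ℕ) : ℤ) by omega, grZ_natCast] at h1
      exact h1)
    (by
      intro x hx h0
      have h1 := hinj _ (hm x hx) h0
      refine (hHL (n - c) (by omega)).1 x hx ?_
      rw [show n - (n - c) = c by omega]
      exact h1)
  refine ⟨aeval (ν * L ^ c) q * ν, ?_, ?_⟩
  · exact hR.kspan.cast (hR.kspan.mul (hR.kspan_aeval hE q) hν) (by ring)
  · intro a ha
    exact hq a ha

omit hR in
lemma exists_rep {d : ℤ} {y : Module.End K V} (hy : y ∈ KS R d) :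
    ∃ (m : ℕ) (c : Fin m → K) (z : Fin m → Module.End K V), (∀ i, R d (z i)) ∧
      ∑ i, c i • z i = y := by
  rw [KS, Submodule.mem_span_set'] at hy
  obtain ⟨m, c, g, hg⟩ := hy
  exact ⟨m, c, fun i => (g i : Module.End K V), fun i => (g i).2, hg⟩

/-- The twist of an element of the `K`-span by a `ℚ`-linear retraction. -/
lemma exists_twist (h : DirectSum.IsInternal gr)
    (hstr : ∀ y, R 0 y → ∃ q : ℚ, LinearMap.trace K V (par h * y) = q)
    {ret : K →ₗ[ℚ] ℚ} {d : ℤ} {y : Module.End K V} (hy : y ∈ KS R d) :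
    ∃ w, R d w ∧ ∀ x, R (-d) x →
      LinearMap.trace K V (par h * (w * x)) =
        ((ret (LinearMap.trace K V (par h * (y * x))) : ℚ) : K) := by
  obtain ⟨m, c, z, hz, rfl⟩ := exists_rep hy
  refine ⟨∑ i, ((ret (c i) : ℚ) : K) • z i, ?_, ?_⟩
  · exact hR.sum (fun i _ => hR.smul _ (hz i))
  · intro x hx
    rw [Finset.sum_mul, Finset.sum_mul, Finset.mul_sum, Finset.mul_sum, map_sum, map_sum, map_sum]
    push_cast
    apply Finset.sum_congr rfl
    intro i _
    obtain ⟨q, hq⟩ := hstr (z i * x) (hR.cast (hR.mul (hz i) hx) (by ring))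
    rw [smul_mul_assoc, smul_mul_assoc, mul_smul_comm, mul_smul_comm, map_smul, map_smul, hq,
      smul_eq_mul, smul_eq_mul, ret_mul]
    push_cast; rfl


/-- The twisted weight operator. -/
lemma exists_twisted_weight [Module.Finite K V] (h : DirectSum.IsInternal gr)
    (hbd : ∀ i, 2 * n + 1 ≤ i → gr i = ⊥)
    (hstr : ∀ y, R 0 y → ∃ q : ℚ, LinearMap.trace K V (par h * y) = q)
    (hL : R 1 L) (hHL : HardLef gr n L) {Phi : Module.End K V} (hPhiR : Phi ∈ KS R (-1))
    (hPhi : IsLam gr n L Phi) :
    ∃ c : Module.End K V, R 0 (wt h n + c) ∧ IsHom gr 0 c ∧ IsNilpotent c := by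
  obtain ⟨ret, hret⟩ := exists_retract K
  have hLh : IsHom gr 2 L := by simpa using hR.hom hL
  have hLK : L ∈ KS R 1 := Submodule.subset_span hL
  have hpow : ∀ m : ℕ, Phi ^ (m + 1) ∈ KS R (-(m + 1)) := fun m =>
    hR.kspan.cast (hR.kspan.pow hPhiR (m + 1)) (by push_cast; ring)
  choose w hwR hw using fun m : ℕ => hR.exists_twist h hstr (ret := ret) (hpow m)
  have hwt : ∑ m ∈ range n, (L ^ (m + 1) * Phi ^ (m + 1) - Phi ^ (m + 1) * L ^ (m + 1)) =
      wt h n := sum_comm_eq_wt h hLh hbd hHL hPhi
  set h' : Module.End K V := ∑ m ∈ range n, (L ^ (m + 1) * w m - w m * L ^ (m + 1)) with hh'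
  have hh'R : R 0 h' := by
    apply hR.sum
    intro m _
    apply hR.sub
    · exact hR.cast (hR.mul (hR.pow hL (m + 1)) (hwR m)) (by push_cast; ring)
    · exact hR.cast (hR.mul (hwR m) (hR.pow hL (m + 1))) (by push_cast; ring)
  have hLpow : ∀ m : ℕ, R (m + 1) (L ^ (m + 1)) := fun m =>
    hR.cast (hR.pow hL (m + 1)) (by push_cast; ring)
  -- traces against elements of degree zero
  have hB : ∀ u, R 0 u → LinearMap.trace K V (par h * (h' * u)) =
      ((ret (LinearMap.trace K V (par h * (wt h n * u))) : ℚ) : K) := by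
    intro u hu
    have gen : ∀ (v : ℕ → Module.End K V), (∀ m : ℕ, IsHom gr (2 * (-((m : ℤ) + 1))) (v m)) →
        LinearMap.trace K V (par h * ((∑ m ∈ range n,
          (L ^ (m + 1) * v m - v m * L ^ (m + 1))) * u)) =
        ∑ m ∈ range n, LinearMap.trace K V
          (par h * (v m * (u * L ^ (m + 1) - L ^ (m + 1) * u))) := by
      intro v hv
      rw [Finset.sum_mul, Finset.mul_sum, map_sum]
      apply Finset.sum_congr rfl
      intro m _
      rw [sub_mul, mul_sub (par h), mul_sub (v m), mul_sub (par h), map_sub, map_sub]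
      congr 1
      rw [mul_assoc, str_comm h (hR.hom (hLpow m)), mul_assoc]
    rw [hh', gen w (fun m => hR.hom (hwR m)), ← hwt,
      gen (fun m => Phi ^ (m + 1)) (fun m => hR.kspan.hom (hpow m)), map_sum]
    push_cast
    apply Finset.sum_congr rfl
    intro m _
    apply hw
    apply hR.sub
    · exact hR.cast (hR.mul hu (hLpow m)) (by ring)
    · exact hR.cast (hR.mul (hLpow m) hu) (by ring)
  set c := h' - wt h n with hc
  have hcK : c ∈ KS R 0 := by
    apply Submodule.sub_mem _ (Submodule.subset_span hh'R)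
    rw [← hwt]
    apply hR.kspan.sum
    intro m _
    apply hR.kspan.sub
    · exact hR.kspan.cast (hR.kspan.mul (hR.kspan.pow hLK (m + 1)) (hpow m)) (by push_cast; ring)
    · exact hR.kspan.cast (hR.kspan.mul (hpow m) (hR.kspan.pow hLK (m + 1))) (by push_cast; ring)
  have hchom : IsHom gr 0 c := by simpa using hR.kspan.hom hcK
  -- the parity operator is in the span
  have hparK : par h ∈ KS R 0 := by
    have : par h = ∑ i ∈ range (2 * n + 1), ((-1 : K) ^ i) • proj h i := by
      rw [par, scal_eq_sum h hbd]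
    rw [this]
    apply Submodule.sum_mem
    intro i _
    apply Submodule.smul_mem
    exact hR.kspan.proj_mem h hbd hLK hHL hPhiR hPhi i
  -- the commutator of `c` and `L`
  have hν1 : ∀ y, R (-1) y → LinearMap.trace K V (par h * ((c * L - L * c) * y)) = 0 := by
    intro y hy
    have hu : R 0 (L * y - y * L) := by
      apply hR.sub
      · exact hR.cast (hR.mul hL hy) (by ring)
      · exact hR.cast (hR.mul hy hL) (by ring)
    have e1 : ∀ z : Module.End K V, IsHom gr 0 z →
        LinearMap.trace K V (par h * ((z * L - L * z) * y)) =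
        LinearMap.trace K V (par h * (z * (L * y - y * L))) := by
      intro z hz
      rw [sub_mul, mul_sub (par h), mul_sub z, mul_sub (par h), map_sub, map_sub]
      congr 1
      rw [mul_assoc L, str_comm h (hR.hom hL), mul_assoc z]
    obtain ⟨q, hq⟩ := hstr (L * y) (hR.cast (hR.mul hL hy) (by ring))
    have e2 : LinearMap.trace K V (par h * (wt h n * (L * y - y * L))) = ((2 * q : ℚ) : K) := by
      rw [← e1 (wt h n) (isHom_scal h _)]
      have h3 := hLh.wt_comm h n
      have h4 : wt h n * L - L * wt h n = ((2 : ℤ) : K) • L := by rw [h3]; abel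
      rw [h4, smul_mul_assoc, mul_smul_comm, map_smul, hq]
      push_cast; rfl
    rw [e1 c hchom, hc, sub_mul, mul_sub (par h), map_sub, hB _ hu, e2, ret_ratCast hret, sub_self]
  have hν2 : ∀ y ∈ KS R (-1), LinearMap.trace K V (par h * ((c * L - L * c) * y)) = 0 := by
    intro y hy
    induction hy using Submodule.span_induction with
    | mem x hx => exact hν1 x hx
    | zero => simp
    | add x y _ _ hx hy => rw [mul_add, mul_add, map_add, hx, hy, add_zero]
    | smul a x _ hx => rw [mul_smul_comm, mul_smul_comm, map_smul, hx, smul_zero]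
  -- numerically trivial operators
  set Num : ℤ → Module.End K V → Prop := fun d x => x ∈ KS R d ∧
    ∀ y ∈ KS R (-d), LinearMap.trace K V (x * y) = 0 with hNum
  have hnu : Num 1 (c * L - L * c) := by
    constructor
    · apply hR.kspan.sub
      · exact hR.kspan.cast (hR.kspan.mul hcK hLK) (by ring)
      · exact hR.kspan.cast (hR.kspan.mul hLK hcK) (by ring)
    · intro y hy
      have h1 := hν2 (y * par h) (hR.kspan.cast (hR.kspan.mul hy hparK) (by ring))
      rw [← mul_assoc _ y, LinearMap.trace_mul_comm, mul_assoc, par_mul_par, mul_one] at h1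
      exact h1
  have hadd : ∀ {d x y}, Num d x → Num d y → Num d (x + y) := by
    intro d x y hx hy
    refine ⟨Submodule.add_mem _ hx.1 hy.1, fun z hz => ?_⟩
    rw [add_mul, map_add, hx.2 z hz, hy.2 z hz, add_zero]
  have hml : ∀ {d e x y}, x ∈ KS R d → Num e y → Num (d + e) (x * y) := by
    intro d e x y hx hy
    refine ⟨hR.kspan.mul hx hy.1, fun z hz => ?_⟩
    rw [mul_assoc, LinearMap.trace_mul_comm, mul_assoc]
    exact hy.2 _ (hR.kspan.cast (hR.kspan.mul hz hx) (by ring))
  have hmr : ∀ {d e x y}, Num d x → y ∈ KS R e → Num (d + e) (x * y) := by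
    intro d e x y hx hy
    refine ⟨hR.kspan.mul hx.1 hy, fun z hz => ?_⟩
    rw [mul_assoc]
    exact hx.2 _ (hR.kspan.cast (hR.kspan.mul hy hz) (by ring))
  have hcast : ∀ {d e x}, Num d x → d = e → Num e x := by rintro d _ x hx rfl; exact hx
  have hcpow : ∀ r : ℕ, c ^ r ∈ KS R 0 := fun r =>
    hR.kspan.cast (hR.kspan.pow hcK r) (by simp)
  have hcomm1 : ∀ r : ℕ, Num 1 (c ^ r * L - L * c ^ r) := by
    intro r
    induction r with
    | zero =>
      rw [pow_zero, one_mul, mul_one, sub_self]
      exact ⟨Submodule.zero_mem _, fun z _ => by rw [zero_mul, map_zero]⟩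
    | succ r ih =>
      have : c ^ (r + 1) * L - L * c ^ (r + 1) =
          c ^ r * (c * L - L * c) + (c ^ r * L - L * c ^ r) * c := by
        rw [pow_succ]
        noncomm_ring
      rw [this]
      exact hadd (hcast (hml (hcpow r) hnu) (by ring)) (hcast (hmr ih hcK) (by ring))
  have hcomm : ∀ r m : ℕ, Num (m + 1) (c ^ r * L ^ (m + 1) - L ^ (m + 1) * c ^ r) := by
    intro r m
    induction m with
    | zero => exact hcast (by simpa using hcomm1 r) (by simp)
    | succ m ih =>
      have : c ^ r * L ^ (m + 1 + 1) - L ^ (m + 1 + 1) * c ^ r =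
          (c ^ r * L ^ (m + 1) - L ^ (m + 1) * c ^ r) * L +
            L ^ (m + 1) * (c ^ r * L - L * c ^ r) := by
        rw [pow_succ L (m + 1)]
        noncomm_ring
      rw [this]
      have hLm : L ^ (m + 1) ∈ KS R (m + 1) := Submodule.subset_span (hLpow m)
      exact hadd (hcast (hmr ih hLK) (by push_cast; ring))
        (hcast (hml hLm (hcomm1 r)) (by push_cast; ring))
  have hcsum : c = ∑ m ∈ range n, (L ^ (m + 1) * (w m - Phi ^ (m + 1)) -
      (w m - Phi ^ (m + 1)) * L ^ (m + 1)) := by
    rw [hc, ← hwt, hh', ← Finset.sum_sub_distrib]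
    apply Finset.sum_congr rfl
    intro m _
    noncomm_ring
  refine ⟨c, ?_, hchom, ?_⟩
  · rw [hc, add_sub_cancel]; exact hh'R
  · apply isNilpotent_of_trace_pow
    intro r
    rw [pow_succ']
    nth_rewrite 1 [hcsum]
    rw [Finset.sum_mul, map_sum]
    apply Finset.sum_eq_zero
    intro m _
    set v := w m - Phi ^ (m + 1) with hv
    have hvK : v ∈ KS R (-(m + 1 : ℤ)) := Submodule.sub_mem _ (Submodule.subset_span (hwR m)) (hpow m)
    have h1 := (hcomm r m).2 v hvK
    rw [sub_mul, map_sub, sub_eq_zero] at h1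
    rw [sub_mul, map_sub, sub_eq_zero, mul_assoc, LinearMap.trace_mul_comm, mul_assoc,
      LinearMap.trace_mul_comm, h1, LinearMap.trace_mul_comm, ← mul_assoc]

end OpAlg

end Pool.Agent.H914
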