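import Pool.Agent.H89.L.H914R2_StdDefs

/-!
# Algebraic inverses of the Lefschetz isomorphisms: definitions
-/

open CategoryTheory AlgebraicGeometry

universe u v

namespace Pool.Agent.W537

section Alg

variable {K : Type*} [Field K] {V : Type*} [AddCommGroup V] [Module K V]

/-- The trace of the operator `T` on the graded piece `gr i` is `t`; here `T` is an operator of
degree zero, and its trace on `gr i` is the trace of `T ∘ P`, where `P` is the projector onto
`gr i`. -/
def TraceOn (gr : ℕ → Submodule K V) (i : ℕ) (T : Module.End K V) (t : K) : Prop :=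
  ∀ P : Module.End K V, Pool.Agent.H914.IsProjector gr i P → LinearMap.trace K V (T * P) = t

/-- For every `r ≥ 0` the trace of `T ^ r` on the graded piece `gr i` is `b`. -/
def PowerTraces (gr : ℕ → Submodule K V) (i : ℕ) (T : Module.End K V) (b : K) : Prop :=
  ∀ r : ℕ, TraceOn gr i (T ^ r) b

/-- The operators `L : gr i → gr j` and `T : gr j → gr i` are inverse to each other. -/
def InverseOn (gr : ℕ → Submodule K V) (i j : ℕ) (L T : V →ₗ[K] V) : Prop :=
  (∀ a ∈ gr i, T (L a) = a) ∧ ∀ b ∈ gr j, L (T b) = b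

/-- The operator `T` is zero on all graded pieces except `gr j`. -/
def SupportedIn (gr : ℕ → Submodule K V) (j : ℕ) (T : V →ₗ[K] V) : Prop :=
  ∀ l, l ≠ j → ∀ a ∈ gr l, T a = 0

end Alg

open Pool.Agent.H914 VarClass Obj WeilCohomology

variable {k : Type u} [Field k] {𝒱 : VarClass k} {ops : CycleOps 𝒱}

/-- The cup product with `ξ ^ m`, where `ξ` is the class of `D`. -/
noncomputable def lefPow (W : WeilCohomology.{u, v} ops) (X : 𝒱.Obj) (D : X.Cycles) (m : ℕ) :
    W.H X →ₗ[W.K] W.H X :=
  LinearMap.mulLeft W.K (W.cl X D ^ m)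

/-- The action of the cycle `z` on `X × X` on the cohomology of `X`. -/
noncomputable def cycOp (W : WeilCohomology.{u, v} ops) (X : 𝒱.Obj) (z : (X.prod X).Cycles) :
    W.H X →ₗ[W.K] W.H X :=
  W.corr (W.cl (X.prod X) z)

/-- The cycle `z` of codimension `i` on `X × X` induces the inverse of the map
`ξ ^ (n - i) : H^i(X) → H^(2n - i)(X)`, where `n = dim X` and `ξ` is the class of `D`; in
particular this map is bijective. -/
def InvertsLefschetz (W : WeilCohomology.{u, v} ops) (X : 𝒱.Obj) (D : X.Cycles) (i : ℕ)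
    (z : (X.prod X).Cycles) : Prop :=
  (X.prod X).IsCyc i z ∧
    InverseOn (W.gr X) i (2 * X.dim - i) (lefPow W X D (X.dim - i)) (cycOp W X z)

/-- The cycle `z` of codimension `i` on `X × X` induces the inverse of the map
`ξ ^ (n - i) : H^i(X) → H^(2n - i)(X)` and acts as zero on `H^j(X)` for all `j ≠ 2n - i`. -/
def InducesInverse (W : WeilCohomology.{u, v} ops) (X : 𝒱.Obj) (D : X.Cycles) (i : ℕ)
    (z : (X.prod X).Cycles) : Prop :=
  InvertsLefschetz W X D i z ∧ SupportedIn (W.gr X) (2 * X.dim - i) (cycOp W X z)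

/-- For every `r ≥ 0` the trace on `H^i(X)` of the power `r` of the correspondence of degree zero
`z ∘ ξ ^ (n - i)` is the natural number `b`, where `n = dim X`, `ξ` is the class of `D` and `z` is a
cycle of codimension `i` on `X × X`. -/
def ConstantTraces (W : WeilCohomology.{u, v} ops) (X : 𝒱.Obj) (D : X.Cycles) (i : ℕ)
    (z : (X.prod X).Cycles) (b : ℕ) : Prop :=
  PowerTraces (W.gr X) i (cycOp W X z ∘ₗ lefPow W X D (X.dim - i)) (b : W.K)

end Pool.Agent.W537
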