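import Pool.Agent.H89.L.W5h93_EU_Main

/-!
# The schemes of finite type over a field are finite-dimensional
-/

set_option autoImplicit false

open CategoryTheory AlgebraicGeometry Pool.Agent.Y116.UV Pool.Agent.Z125.UN Topology
  TopologicalSpace Pool.Agent.H914

namespace Pool.Agent.W5h93.EU

section top

/-- The dimension is local. -/
lemma dim_le_of_cover {X : Type} [TopologicalSpace X] {n : ℕ}
    (h : ∀ x : X, ∃ V : Set X, IsOpen V ∧ x ∈ V ∧ topologicalKrullDim V ≤ n) :
    topologicalKrullDim X ≤ n := by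
  refine iSup_le fun p => ?_
  obtain ⟨x, hx⟩ := (p.head : IrreducibleCloseds X).isIrreducible.nonempty
  obtain ⟨V, hV, hxV, hd⟩ := h x
  let e := IrreducibleCloseds.orderIsoOfIsOpenEmbedding (Subtype.val : V → X)
    hV.isOpenEmbedding_subtypeVal
  have hm : ∀ i, (p i : IrreducibleCloseds X) ∈
      {W : IrreducibleCloseds X | ((Subtype.val : V → X) ⁻¹' W).Nonempty} := by
    intro i
    have h1 : p.head ≤ p i := p.monotone (Fin.zero_le i)
    exact ⟨⟨x, hxV⟩, h1 hx⟩
  let q : LTSeries (IrreducibleCloseds V) :=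
    { length := p.length
      toFun := fun i => e.symm ⟨p i, hm i⟩
      step := fun i => e.symm.strictMono (show (⟨p _, hm _⟩ : {W : IrreducibleCloseds X |
        ((Subtype.val : V → X) ⁻¹' W).Nonempty}) < ⟨p _, hm _⟩ from p.step i) }
  exact (Order.LTSeries.length_le_krullDim q).trans hd

end top

section

variable {k : Type} [Field k]

lemma ringDim_finite (A : Type) [CommRing A] [Algebra k A] [h : Algebra.FiniteType k A] :
    ∃ n : ℕ, ringKrullDim A ≤ n := by
  obtain ⟨n, f, hf⟩ := Algebra.FiniteType.iff_quotient_mvPolynomial''.mp h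
  refine ⟨n, (ringKrullDim_le_of_surjective (f : MvPolynomial (Fin n) k →+* A) hf).trans ?_⟩
  rw [MvPolynomial.ringKrullDim_of_isNoetherianRing, ringKrullDim_eq_zero_of_field, zero_add,
    Nat.card_eq_fintype_card, Fintype.card_fin]

/-- The schemes of finite type over `k` are finite-dimensional. -/
theorem dim_finite (X : Sch k) (hX : FT True X) : ∃ n : ℕ, topologicalKrullDim X.left ≤ n := by
  have hc : CompactSpace X.left := (quasiCompact_iff_compactSpace X.hom).mp hX.quasiCompact
  have h1 : ∀ x : X.left, ∃ (V : Set X.left) (n : ℕ), IsOpen V ∧ x ∈ V ∧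
      topologicalKrullDim V ≤ n := by
    intro x
    obtain ⟨V, hV, hxV, -⟩ := (X.left.isBasis_affineOpens).exists_subset_of_mem_open
      (Set.mem_univ x) isOpen_univ
    obtain ⟨V', hV', rfl⟩ := hV
    have h2 := hX.locallyOfFiniteType
    have h3 : LocallyOfFiniteType (opn X V').hom := by
      change LocallyOfFiniteType (Scheme.Opens.ι (X := X.left) V' ≫ X.hom)
      infer_instance
    have h4 : IsAffine (opn X V').left := hV'
    obtain ⟨A, _, _, _, ⟨e⟩⟩ := exists_aff (opn X V') h3
    obtain ⟨n, hn⟩ := ringDim_finite (k := k) A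
    refine ⟨V', n, V'.2, hxV, ?_⟩
    rw [← topDim_aff (k := k)] at hn
    let e' := (Over.forget _).mapIso e
    exact ((Scheme.homeoOfIso e').symm.isInducing.topologicalKrullDim_le).trans hn
  choose V n hVo hxV hn using h1
  obtain ⟨t, ht⟩ := isCompact_univ.elim_nhds_subcover V
    (fun x _ => (hVo x).mem_nhds (hxV x))
  refine ⟨t.sup n, dim_le_of_cover fun x => ?_⟩
  obtain ⟨y, hy, hxy⟩ := Set.mem_iUnion₂.mp (ht.2 (Set.mem_univ x))
  refine ⟨V y, hVo y, hxy, (hn y).trans ?_⟩
  exact_mod_cast Finset.le_sup (f := n) hy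

/-- every variety has finite dimension -/
lemma dimLE_finite (X : SmVar k) : ∃ n : ℕ, DimLE X n := by
  obtain ⟨n, hn⟩ := dim_finite (sch X) (ft_sch X)
  refine ⟨max X.dim n, le_max_left _ _, le_trans hn ?_⟩
  exact_mod_cast le_max_right X.dim n

lemma DimLE.mono {X : SmVar k} {m n : ℕ} (h : DimLE X m) (hm : m ≤ n) : DimLE X n :=
  ⟨h.1.trans hm, h.2.trans (by exact_mod_cast hm)⟩

end

end Pool.Agent.W5h93.EU
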