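import Pool.Agent.H89.L.W5h93_EU_JouB

/-!
# Additive invariants of products
-/

set_option autoImplicit false

open CategoryTheory CategoryTheory.Limits AlgebraicGeometry Pool.Agent.Y116.UV

namespace Pool.Agent.W5h93.EU

set_option maxHeartbeats 400000

section

variable {k : Type} [Field k]

lemma ft_open {X U : Sch k} (hX : FT True X) (j : U ⟶ X) (hj : IsOpenImmersion j.left) :
    FT True U where
  locallyOfFiniteType := by
    have h := hX.locallyOfFiniteType
    rw [← Over.w j]
    infer_instance
  quasiCompact := by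
    have h := hX.locallyOfFiniteType
    have h1 := hX.quasiCompact
    have h2 : IsLocallyNoetherian X.left := LocallyOfFiniteType.isLocallyNoetherian X.hom
    rw [← Over.w j]
    infer_instance
  separated _ := by
    have h := hX.separated trivial
    rw [← Over.w j]
    infer_instance

lemma ft_closed {X Z : Sch k} (hX : FT True X) (i : Z ⟶ X) (hi : IsClosedImmersion i.left) :
    FT True Z where
  locallyOfFiniteType := by
    have h := hX.locallyOfFiniteType
    rw [← Over.w i]
    infer_instance
  quasiCompact := by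
    have h := hX.quasiCompact
    rw [← Over.w i]
    infer_instance
  separated _ := by
    have h := hX.separated trivial
    rw [← Over.w i]
    infer_instance

/-- As `IsEuler`, without the condition on the point. -/
structure PreEuler (δ : Sch k → ℤ → ℤ) : Prop where
  iso : ∀ {X Y : Sch k}, FT True X → Nonempty (X ≅ Y) → δ X = δ Y
  additive : ∀ {Z X U : Sch k} (i : Z ⟶ X) (j : U ⟶ X), FT True X → IsTriple i j →
    ∀ c, δ X c = δ Z c + δ U c
  bundle : ∀ (A : Type) [CommRing A] [Algebra k A] [Algebra.FiniteType k A] (m : ℕ)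
    (f : Fin m → A) (U : Sch k), IsComplement f U → ∀ c, δ (aff k (Jou f)) c = δ U (c - (m - 1))
  bounded : ∀ X : Sch k, FT True X → ∃ b : ℤ, ∀ c, c < b → δ X c = 0

variable {δ : Sch k → ℤ → ℤ}

lemma IsEuler.pre (h : IsEuler δ) : PreEuler δ where
  iso := h.iso
  additive := h.additive
  bundle := h.bundle
  bounded := h.bounded

lemma PreEuler.euler (h : PreEuler δ) (h0 : ∀ c, δ (aff k k) c = 0) : IsEuler δ where
  iso := h.iso
  additive := h.additive
  bundle := h.bundle
  bounded := h.bounded
  point := h0

lemma ft_point : FT True (aff k k) := ft_aff True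

/-- the product with the point -/
lemma prPoint (Y : Sch k) : Nonempty (pr (aff k k) Y ≅ Y) := by
  have h1 : IsIso (aff k k).hom := by
    change IsIso (Spec.map (CommRingCat.ofHom (algebraMap k k)))
    have : CommRingCat.ofHom (algebraMap k k) = 𝟙 (CommRingCat.of k) := rfl
    rw [this]
    infer_instance
  have h2 : IsIso (pullback.snd (aff k k).hom Y.hom) :=
    MorphismProperty.pullback_snd (P := MorphismProperty.isomorphisms Scheme) _ _ h1
  let e : pullback (aff k k).hom Y.hom ≅ Y.left := @asIso _ _ _ _ _ h2
  exact ⟨Over.isoMk e pullback.condition.symm⟩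

open TensorProduct in
lemma complement_pr {A : Type} [CommRing A] [Algebra k A] {m : ℕ} {f : Fin m → A} {U : Sch k}
    (h : IsComplement f U) (B : Type) [CommRing B] [Algebra k B] :
    IsComplement (fun l => f l ⊗ₜ[k] (1 : B)) (pr U (aff k B)) := by
  obtain ⟨j, hj, hr⟩ := h
  let φ : pullback (aff k A).hom (aff k B).hom ≅ Spec (CommRingCat.of (A ⊗[k] B)) :=
    pullbackSpecIso k A B
  have hφ : (prAff (k := k) A B).hom.left = φ.hom := rfl
  have hr' : ∀ a : (aff k A).left, a ∈ Set.range j.left ↔
      ∃ l, f l ∉ (show PrimeSpectrum A from a).asIdeal := fun a => by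
    rw [hr]
    rfl
  have h1 : ∀ y : (pullback (aff k A).hom (aff k B).hom : Scheme),
      y ∈ Set.range (prL j (aff k B)) ↔
        ∃ l, f l ⊗ₜ[k] (1 : B) ∉ (show PrimeSpectrum (A ⊗[k] B) from φ.hom y).asIdeal := by
    intro y
    have h3 := range_of_pullback (prL_pullback j (aff k B))
    have h2 : pullback.fst (aff k A).hom (aff k B).hom =
        φ.hom ≫ Spec.map (CommRingCat.ofHom
          (Algebra.TensorProduct.includeLeftRingHom (R := k) (A := A) (B := B))) :=
      (pullbackSpecIso_hom_fst k A B).symm
    rw [h3, Set.mem_preimage]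
    refine (hr' _).trans ?_
    rw [h2]
    rfl
  have hj' : IsOpenImmersion (prMap j (aff k B)).left := prMap_open j _ hj
  have ho : IsOpenImmersion ((prMap j (aff k B)).left ≫ (prAff (k := k) A B).hom.left) := by
    have : IsIso (prAff (k := k) A B).hom.left := inferInstance
    infer_instance
  refine ⟨prMap j (aff k B) ≫ (prAff (k := k) A B).hom, ?_, ?_⟩
  · rw [Over.comp_left]
    exact ho
  · refine Set.ext fun x => ⟨?_, ?_⟩
    · rintro ⟨z, rfl⟩
      exact (h1 _).mp ⟨z, rfl⟩
    · intro hx
      have hs : Function.Surjective φ.hom := φ.hom.surjective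
      obtain ⟨y, rfl⟩ := hs x
      obtain ⟨z, rfl⟩ := (h1 y).mpr hx
      exact ⟨z, rfl⟩

/-- The invariant of the products with `Y`. -/
theorem PreEuler.prod (h : PreEuler δ) {Y : Sch k} (hY : FT True Y) :
    PreEuler fun X => δ (pr X Y) where
  iso hX e := h.iso (ft_pr hX hY) (prIso e Y)
  additive i j hX ht := h.additive _ _ (ft_pr hX hY) (prMap_triple ht Y)
  bounded X hX := h.bounded _ (ft_pr hX hY)
  bundle A _ _ _ m f U hU := by
    have hJ : Algebra.FiniteType k (Jou f) :=
      Algebra.FiniteType.trans (S := A) inferInstance inferInstance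
    have hU' : FT True U := by
      obtain ⟨j, hj, -⟩ := hU
      exact ft_open (ft_aff True) j hj
    have hsymm : ∀ {X Y : Sch k}, FT True X → FT True Y → δ (pr X Y) = δ (pr Y X) :=
      fun hX hY => h.iso (ft_pr hX hY) (prSymm _ _)
    refine of_affine' (P := fun Y => FT True Y → ∀ c, δ (pr (aff k (Jou f)) Y) c =
      δ (pr U Y) (c - (m - 1))) (sep := True) ?_ ?_ ?_ Y hY hY
    · intro X X' hX e hPX hX' c
      have h1 : ∀ {V : Sch k}, FT True V → δ (pr V X) = δ (pr V X') := by
        intro V hV
        rw [hsymm hV hX, hsymm hV hX', h.iso (ft_pr hX hV) (prIso e V)]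
      rw [← h1 (ft_aff True), ← h1 hU']
      exact hPX hX c
    · intro Z X V i j hX ht hZ hV _ c
      have hZ' : FT True Z := ft_closed hX i ht.closed
      have hV' : FT True V := ft_open hX j ht.opened
      have h1 : ∀ {V' : Sch k}, FT True V' → ∀ c, δ (pr V' X) c = δ (pr V' Z) c + δ (pr V' V) c := by
        intro V' hV1 c
        rw [hsymm hV1 hX, hsymm hV1 hZ', hsymm hV1 hV',
          h.additive _ _ (ft_pr hX hV1) (prMap_triple ht V')]
      rw [h1 (ft_aff True), h1 hU', hZ hZ', hV hV']
    · intro B _ _ _ _ c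
      obtain ⟨e⟩ := jouTensor (k := k) f B
      have e1 : δ (pr (aff k (Jou f)) (aff k B)) = δ (aff k (Jou fun l => f l ⊗ₜ[k] (1 : B))) := by
        refine h.iso (ft_pr (ft_aff True) (ft_aff True)) ⟨prAff _ _ ≪≫ (affIso e).symm⟩
      rw [e1]
      have : Algebra.FiniteType k (TensorProduct k A B) :=
        Algebra.FiniteType.trans (S := A) inferInstance inferInstance
      exact h.bundle _ m _ _ (complement_pr hU B) c

end

end Pool.Agent.W5h93.EU
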