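import Pool.Agent.H89.L.Z125_UN_Dim

/-!
# Properties of affine schemes that are closed under closed-open decompositions
-/

set_option autoImplicit false

open CategoryTheory AlgebraicGeometry MvPolynomial Pool.Agent.Y116.UV Pool.Agent.Z125.UN

namespace Pool.Agent.W5h68.SP

/-- The property `Q` of algebras of finite type over `k` is closed under closed-open decompositions
of the spectrum, it is invariant under isomorphisms, and it is true for the zero algebra, for `k` and for
polynomial rings over algebras with the property. -/
structure Cl (k : Type) [Field k] (Q : (A : Type) → [CommRing A] → [Algebra k A] → Prop) :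
    Prop where
  iso : ∀ {A B : Type} [CommRing A] [Algebra k A] [CommRing B] [Algebra k B]
    [Algebra.FiniteType k A], (A ≃ₐ[k] B) → Q A → Q B
  total : ∀ {A : Type} [CommRing A] [Algebra k A] [Algebra.FiniteType k A] (f : A),
    Q (A ⧸ Ideal.span {f}) → Q (Localization.Away f) → Q A
  opened : ∀ {A : Type} [CommRing A] [Algebra k A] [Algebra.FiniteType k A] (f : A),
    Q (A ⧸ Ideal.span {f}) → Q A → Q (Localization.Away f)
  closed : ∀ {A : Type} [CommRing A] [Algebra k A] [Algebra.FiniteType k A] (f : A),
    Q A → Q (Localization.Away f) → Q (A ⧸ Ideal.span {f})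
  poly : ∀ {A : Type} [CommRing A] [Algebra k A] [Algebra.FiniteType k A], Q A → Q (Polynomial A)
  zero : ∀ {A : Type} [CommRing A] [Algebra k A], Subsingleton A → Q A
  base : Q k

section bnd

variable {k : Type} [Field k] {sep : Prop} {P : Sch k → Prop}

/-- the closure properties for affine schemes -/
lemma Cl.of_bnd (hP : Bnd sep P) : Cl k fun A => P (aff k A) where
  iso e h := iso_alg hP.toUni e h
  total f h1 h2 := hP.total _ _ (ft_aff sep) (triple_away f) h1 h2
  opened f h1 h2 :=
    hP.opened _ _ (ft_aff sep) (triple_away f) h1 h2
  closed f h1 h2 := hP.closed _ _ (ft_aff sep) (triple_away f) h1 h2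
  poly {A} _ _ _ h := by
    have : Algebra.FiniteType k (MvPolynomial Unit A) :=
      Algebra.FiniteType.trans (S := A) inferInstance inferInstance
    exact iso_alg hP.toUni ((uniqueAlgEquiv A Unit).restrictScalars k) (p_poly hP Unit h)
  zero {A} _ _ h := p_empty hP A h
  base := by
    have h := hP.space 0
    exact iso_alg hP.toUni (isEmptyAlgEquiv k (Fin 0)) h

end bnd

section

variable {k : Type} [Field k] {Q : (A : Type) → [CommRing A] → [Algebra k A] → Prop}
  (hQ : Cl k Q)

include hQ

/-- `X × 𝔾_m` -/
lemma cl_laurent {A : Type} [CommRing A] [Algebra k A] [Algebra.FiniteType k A] (h : Q A) :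
    Q (LaurentPolynomial A) := by
  have h1 : Q (Polynomial A) := hQ.poly h
  have : Algebra.FiniteType k (Polynomial A) :=
    Algebra.FiniteType.trans (S := A) inferInstance inferInstance
  have : Algebra.FiniteType k (Localization.Away (Polynomial.X : Polynomial A)) :=
    Algebra.FiniteType.trans (S := Polynomial A) inferInstance inferInstance
  have e : (Polynomial A ⧸ Ideal.span {(Polynomial.X : Polynomial A)}) ≃ₐ[k] A := by
    have e1 := Polynomial.quotientSpanXSubCAlgEquiv (0 : A)
    rw [map_zero, sub_zero] at e1
    exact e1.restrictScalars k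
  have h2 : Q (Localization.Away (Polynomial.X : Polynomial A)) :=
    hQ.opened _ (hQ.iso e.symm h) h1
  let e2 : Localization.Away (Polynomial.X : Polynomial A) ≃ₐ[Polynomial A] LaurentPolynomial A :=
    IsLocalization.algEquiv (Submonoid.powers (Polynomial.X : Polynomial A)) _ _
  let e3 : Localization.Away (Polynomial.X : Polynomial A) ≃ₐ[k] LaurentPolynomial A :=
    AlgEquiv.ofRingEquiv (f := e2.toRingEquiv) (by
      intro r
      change e2 (algebraMap k (Localization.Away (Polynomial.X : Polynomial A)) r) = _
      rw [IsScalarTower.algebraMap_apply k (Polynomial A)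
        (Localization.Away (Polynomial.X : Polynomial A)), e2.commutes]
      rw [IsScalarTower.algebraMap_apply k A (Polynomial A), LaurentPolynomial.algebraMap_eq_toLaurent]
      change Polynomial.toLaurent (Polynomial.C (algebraMap k A r)) = _
      rw [Polynomial.toLaurent_C]
      rfl)
  exact hQ.iso e3 h2

/-- the property depends only on the reduced structure -/
lemma cl_nil {A : Type} [CommRing A] [Algebra k A] [Algebra.FiniteType k A] (f : A)
    (hf : IsNilpotent f) : Q (A ⧸ Ideal.span {f}) ↔ Q A := by
  have h0 : Subsingleton (Localization.Away f) := by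
    obtain ⟨n, hn⟩ := hf
    have hu := IsLocalization.map_units (M := Submonoid.powers f) (Localization.Away f)
      ⟨f ^ n, n, rfl⟩
    rw [show ((⟨f ^ n, n, rfl⟩ : Submonoid.powers f) : A) = 0 from hn, map_zero] at hu
    exact subsingleton_of_zero_eq_one (isUnit_zero_iff.mp hu)
  exact ⟨fun h => hQ.total f h (hQ.zero h0), fun h => hQ.closed f h (hQ.zero h0)⟩

end

end Pool.Agent.W5h68.SP
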