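import Pool.Agent.H89.L.Y116_UV_Geo

/-!
# Affine spaces as bundles of Jouanolou
-/

set_option autoImplicit false

open CategoryTheory AlgebraicGeometry MvPolynomial

namespace Pool.Agent.Y116.UV

variable {R : Type} [CommRing R]

/-- the functions `1, 0, …, 0` -/
def f1 (R : Type) [CommRing R] (n : ℕ) : Fin (n + 1) → R := Fin.cons 1 fun _ => 0

lemma f1_zero (n : ℕ) : f1 R n 0 = 1 := rfl

lemma f1_succ (n : ℕ) (i : Fin n) : f1 R n i.succ = 0 := rfl

lemma sum_f1 (n : ℕ) : (∑ l, C (f1 R n l) * X l : MvPolynomial (Fin (n + 1)) R) = X 0 := by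
  rw [Fin.sum_univ_succ, f1_zero, map_one, one_mul]
  simp only [f1_succ, map_zero, zero_mul, Finset.sum_const_zero, add_zero]

/-- to the polynomial ring -/
noncomputable def jf (R : Type) [CommRing R] (n : ℕ) : Jou (f1 R n) →ₐ[R] MvPolynomial (Fin n) R :=
  Ideal.Quotient.liftₐ _ (aeval (Fin.cons 1 X : Fin (n + 1) → MvPolynomial (Fin n) R)) (by
    intro a ha
    have h : Ideal.span {∑ l, C (f1 R n l) * X l - 1} ≤
        RingHom.ker (aeval (Fin.cons 1 X : Fin (n + 1) → MvPolynomial (Fin n) R) :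
          MvPolynomial (Fin (n + 1)) R →ₐ[R] _) := by
      rw [Ideal.span_le, Set.singleton_subset_iff, sum_f1]
      change aeval _ (X 0 - 1) = 0
      rw [map_sub, aeval_X, map_one, Fin.cons_zero, sub_self]
    exact h ha)

lemma jf_mk (n : ℕ) (i : Fin (n + 1)) : jf R n (Ideal.Quotient.mk _ (X i)) =
    (Fin.cons 1 X : Fin (n + 1) → MvPolynomial (Fin n) R) i := by
  change aeval _ (X i) = _
  rw [aeval_X]

/-- from the polynomial ring -/
noncomputable def jg (R : Type) [CommRing R] (n : ℕ) : MvPolynomial (Fin n) R →ₐ[R] Jou (f1 R n) :=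
  aeval fun i => Ideal.Quotient.mk _ (X i.succ)

lemma jg_X (n : ℕ) (i : Fin n) : jg R n (X i) = Ideal.Quotient.mk _ (X i.succ) := by
  rw [jg, aeval_X]

/-- `Jou (1, 0, …, 0)` is a polynomial ring. -/
noncomputable def jouOne (R : Type) [CommRing R] (n : ℕ) :
    Jou (f1 R n) ≃ₐ[R] MvPolynomial (Fin n) R :=
  AlgEquiv.ofAlgHom (jf R n) (jg R n)
    (by
      apply MvPolynomial.algHom_ext
      intro i
      rw [AlgHom.comp_apply, jg_X, jf_mk, Fin.cons_succ]
      rfl)
    (by
      apply Ideal.Quotient.algHom_ext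
      apply MvPolynomial.algHom_ext
      intro i
      change jg R n (jf R n (Ideal.Quotient.mk _ (X i))) = Ideal.Quotient.mk _ (X i)
      rw [jf_mk]
      refine Fin.cases ?_ (fun i => ?_) i
      · rw [Fin.cons_zero, map_one]
        have h : (X 0 - 1 : MvPolynomial (Fin (n + 1)) R) ∈
            Ideal.span {∑ l, C (f1 R n l) * X l - 1} := by
          rw [sum_f1]
          exact Ideal.mem_span_singleton_self _
        have h2 := Ideal.Quotient.eq_zero_iff_mem.mpr h
        rw [map_sub, map_one, sub_eq_zero] at h2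
        exact h2.symm
      · rw [Fin.cons_succ, jg_X])

lemma range_id (n : ℕ) : Set.range (𝟙 (aff R R) : aff R R ⟶ aff R R).left =
    {x : PrimeSpectrum R | ∃ l, f1 R n l ∉ x.asIdeal} := by
  have h1 : Set.range (𝟙 (aff R R) : aff R R ⟶ aff R R).left = Set.univ := Set.range_id
  have h2 : {x : PrimeSpectrum R | ∃ l, f1 R n l ∉ x.asIdeal} = Set.univ := by
    rw [Set.eq_univ_iff_forall]
    intro x
    exact ⟨0, fun h => x.isPrime.ne_top ((Ideal.eq_top_iff_one _).mpr h)⟩
  exact h1.trans h2.symm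

instance : IsOpenImmersion (𝟙 (aff R R) : aff R R ⟶ aff R R).left :=
  inferInstanceAs (IsOpenImmersion (𝟙 (aff R R).left))

end Pool.Agent.Y116.UV
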