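import Pool.Agent.H89.L.H447R3_AoA

/-!
# The lowering operator from the surjectivity in one degree
-/

open Polynomial Finset

namespace Pool.Agent.H447

open Pool.Agent.H914

variable {K : Type*} [Field K] [CharZero K] {V : Type*} [AddCommGroup V] [Module K V]
variable {gr : ℕ → Submodule K V} {n : ℕ} {L : Module.End K V}
  {R : ℤ → Module.End K V → Prop}

lemma ev_eigen {F : Module.End K V} {v : V} {μ : K} (hv : F v = μ • v) (p : ℚ[X]) :
    ev F p v = ((p.map (algebraMap ℚ K)).eval μ) • v := by
  have hpow : ∀ k : ℕ, (F ^ k) v = μ ^ k • v := by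
    intro k
    induction k with
    | zero => simp
    | succ k ih => rw [pow_succ', Module.End.mul_apply, ih, map_smul, hv, smul_smul, pow_succ]
  induction p using Polynomial.induction_on' with
  | add p q hp hq =>
    rw [map_add, LinearMap.add_apply, hp, hq, Polynomial.map_add, eval_add, add_smul]
  | monomial k r =>
    rw [← C_mul_X_pow_eq_monomial, map_mul, map_pow, ev_C, ev_X, smul_mul_assoc, one_mul,
      LinearMap.smul_apply, hpow, smul_smul]
    simp

/-- The numbers describing the solution of `E ^ 2 z = 4 L`. -/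
def gam (K : Type*) [Field K] (m : ℕ) : K := (1 + (-1) ^ m) / ((m : K) + 1)

/-- The numbers describing the solution of `E ^ 2 z = 4 L`. -/
def zc (K : Type*) [Field K] (m j : ℕ) : K := 1 - (-1) ^ j + (-1) ^ j * j * gam K m

omit [CharZero K] in
lemma zc_zero (m : ℕ) : zc K m 0 = 0 := by simp [zc]

lemma zc_last (m : ℕ) : zc K m (m + 1) = 0 := by
  have h1 : (m : K) + 1 ≠ 0 := Nat.cast_add_one_ne_zero m
  have h2 : ((-1 : K) ^ m) * (-1) ^ m = 1 := by
    rw [← pow_add]; exact Even.neg_one_pow ⟨m, rfl⟩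
  rw [zc, gam, pow_succ]
  push_cast
  field_simp
  linear_combination (-1 : K) * h2

omit [CharZero K] in
lemma zc_add (m j : ℕ) : zc K m j + zc K m (j + 1) = 2 - (-1) ^ j * gam K m := by
  rw [zc, zc, pow_succ]; push_cast; ring

omit [CharZero K] in
lemma zc_sub {m : ℕ} (hm : gam K m = 0) (j : ℕ) :
    zc K m j - zc K m (j + 1) = -2 * (-1) ^ j := by
  rw [zc, zc, hm, pow_succ]; ring

omit [CharZero K] in
lemma zc_four (m j : ℕ) : zc K m j + 2 * zc K m (j + 1) + zc K m (j + 2) = 4 := by
  have h1 := zc_add (K := K) m j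
  have h2 := zc_add (K := K) m (j + 1)
  rw [pow_succ] at h2
  linear_combination h1 + h2

/-- **The lowering operator from the surjectivity in one degree.** -/
theorem lower_mem_of_surj [Module.Finite K V] (hR : OpAlg gr R) (h : DirectSum.IsInternal gr)
    (hbd : ∀ i, 2 * n + 1 ≤ i → gr i = ⊥) (hL : R 1 L) (hHL : HardLef gr n L)
    {f : Module.End K V} (t : Sl2 (wt h n) L f) (hf : IsHom gr (-2) f)
    (hsurj : ∀ y, R 1 y → ∃ z, R (-1) z ∧ (dbl L ^ 2) z = y) : R (-1) f := by
  have hLh : IsHom gr 2 L := by simpa using hR.hom hL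
  -- products with operators anticommuting with `L`
  have hfg : ∀ g, R 0 g → g * L = -(L * g) → R (-1) (f * g) := by
    intro g hg hgL
    obtain ⟨w, hw, hw2⟩ := hsurj (((-2 : ℚ) : K) • (L * g))
      (hR.smul _ (hR.cast (hR.mul hL hg) (by ring)))
    have h1 : (dbl L ^ 2) (f * g) = ((-2 : ℚ) : K) • (L * g) := by
      rw [pow_two, Module.End.mul_apply, dbl_apply, dbl_apply]
      have e1 : L * (f * g) + f * g * L = wt h n * g := by
        rw [mul_assoc f, hgL, ← t.ef]; noncomm_ring
      rw [e1]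
      have e2 : L * (wt h n * g) + wt h n * g * L = -((wt h n * L - L * wt h n) * g) := by
        rw [mul_assoc (wt h n) g, hgL]; noncomm_ring
      rw [e2, t.he]
      push_cast
      rw [neg_smul, two_smul, two_mul, add_mul]
    have h2 : w = f * g := by
      refine sub_eq_zero.1 (dbl_inj h t (x := w - f * g) (IsHom.sub ?_ ?_) ?_)
      · simpa using hR.hom hw
      · have h3 := hR.hom hg
        have h4 := hf.mul h3
        simpa using h4
      · rw [map_sub, hw2, h1, sub_self]
    rw [← h2]; exact hw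
  -- the solution of `E ^ 2 z = 4 L`
  obtain ⟨T, hTh, hT⟩ := exists_string_op h hLh hbd hHL (fun i j => zc K (n - i) j)
    (fun i => zc_zero _) (fun i _ => zc_last _)
  have hLT : ∀ i ≤ n, ∀ a ∈ gr i, (L ^ (n - i + 1)) a = 0 → ∀ j,
      (L * T) ((L ^ j) a) = zc K (n - i) j • (L ^ j) a := by
    intro i hi a ha hp j
    rw [Module.End.mul_apply, hT i hi a ha hp, map_smul]
    rcases Nat.eq_zero_or_pos j with rfl | hj
    · rw [zc_zero, zero_smul, zero_smul]
    · rw [← Module.End.mul_apply L, ← pow_succ', show j - 1 + 1 = j by omega]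
  have hTL : ∀ i ≤ n, ∀ a ∈ gr i, (L ^ (n - i + 1)) a = 0 → ∀ j,
      (T * L) ((L ^ j) a) = zc K (n - i) (j + 1) • (L ^ j) a := by
    intro i hi a ha hp j
    rw [Module.End.mul_apply, ← Module.End.mul_apply L, ← pow_succ', hT i hi a ha hp,
      Nat.add_sub_cancel]
  have hT4 : (dbl L ^ 2) T = ((4 : ℚ) : K) • L := by
    rw [pow_two, Module.End.mul_apply, dbl_apply, dbl_apply]
    apply LinearMap.ext
    intro x
    refine lef_induction' h hLh hbd hHL (p := fun x => (L * (L * T + T * L) +
      (L * T + T * L) * L) x = (((4 : ℚ) : K) • L) x) ?_ ?_ x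
    · intro a b ha hb; rw [map_add, map_add, ha, hb]
    · intro i hi a ha hp j
      have hLj : L ((L ^ j) a) = (L ^ (j + 1)) a := by rw [pow_succ', Module.End.mul_apply]
      rw [LinearMap.add_apply, Module.End.mul_apply L, Module.End.mul_apply _ L, hLj,
        LinearMap.add_apply, LinearMap.add_apply, hLT i hi a ha hp, hTL i hi a ha hp,
        hLT i hi a ha hp, hTL i hi a ha hp, map_add, map_smul, map_smul, LinearMap.smul_apply,
        hLj, ← add_smul, ← add_smul, ← add_smul]
      congr 1
      have := zc_four (K := K) (n - i) j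
      push_cast
      linear_combination this
  have hTR : R (-1) T := by
    obtain ⟨w, hw, hw2⟩ := hsurj (((4 : ℚ) : K) • L) (hR.smul _ hL)
    have h2 : w = T := by
      refine sub_eq_zero.1 (dbl_inj h t (x := w - T) (IsHom.sub ?_ hTh) ?_)
      · simpa using hR.hom hw
      · rw [map_sub, hw2, hT4, sub_self]
    rw [← h2]; exact hw
  have hLTR : R 0 (L * T) := hR.cast (hR.mul hL hTR) (by ring)
  have hTLR : R 0 (T * L) := hR.cast (hR.mul hTR hL) (by ring)
  -- the operator `g₀`
  set g₀ : Module.End K V := ((2 : ℚ) : K) • 1 - (L * T + T * L) with hg₀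
  have hg₀R : R 0 g₀ := hR.sub (hR.smul _ hR.one) (hR.add hLTR hTLR)
  have hg₀v : ∀ i ≤ n, ∀ a ∈ gr i, (L ^ (n - i + 1)) a = 0 → ∀ j,
      g₀ ((L ^ j) a) = ((-1) ^ j * gam K (n - i)) • (L ^ j) a := by
    intro i hi a ha hp j
    rw [hg₀, LinearMap.sub_apply, LinearMap.add_apply, hLT i hi a ha hp, hTL i hi a ha hp,
      LinearMap.smul_apply, Module.End.one_apply, ← add_smul, ← sub_smul, zc_add]
    congr 1
    push_cast; ring
  have hg₀L : g₀ * L = -(L * g₀) := by
    apply LinearMap.ext
    intro x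
    refine lef_induction' h hLh hbd hHL (p := fun x => (g₀ * L) x = (-(L * g₀)) x) ?_ ?_ x
    · intro a b ha hb; rw [map_add, map_add, ha, hb]
    · intro i hi a ha hp j
      rw [LinearMap.neg_apply, Module.End.mul_apply, Module.End.mul_apply,
        ← Module.End.mul_apply L, ← pow_succ' L, hg₀v i hi a ha hp, hg₀v i hi a ha hp, map_smul,
        ← Module.End.mul_apply L, ← pow_succ' L, ← neg_smul]
      congr 1
      rw [pow_succ]; ring
  -- the projector to the odd strings
  set q : ℚ[X] := ∏ l ∈ range (n + 1), (1 - C ((((l : ℚ) + 1) / 2) ^ 2) * X ^ 2) with hq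
  set P := ev g₀ q with hP
  have hPR : R 0 P := hR.ev hg₀R q
  have hPv : ∀ i ≤ n, ∀ a ∈ gr i, (L ^ (n - i + 1)) a = 0 → ∀ j,
      P ((L ^ j) a) = (if Even (n - i) then (0 : K) else 1) • (L ^ j) a := by
    intro i hi a ha hp j
    rw [hP, ev_eigen (hg₀v i hi a ha hp j)]
    congr 1
    rw [hq, Polynomial.map_prod, eval_prod]
    split_ifs with hev
    · apply Finset.prod_eq_zero (i := n - i) (Finset.mem_range.2 (by omega))
      have h1 : ((n - i : ℕ) : K) + 1 ≠ 0 := Nat.cast_add_one_ne_zero _
      have h2 : ((-1 : K) ^ j) * (-1) ^ j = 1 := by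
        rw [← pow_add]; exact Even.neg_one_pow ⟨j, rfl⟩
      simp only [Polynomial.map_sub, Polynomial.map_one, Polynomial.map_mul, Polynomial.map_C,
        Polynomial.map_pow, Polynomial.map_X, eval_sub, eval_one, eval_mul, eval_C, eval_pow,
        eval_X, gam, hev.neg_one_pow]
      simp only [eq_ratCast]
      push_cast
      field_simp
      linear_combination (-4 : K) * h2
    · apply Finset.prod_eq_one
      intro l _
      have h3 : gam K (n - i) = 0 := by
        rw [gam, (Nat.not_even_iff_odd.1 hev).neg_one_pow]; simp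
      simp [h3]
  have hf1 : R (-1) (f * (1 - P)) := by
    have h1 : X ∣ (1 - q) := by
      rw [X_dvd_iff, coeff_zero_eq_eval_zero, eval_sub, eval_one, hq, eval_prod,
        Finset.prod_eq_one, sub_self]
      intro l _
      simp
    obtain ⟨r, hr⟩ := h1
    have h2 : 1 - P = g₀ * ev g₀ r := by
      rw [hP, ← map_one (ev g₀), ← map_sub, hr, map_mul, ev_X]
    rw [h2, ← mul_assoc]
    exact hR.cast (hR.mul (hfg g₀ hg₀R hg₀L) (hR.ev hg₀R r)) (by ring)
  -- the operator `g₁`
  set g₁ : Module.End K V := (L * T - T * L) * P with hg₁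
  have hg₁R : R 0 g₁ := hR.cast (hR.mul (hR.sub hLTR hTLR) hPR) (by ring)
  have hg₁v : ∀ i ≤ n, ∀ a ∈ gr i, (L ^ (n - i + 1)) a = 0 → ∀ j,
      g₁ ((L ^ j) a) = (if Even (n - i) then (0 : K) else -2 * (-1) ^ j) • (L ^ j) a := by
    intro i hi a ha hp j
    rw [hg₁, Module.End.mul_apply, hPv i hi a ha hp, map_smul, LinearMap.sub_apply,
      hLT i hi a ha hp, hTL i hi a ha hp, ← sub_smul, smul_smul]
    congr 1
    split_ifs with hev
    · rw [zero_mul]
    · have h3 : gam K (n - i) = 0 := by
        rw [gam, (Nat.not_even_iff_odd.1 hev).neg_one_pow]; simp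
      rw [one_mul, zc_sub h3]
  clear_value g₁
  have hg₁L : g₁ * L = -(L * g₁) := by
    apply LinearMap.ext
    intro x
    refine lef_induction' h hLh hbd hHL (p := fun x => (g₁ * L) x = (-(L * g₁)) x) ?_ ?_ x
    · intro a b ha hb; rw [map_add, map_add, ha, hb]
    · intro i hi a ha hp j
      rw [LinearMap.neg_apply, Module.End.mul_apply, Module.End.mul_apply,
        ← Module.End.mul_apply L, ← pow_succ' L, hg₁v i hi a ha hp, hg₁v i hi a ha hp, map_smul,
        ← Module.End.mul_apply L, ← pow_succ' L, ← neg_smul]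
      congr 1
      split_ifs
      · simp
      · rw [pow_succ]; ring
  have hg₁2 : g₁ * g₁ = ((4 : ℚ) : K) • P := by
    apply LinearMap.ext
    intro x
    refine lef_induction' h hLh hbd hHL (p := fun x => (g₁ * g₁) x = (((4 : ℚ) : K) • P) x)
      ?_ ?_ x
    · intro a b ha hb; rw [map_add, map_add, ha, hb]
    · intro i hi a ha hp j
      rw [Module.End.mul_apply, LinearMap.smul_apply, hPv i hi a ha hp, hg₁v i hi a ha hp,
        map_smul, hg₁v i hi a ha hp, smul_smul, smul_smul]
      congr 1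
      split_ifs
      · simp
      · have h2 : ((-1 : K) ^ j) * (-1) ^ j = 1 := by
          rw [← pow_add]; exact Even.neg_one_pow ⟨j, rfl⟩
        push_cast
        linear_combination (4 : K) * h2
  have hf2 : R (-1) (f * P) := by
    have h1 : f * P = ((1 / 4 : ℚ) : K) • (f * g₁ * g₁) := by
      rw [mul_assoc, hg₁2, mul_smul_comm, smul_smul, ← Rat.cast_mul]
      norm_num
    rw [h1]
    exact hR.smul _ (hR.cast (hR.mul (hfg g₁ hg₁R hg₁L) hg₁R) (by ring))
  have h3 : f = f * (1 - P) + f * P := by noncomm_ring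
  rw [h3]
  exact hR.add hf1 hf2

end Pool.Agent.H447
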