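import Pool.Agent.H89.L.H914R2_TStr

/-!
# Positivity on the part with simple spectrum
-/

open Finset Polynomial

namespace Pool.Agent.H914

variable {K : Type*} [Field K] [CharZero K] {V : Type*} [AddCommGroup V] [Module K V]

omit [CharZero K] in
lemma aeval_eig {G : Module.End K V} {x : V} {μ : K} (hx : G x = μ • x) (g : K[X]) :
    aeval G g x = g.eval μ • x := by
  induction g using Polynomial.induction_on' with
  | add p q hp hq => rw [map_add, LinearMap.add_apply, hp, hq, eval_add, add_smul]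
  | monomial k c =>
    have hk : ∀ k : ℕ, (G ^ k) x = μ ^ k • x := by
      intro k
      induction k with
      | zero => simp
      | succ k ih => rw [pow_succ', Module.End.mul_apply, ih, map_smul, hx, smul_smul, pow_succ]
    rw [aeval_monomial, Algebra.algebraMap_eq_smul_one, smul_mul_assoc, one_mul,
      LinearMap.smul_apply, hk, smul_smul, eval_monomial]

section

variable [Module.Finite K V] {h e f G G' T T' w ε : Module.End K V} (t : Sl2 h e f)
  {q : K} (hq : q ≠ 0) (hGe : G * e = q • (e * G)) (hfG : f * G = q • (G * f))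
  {ι : Type*} [Finite ι] {b : Module.Basis ι K V} {lam : ι → K}
  (hG : ∀ i, G (b i) = lam i • b i) (hinj : Function.Injective lam)
  {n r : ℕ}
  (hε : ∀ i, ∃ d : ℕ, h (b i) = ((d : K) - n) • b i ∧ ε (b i) = (-1 : K) ^ d • b i)

omit [CharZero K] [Module.Finite K V] in
/-- The Weyl element on a string. -/
lemma weyl_pow (hw1 : w * e = -(f * w)) (k : ℕ) (x : V) :
    w ((e ^ k) x) = (-1 : K) ^ k • (f ^ k) (w x) := by
  induction k generalizing x with
  | zero => simp
  | succ k ih =>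
    rw [pow_succ e, Module.End.mul_apply, ih, ← Module.End.mul_apply w, hw1, LinearMap.neg_apply,
      Module.End.mul_apply, map_neg, pow_succ f, Module.End.mul_apply, pow_succ, mul_neg_one,
      neg_smul, smul_neg]

include t in
omit [Module.Finite K V] in
lemma weyl_str (hw1 : w * e = -(f * w))
    (hw3 : ∀ (m : ℕ) (v : V), f v = 0 → h v = -(m : K) • v →
      w v = ((m.factorial : K)⁻¹) • (e ^ m) v)
    {m : ℕ} {α : K} {v : V} (hv : IsStr h f G m α v) {k : ℕ} (hk : k ≤ m) :
    w ((e ^ k) v) = ((-1 : K) ^ k * (k.factorial * ((m - k).factorial : K)⁻¹)) •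
      (e ^ (m - k)) v := by
  rw [weyl_pow hw1, hw3 m v hv.low hv.wt, map_smul, Sl2.f_pow_e_pow t hv.low hv.wt hk, smul_smul,
    smul_smul]
  congr 1
  have h1 : (m.factorial : K) ≠ 0 := by exact_mod_cast Nat.factorial_ne_zero m
  field_simp

omit [CharZero K] [Module.Finite K V] in
/-- Eigenvalues of `T y`. -/
lemma G_T (hq : q ≠ 0) (hTG : T * G = q ^ r • (G * T)) {y : V} {μ : K} (hy : G y = μ • y) :
    G (T y) = ((q ^ r)⁻¹ * μ) • T y := by
  have h1 : q ^ r • (G * T) y = (T * G) y := by rw [hTG]; rfl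
  rw [Module.End.mul_apply, Module.End.mul_apply, hy, map_smul] at h1
  rw [← inv_smul_smul₀ (pow_ne_zero r hq) (G (T y)), h1, smul_smul]

omit [CharZero K] [Module.Finite K V] in
lemma h_T (hhT : h * T - T * h = -((2 * r : ℕ) : K) • T) {y : V} {μ : K} (hy : h y = μ • y) :
    h (T y) = (μ - (2 * r : ℕ)) • T y := by
  have h1 := congrArg (fun F => F y) hhT
  simp only [LinearMap.sub_apply, Module.End.mul_apply, LinearMap.smul_apply] at h1
  rw [hy, map_smul, sub_eq_iff_eq_add] at h1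
  rw [h1, ← add_smul]
  congr 1
  ring

include t hinj hG hGe hq in
lemma T_low (hhT : h * T - T * h = -((2 * r : ℕ) : K) • T) (hTG : T * G = q ^ r • (G * T))
    {m : ℕ} {α : K} {v : V} (hv : IsStr h f G m α v) {c : ℕ} (hc : c < r) :
    T ((e ^ c) v) = 0 := by
  apply no_below t hG hinj hGe hq hv (s := r - c) (by omega)
  · have h1 : h ((e ^ c) v) = (2 * c - (m : K)) • (e ^ c) v := Sl2.h_e_pow t hv.wt c
    rw [h_T hhT h1]
    congr 1
    have : ((r - c : ℕ) : K) = r - c := by rw [Nat.cast_sub (by omega)]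
    push_cast
    rw [this]
    ring
  · rw [G_T hq hTG (G_e_pow hGe hv.eig c)]
    congr 1
    have h1 : q ^ r = q ^ (r - c) * q ^ c := by rw [← pow_add]; congr 1; omega
    have h2 : q ^ c ≠ 0 := pow_ne_zero _ hq
    have h3 : q ^ (r - c) ≠ 0 := pow_ne_zero _ hq
    rw [h1]
    field_simp

include t hinj hG hGe hq in
lemma T_high (hTG : T * G = q ^ r • (G * T)) {g : K[X]} (hu : e ^ r * T = aeval G g)
    {m : ℕ} {α : K} {v : V} (hv : IsStr h f G m α v) {c : ℕ} (hc : r ≤ c) (hcm : c ≤ m) :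
    T ((e ^ c) v) = g.eval (q ^ c * α) • (e ^ (c - r)) v := by
  have hne : (e ^ (c - r)) v ≠ 0 := Sl2.e_pow_ne t hv.low hv.wt hv.ne (by omega)
  obtain ⟨i, hi, κ, hκ, hvi⟩ := eig_exists hG hinj hne (G_e_pow hGe hv.eig (c - r))
  have h1 : G (T ((e ^ c) v)) = lam i • T ((e ^ c) v) := by
    rw [G_T hq hTG (G_e_pow hGe hv.eig c), ← hi]
    congr 1
    have h1 : q ^ c = q ^ (c - r) * q ^ r := by rw [← pow_add]; congr 1; omega
    have h2 : q ^ r ≠ 0 := pow_ne_zero _ hq
    rw [h1]
    field_simp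
  obtain ⟨κ', hκ'⟩ := eig_unique hG hinj h1
  have h2 : T ((e ^ c) v) = (κ' * κ⁻¹) • (e ^ (c - r)) v := by
    rw [hκ', hvi, smul_smul, mul_assoc, inv_mul_cancel₀ hκ, mul_one]
  have h3 := congrArg (fun F => F ((e ^ c) v)) hu
  simp only [Module.End.mul_apply] at h3
  rw [aeval_eig (G_e_pow hGe hv.eig c), h2, map_smul, ← Module.End.mul_apply, ← pow_add,
    show r + (c - r) = c by omega] at h3
  have hne2 : (e ^ c) v ≠ 0 := Sl2.e_pow_ne t hv.low hv.wt hv.ne hcm
  have h4 := smul_left_injective K hne2 h3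
  rw [h2, h4]

omit [CharZero K] [Module.Finite K V] in
include hGe in
lemma T'_high {Q : K} (hGG : G' * G = Q • 1) (hQ : Q ≠ 0) {g : K[X]}
    (hu' : T' * e ^ r = aeval G' g) {m : ℕ} {α : K} {v : V} (hv : IsStr h f G m α v) {c : ℕ}
    (hc : r ≤ c) : T' ((e ^ c) v) = g.eval (Q / (q ^ (c - r) * α)) • (e ^ (c - r)) v := by
  have h1 : (e ^ c) v = (e ^ r) ((e ^ (c - r)) v) := by
    rw [← Module.End.mul_apply, ← pow_add, show r + (c - r) = c by omega]
  rw [h1, ← Module.End.mul_apply T', hu']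
  by_cases h0 : (e ^ (c - r)) v = 0
  · rw [h0, map_zero, smul_zero]
  apply aeval_eig
  have h2 := congrArg (fun F => F ((e ^ (c - r)) v)) hGG
  simp only [Module.End.mul_apply, LinearMap.smul_apply, Module.End.one_apply] at h2
  rw [G_e_pow hGe hv.eig (c - r), map_smul] at h2
  have h3 : q ^ (c - r) * α ≠ 0 := by
    intro h4
    rw [h4, zero_smul] at h2
    exact (smul_ne_zero hQ h0) h2.symm
  rw [div_eq_inv_mul, mul_smul, ← h2, smul_smul, inv_mul_cancel₀ h3, one_smul]

include t hinj hG hGe hε in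
lemma eps_str {m : ℕ} {α : K} {v : V} (hv : IsStr h f G m α v) {c : ℕ} (hcm : c ≤ m) :
    ε ((e ^ c) v) = (-1 : K) ^ (n + m) • (e ^ c) v := by
  have hne : (e ^ c) v ≠ 0 := Sl2.e_pow_ne t hv.low hv.wt hv.ne hcm
  obtain ⟨i, hi, κ, hκ, hvi⟩ := eig_exists hG hinj hne (G_e_pow hGe hv.eig c)
  obtain ⟨d, hd, hεd⟩ := hε i
  have h1 : h ((e ^ c) v) = (2 * c - (m : K)) • (e ^ c) v := Sl2.h_e_pow t hv.wt c
  have h2 : h ((e ^ c) v) = ((d : K) - n) • (e ^ c) v := by
    rw [hvi, map_smul, hd, smul_comm]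
  have h3 := smul_left_injective K hne (h1.symm.trans h2)
  have h4 : (2 * c + n : ℕ) = d + m := by
    have : ((2 * c + n : ℕ) : K) = ((d + m : ℕ) : K) := by push_cast; linear_combination h3
    exact_mod_cast this
  have h5 : (-1 : K) ^ d = (-1 : K) ^ (n + m) := by
    have : (-1 : K) ^ (d + m + m) = (-1) ^ (n + m) := by
      rw [← h4, show 2 * c + n + m = (n + m) + 2 * c by ring, pow_add, pow_mul]; simp
    rw [← this, show d + m + m = d + 2 * m by ring, pow_add, pow_mul]; simp
  rw [hvi, map_smul, hεd, smul_comm, h5]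

include t hinj hG hGe hε hq in
/-- The operator `ε w T w T'` on a string. -/
lemma Z_str (hw1 : w * e = -(f * w))
    (hw3 : ∀ (m : ℕ) (v : V), f v = 0 → h v = -(m : K) • v →
      w v = ((m.factorial : K)⁻¹) • (e ^ m) v)
    (hTG : T * G = q ^ r • (G * T)) {Q : K} (hGG : G' * G = Q • 1) (hQ : Q ≠ 0) {g : K[X]}
    (hu : e ^ r * T = aeval G g) (hu' : T' * e ^ r = aeval G' g)
    {m : ℕ} {α : K} {v : V} (hv : IsStr h f G m α v) {c : ℕ} (hc : r ≤ c) (hcm : c ≤ m) :
    ((-1 : K) ^ (n + r) • (ε * (w * T * w) * T')) ((e ^ c) v) =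
      ((((c - r).factorial * (m - c).factorial : ℕ) : K) *
        (((m - c + r).factorial * c.factorial : ℕ) : K)⁻¹ *
        (g.eval (Q / (q ^ (c - r) * α)) * g.eval (q ^ (m - c + r) * α))) • (e ^ c) v := by
  have e1 := weyl_str t hw1 hw3 hv (k := c - r) (by omega)
  have e2 := weyl_str t hw1 hw3 hv (k := m - c) (by omega)
  rw [show m - (m - c) = c by omega] at e2
  rw [show m - (c - r) = m - c + r by omega] at e1
  have e3 := T_high t hq hGe hG hinj hTG hu hv (c := m - c + r) (by omega) (by omega)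
  rw [show m - c + r - r = m - c by omega] at e3
  have e4 := T'_high hGe hGG hQ hu' hv hc
  simp only [LinearMap.smul_apply, Module.End.mul_apply]
  rw [e4]
  simp only [map_smul]
  rw [e1]
  simp only [map_smul]
  rw [e3]
  simp only [map_smul]
  rw [e2]
  simp only [map_smul]
  rw [eps_str t hGe hG hinj hε hv hcm]
  simp only [smul_smul]
  congr 1
  have hs : (-1 : K) ^ (n + r) * (-1) ^ (c - r) * (-1) ^ (m - c) * (-1) ^ (n + m) = 1 := by
    rw [← pow_add, ← pow_add, ← pow_add]
    have : Even (n + r + (c - r) + (m - c) + (n + m)) := ⟨n + m, by omega⟩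
    exact this.neg_one_pow
  have h1 : ((m - c + r).factorial : K) ≠ 0 := by exact_mod_cast Nat.factorial_ne_zero _
  have h2 : (c.factorial : K) ≠ 0 := by exact_mod_cast Nat.factorial_ne_zero _
  push_cast
  rw [mul_inv]
  linear_combination (g.eval (Q / (q ^ (c - r) * α)) * g.eval (q ^ (m - c + r) * α) *
    ((c - r).factorial : K) * ((m - c).factorial : K) * ((m - c + r).factorial : K)⁻¹ *
    (c.factorial : K)⁻¹) * hs

end

end Pool.Agent.H914
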