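import Pool.Agent.H89.L.H914R2_APart
import Pool.Agent.H89.L.H914R2_Core5

/-!
# The projector onto the algebraic part
-/

open Finset

namespace Pool.Agent.H914

variable {K : Type*} [Field K] [CharZero K] {V : Type*} [AddCommGroup V] [Module K V]
  [Module.Finite K V]

omit [CharZero K] in
/-- A maximal orthogonal family in an anisotropic set. -/
lemma exists_orthogonal (Φ : V →ₗ[K] V →ₗ[K] K) (S : Set V)
    (hsymm : ∀ a ∈ S, ∀ b ∈ S, Φ a b = Φ b a) (hne : ∀ a ∈ S, a ≠ 0 → Φ a a ≠ 0) :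
    ∃ (N : ℕ) (x : Fin N → V), (∀ i, x i ∈ S ∧ x i ≠ 0) ∧ (∀ i j, i ≠ j → Φ (x i) (x j) = 0) ∧
      ∀ c ∈ S, (∀ i, Φ c (x i) = 0) → c = 0 := by
  classical
  set P : ℕ → Prop := fun N => ∃ x : Fin N → V, (∀ i, x i ∈ S ∧ x i ≠ 0) ∧
    (∀ i j, i ≠ j → Φ (x i) (x j) = 0) with hP
  have hbound : ∀ N, P N → N ≤ Module.finrank K V := by
    rintro N ⟨x, hx, ho⟩
    have hli : LinearIndependent K x := by
      rw [Fintype.linearIndependent_iff]
      intro g hg i
      have h1 := congrArg (fun y => Φ y (x i)) hg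
      simp only [map_sum, map_smul, LinearMap.sum_apply, LinearMap.smul_apply, smul_eq_mul,
        map_zero, LinearMap.zero_apply] at h1
      rw [Finset.sum_eq_single i] at h1
      · rcases mul_eq_zero.1 h1 with h2 | h2
        · exact h2
        · exact absurd h2 (hne _ (hx i).1 (hx i).2)
      · intro j _ hj; rw [ho j i hj, mul_zero]
      · intro h; exact absurd (Finset.mem_univ i) h
    simpa using hli.fintype_card_le_finrank
  have h0 : P 0 := ⟨Fin.elim0, fun i => i.elim0, fun i => i.elim0⟩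
  set N := Nat.findGreatest P (Module.finrank K V) with hN
  have hPN : P N := Nat.findGreatest_spec (Nat.zero_le _) h0
  obtain ⟨x, hx, ho⟩ := hPN
  refine ⟨N, x, hx, ho, ?_⟩
  intro c hc hcx
  by_contra hc0
  have h1 : P (N + 1) := by
    refine ⟨Fin.cons c x, ?_, ?_⟩
    · intro i
      refine Fin.cases ?_ ?_ i
      · exact ⟨by simpa using hc, by simpa using hc0⟩
      · intro i; simpa using hx i
    · intro i j
      refine Fin.cases ?_ ?_ i
      · refine Fin.cases ?_ ?_ j
        · intro h; exact absurd rfl h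
        · intro j _; simpa using hcx j
      · intro i
        refine Fin.cases ?_ ?_ j
        · intro _
          simp only [Fin.cons_succ, Fin.cons_zero]
          rw [hsymm _ (hx i).1 _ hc]; exact hcx i
        · intro j h
          simp only [Fin.cons_succ]
          exact ho i j (fun h' => h (by rw [h']))
  have h2 := Nat.le_findGreatest (hbound _ h1) h1
  omega

omit [CharZero K] [Module.Finite K V] in
/-- The orthogonal complement of the algebraic classes. -/
def Tpart (B : V →ₗ[K] V →ₗ[K] K) (C : ℕ → Set V) : Submodule K V where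
  carrier := {y | ∀ l, ∀ c ∈ C l, B y c = 0}
  zero_mem' := fun l c _ => by simp
  add_mem' := fun {a b} ha hb l c hc => by
    rw [map_add, LinearMap.add_apply, ha l c hc, hb l c hc, add_zero]
  smul_mem' := fun q a ha l c hc => by
    rw [map_smul, LinearMap.smul_apply, ha l c hc, smul_zero]

omit [CharZero K] [Module.Finite K V] in
lemma mem_Tpart {B : V →ₗ[K] V →ₗ[K] K} {C : ℕ → Set V} {y : V} :
    y ∈ Tpart B C ↔ ∀ l, ∀ c ∈ C l, B y c = 0 := Iff.rfl

/-- The data of a projector onto the algebraic part. -/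
structure ProjData (n : ℕ) (B : V →ₗ[K] V →ₗ[K] K) (C : ℕ → Set V) (w : Module.End K V)
    (κ : Type) [Fintype κ] (l : κ → ℕ) (x : κ → V) (φ : κ → ℚ) (p : Module.End K V) : Prop where
  le : ∀ k, l k ≤ n
  mem : ∀ k, x k ∈ C (l k)
  val : ∀ k, B (x k) (w (x k)) = (φ k : K)
  pos : ∀ k, 0 < (-1) ^ (l k) * φ k
  p_eq : ∀ y, p y = ∑ k, ((φ k : K)⁻¹ * B y (w (x k))) • x k
  fix : ∀ l, ∀ c ∈ C l, p c = c
  compl : ∀ y, y - p y ∈ Tpart B C
  kill : ∀ y ∈ Tpart B C, p y = 0

namespace AlgPart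

variable {gr : ℕ → Submodule K V} {n : ℕ} {L : Module.End K V}
  {B : V →ₗ[K] V →ₗ[K] K} {C : ℕ → Set V} (hC : AlgPart gr n L B C)
  {H Lam w : Module.End K V} (t : Sl2 H L Lam) (hw1 : w * L = -(Lam * w))
  (hw3 : ∀ (m : ℕ) (v : V), Lam v = 0 → H v = -(m : K) • v →
      w v = ((m.factorial : K)⁻¹) • (L ^ m) v)
  (hlow : ∀ i ≤ n, ∀ a ∈ gr i, (L ^ (n - i + 1)) a = 0 → Lam a = 0)
  (hH : ∀ i, ∀ a ∈ gr i, H a = ((i : K) - n) • a)

include hC t hw1 hw3 hlow hH

theorem exists_projData (hL : IsHom gr 2 L) (hbd : ∀ i, 2 * n + 1 ≤ i → gr i = ⊥) :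
    ∃ (κ : Type) (_ : Fintype κ) (l : κ → ℕ) (x : κ → V) (φ : κ → ℚ) (p : Module.End K V),
      ProjData n B C w κ l x φ p := by
  classical
  set Φ : V →ₗ[K] V →ₗ[K] K := B.compl₂ w with hΦ
  have hΦa : ∀ a b, Φ a b = B a (w b) := fun a b => rfl
  have hfam : ∀ l, ∃ (N : ℕ) (x : Fin N → V), (∀ i, x i ∈ C l ∧ x i ≠ 0) ∧
      (∀ i j, i ≠ j → Φ (x i) (x j) = 0) ∧ ∀ c ∈ C l, (∀ i, Φ c (x i) = 0) → c = 0 := by
    intro l
    apply exists_orthogonal Φ (C l)
    · intro a ha b hb
      exact hC.weyl_symm t hw1 hw3 hlow hH hL hbd ha hb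
    · intro a ha ha0 h0
      obtain ⟨s, hs1, hs2⟩ := hC.weyl_pos t hw1 hw3 hlow hH hL hbd ha ha0
      rw [hΦa, hs1] at h0
      have : s = 0 := by exact_mod_cast h0
      rw [this, mul_zero] at hs2
      exact lt_irrefl _ hs2
  choose N X hX ho hmax using hfam
  set κ := Σ l : Fin (n + 1), Fin (N l) with hκ
  set l : κ → ℕ := fun k => (k.1 : ℕ) with hl
  set x : κ → V := fun k => X k.1 k.2 with hx
  have hval : ∀ k : κ, ∃ s : ℚ, B (x k) (w (x k)) = s ∧ 0 < (-1) ^ (l k) * s := fun k =>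
    hC.weyl_pos t hw1 hw3 hlow hH hL hbd (hX _ k.2).1 (hX _ k.2).2
  choose φ hφ hφpos using hval
  have hφ0 : ∀ k, (φ k : K) ≠ 0 := by
    intro k h0
    have h1 : φ k = 0 := by exact_mod_cast h0
    have := hφpos k
    rw [h1, mul_zero] at this
    exact lt_irrefl _ this
  have hmem : ∀ k, x k ∈ C (l k) := fun k => (hX _ k.2).1
  have hle : ∀ k, l k ≤ n := fun k => by have := k.1.2; simp only [hl]; omega
  -- degree reasons
  have hdeg : ∀ l₁ l₂, l₁ ≠ l₂ → l₂ ≤ n → ∀ a ∈ C l₁, ∀ b ∈ C l₂, B a (w b) = 0 := by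
    intro l₁ l₂ hne h2 a ha b hb
    have h3 := hC.sub _ _ (hC.weyl_mem t hw1 hw3 hlow hH hL hbd h2 hb)
    by_cases h1 : l₁ ≤ n
    · exact hC.deg _ _ _ (hC.sub _ _ ha) _ h3 (by omega)
    · rw [hC.eq_zero_of_gt hbd (by omega) ha]; simp
  have horth : ∀ k k', k ≠ k' → B (x k) (w (x k')) = 0 := by
    intro k k' hne
    by_cases h1 : l k = l k'
    · obtain ⟨⟨a, ha⟩, i⟩ := k
      obtain ⟨⟨b, hb⟩, i'⟩ := k'
      simp only [hl] at h1
      subst h1
      have : i ≠ i' := by rintro rfl; exact hne rfl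
      exact ho a i i' this
    · exact hdeg _ _ h1 (hle k') _ (hmem k) _ (hmem k')
  set p : Module.End K V := ∑ k, (φ k : K)⁻¹ • ((B.flip (w (x k))).smulRight (x k)) with hp
  have hpe : ∀ y, p y = ∑ k, ((φ k : K)⁻¹ * B y (w (x k))) • x k := by
    intro y
    rw [hp, LinearMap.sum_apply]
    apply Finset.sum_congr rfl
    intro k _
    rw [LinearMap.smul_apply, LinearMap.smulRight_apply, LinearMap.flip_apply, smul_smul]
  have hpx : ∀ y k, B (y - p y) (w (x k)) = 0 := by
    intro y k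
    rw [map_sub, LinearMap.sub_apply, hpe, map_sum, LinearMap.sum_apply, Finset.sum_eq_single k]
    · rw [map_smul, LinearMap.smul_apply, hφ, smul_eq_mul]
      field_simp [hφ0 k]
      ring
    · intro k' _ hk'
      rw [map_smul, LinearMap.smul_apply, horth k' k hk', smul_zero]
    · intro h; exact absurd (Finset.mem_univ k) h
  have hfix : ∀ l₀, ∀ c ∈ C l₀, p c = c := by
    intro l₀ c hc
    by_cases hln : l₀ ≤ n
    swap
    · rw [hC.eq_zero_of_gt hbd (by omega) hc, map_zero]
    have h1 : p c ∈ C l₀ := by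
      rw [hpe]
      apply hC.sum_mem
      intro k _
      by_cases h2 : l k = l₀
      · have hr : ∃ s : ℚ, B c (w (x k)) = s := by
          exact hC.rat _ _ _ hc _ (hC.weyl_mem t hw1 hw3 hlow hH hL hbd (hle k) (hmem k))
        obtain ⟨s, hs⟩ := hr
        have h3 := hC.smul _ ((φ k)⁻¹ * s) _ (hmem k)
        rw [h2] at h3
        rw [hs]
        push_cast at h3
        exact h3
      · rw [hdeg l₀ (l k) (Ne.symm h2) (hle k) c hc _ (hmem k), mul_zero, zero_smul]
        exact hC.zero _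
    have h4 : c - p c ∈ C l₀ := by
      have h5 := hC.add _ _ hc _ (hC.smul _ (-1) _ h1)
      simpa [sub_eq_add_neg] using h5
    have h6 : c - p c = 0 := by
      apply hmax l₀ _ h4
      intro i
      exact hpx c ⟨⟨l₀, by omega⟩, i⟩
    exact (sub_eq_zero.1 h6).symm
  refine ⟨κ, inferInstance, l, x, φ, p, hle, hmem, hφ, hφpos, hpe, hfix, ?_, ?_⟩
  · intro y l₀ c hc
    by_cases hln : l₀ ≤ n
    swap
    · rw [hC.eq_zero_of_gt hbd (by omega) hc, map_zero]
    have h1 := hC.weyl_mem t hw1 hw3 hlow hH hL hbd hln hc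
    have h2 := hC.weyl_sq t hw1 hw3 hlow hH hL hbd hc
    have h3 : B (y - p y) (w (w c)) = 0 := by
      rw [← hfix _ _ h1, hpe (w c), map_sum, map_sum]
      apply Finset.sum_eq_zero
      intro k _
      rw [map_smul, map_smul, hpx, smul_zero]
    rw [h2, map_smul, smul_eq_zero] at h3
    rcases h3 with h4 | h4
    · exact absurd h4 (pow_ne_zero _ (by norm_num))
    · exact h4
  · intro y hy
    rw [hpe]
    apply Finset.sum_eq_zero
    intro k _
    rw [hy _ _ (hC.weyl_mem t hw1 hw3 hlow hH hL hbd (hle k) (hmem k)), mul_zero, zero_smul]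

end AlgPart

omit [Module.Finite K V] in
/-- The lowering operator is self-adjoint. -/
lemma lam_self {gr : ℕ → Submodule K V} {n : ℕ} {L Lam : Module.End K V}
    {B : V →ₗ[K] V →ₗ[K] K} (h : DirectSum.IsInternal gr) (hL : IsHom gr 2 L)
    (hbd : ∀ i, 2 * n + 1 ≤ i → gr i = ⊥) (hHL : HardLef gr n L)
    (hself : ∀ a b, B (L a) b = B a (L b))
    (hdeg : ∀ i j, ∀ a ∈ gr i, ∀ b ∈ gr j, i + j ≠ 2 * n → B a b = 0)
    (hval : ∀ i ≤ n, ∀ a ∈ gr i, (L ^ (n - i + 1)) a = 0 → ∀ j ≤ n - i,
        Lam ((L ^ j) a) = ((j : K) * (((n - i : ℕ) : K) - j + 1)) • (L ^ (j - 1)) a)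
    (a b : V) : B (Lam a) b = B a (Lam b) := by
  have hpow : ∀ (k : ℕ) (a b : V), B ((L ^ k) a) b = B a ((L ^ k) b) := by
    intro k
    induction k with
    | zero => intro a b; simp
    | succ k ih =>
      intro a b
      rw [pow_succ, Module.End.mul_apply, ih, hself, ← Module.End.mul_apply L, ← pow_succ',
        ← pow_succ]
  refine lef_induction' h hL hbd hHL (p := fun a => B (Lam a) b = B a (Lam b)) ?_ ?_ a
  · intro a a' ha ha'
    rw [map_add, map_add, LinearMap.add_apply, map_add, LinearMap.add_apply, ha, ha']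
  intro i hi u hu hp j
  refine lef_induction' h hL hbd hHL
    (p := fun b => B (Lam ((L ^ j) u)) b = B ((L ^ j) u) (Lam b)) ?_ ?_ b
  · intro b b' hb hb'
    rw [map_add, map_add, map_add, hb, hb']
  intro i' hi' u' hu' hp' j'
  by_cases hj : n - i < j
  · rw [L_pow_gt hp hj, map_zero, map_zero]; simp
  by_cases hj' : n - i' < j'
  · rw [L_pow_gt hp' hj', map_zero, map_zero]; simp
  rw [hval i hi u hu hp j (by omega), hval i' hi' u' hu' hp' j' (by omega), map_smul,
    LinearMap.smul_apply, map_smul, hpow, hpow, ← Module.End.mul_apply, ← Module.End.mul_apply,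
    ← pow_add, ← pow_add]
  rcases Nat.eq_zero_or_pos j with rfl | h0
  · simp only [Nat.cast_zero, zero_mul, zero_smul, zero_add]
    rcases Nat.eq_zero_or_pos j' with rfl | h0'
    · simp
    · -- `B u (L ^ (j' - 1) u')` vanishes
      have : B u ((L ^ (j' - 1)) u') = 0 := by
        by_cases hd : i + (i' + 2 * (j' - 1)) = 2 * n
        · rw [← hpow, L_pow_gt hp (by omega), map_zero, LinearMap.zero_apply]
        · exact hdeg _ _ _ hu _ (pow_L_mem hL hu' _) hd
      rw [this, smul_zero]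
  · rcases Nat.eq_zero_or_pos j' with rfl | h0'
    · simp only [Nat.cast_zero, zero_mul, zero_smul, add_zero]
      have : B u ((L ^ (j - 1)) u') = 0 := by
        by_cases hd : i + (i' + 2 * (j - 1)) = 2 * n
        · rw [L_pow_gt hp' (by omega), map_zero]
        · exact hdeg _ _ _ hu _ (pow_L_mem hL hu' _) hd
      rw [this, smul_zero]
    · rw [show j - 1 + j' = j + (j' - 1) by omega]
      by_cases hz : B u ((L ^ (j + (j' - 1))) u') = 0
      · rw [hz, smul_zero, smul_zero]
      · have h1 : j + (j' - 1) ≤ n - i' := by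
          by_contra h2
          apply hz
          rw [L_pow_gt hp' (by omega), map_zero]
        have h2 : j + (j' - 1) ≤ n - i := by
          by_contra h3
          apply hz
          rw [← hpow, L_pow_gt hp (by omega), map_zero, LinearMap.zero_apply]
        have h3 : i + (i' + 2 * (j + (j' - 1))) = 2 * n := by
          by_contra h4
          exact hz (hdeg _ _ _ hu _ (pow_L_mem hL hu' _) h4)
        have h4 : n - i = j + j' - 1 := by omega
        have h5 : n - i' = j + j' - 1 := by omega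
        congr 1
        rw [h4, h5, Nat.cast_sub (by omega)]
        push_cast
        ring

end Pool.Agent.H914
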