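import Pool.Agent.H89.L.H914R2_AProj

/-!
# Positive forms and absolute values
-/

open Finset Polynomial

namespace Pool.Agent.H914

/-- The eigenvalues of a similitude of a positive definite rational quadratic form. -/
lemma matrix_root {N : ℕ} (M : Matrix (Fin N) (Fin N) ℚ) (d : Fin N → ℚ) (hd : ∀ i, 0 < d i)
    {c : ℚ} (h : ∀ i k, ∑ j, M i j * d j * M k j = if i = k then c * d i else 0) {z : ℂ}
    (hz : aeval z M.charpoly = 0) : ‖z‖ ^ 2 = (c : ℝ) := by
  set φ : ℚ →+* ℂ := algebraMap ℚ ℂ with hφ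
  have hφr : ∀ q : ℚ, φ q = (q : ℂ) := fun q => by rw [hφ]; simp
  set Mc : Matrix (Fin N) (Fin N) ℂ := M.map φ with hMc
  have h1 : (Matrix.scalar (Fin N) z - Mc).det = 0 := by
    have h2 : Mc.charpoly.eval z = 0 := by
      rw [hMc, Matrix.charpoly_map, eval_map_algebraMap]
      exact hz
    rw [Matrix.eval_charpoly] at h2
    exact h2
  obtain ⟨v, hv0, hv⟩ := Matrix.exists_vecMul_eq_zero_iff.2 h1
  have hv1 : ∀ j, ∑ i, v i * Mc i j = z * v j := by
    intro j
    have h3 := congrFun hv j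
    rw [Matrix.vecMul_sub, Pi.sub_apply, Pi.zero_apply, sub_eq_zero] at h3
    have h4 : Matrix.vecMul v (Matrix.scalar (Fin N) z) j = v j * z := by
      rw [Matrix.scalar_apply, Matrix.vecMul_diagonal]
    rw [h4] at h3
    rw [mul_comm z, h3]
    rfl
  set S : ℝ := ∑ i, (d i : ℝ) * ‖v i‖ ^ 2 with hS
  have hSpos : 0 < S := by
    obtain ⟨i, hi⟩ := Function.ne_iff.1 hv0
    refine Finset.sum_pos' (fun i _ => ?_) ⟨i, Finset.mem_univ i, ?_⟩
    · have := hd i
      have h2 : (0 : ℝ) < d i := by exact_mod_cast this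
      positivity
    · have := hd i
      have h2 : (0 : ℝ) < d i := by exact_mod_cast this
      have h3 : 0 < ‖v i‖ := norm_pos_iff.2 hi
      positivity
  have hconj : ∀ w : ℂ, w * (starRingEnd ℂ) w = ((‖w‖ ^ 2 : ℝ) : ℂ) := by
    intro w
    rw [Complex.mul_conj, Complex.normSq_eq_norm_sq]
  have e1 : ∑ j, (d j : ℂ) * ((z * v j) * (starRingEnd ℂ) (z * v j)) =
      ((‖z‖ ^ 2 * S : ℝ) : ℂ) := by
    rw [hS, Finset.mul_sum]
    push_cast
    apply Finset.sum_congr rfl
    intro j _
    rw [hconj, norm_mul]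
    push_cast
    ring
  have e2 : ∑ j, (d j : ℂ) * ((z * v j) * (starRingEnd ℂ) (z * v j)) = ((c * S : ℝ) : ℂ) := by
    have e3 : ∀ j, (d j : ℂ) * ((z * v j) * (starRingEnd ℂ) (z * v j)) =
        ∑ i, ∑ k, v i * (starRingEnd ℂ) (v k) * ((M i j * d j * M k j : ℚ) : ℂ) := by
      intro j
      rw [← hv1 j, map_sum, Finset.sum_mul, Finset.mul_sum]
      apply Finset.sum_congr rfl
      intro i _
      rw [Finset.mul_sum, Finset.mul_sum]
      apply Finset.sum_congr rfl
      intro k _
      have e4 : Mc i j = (M i j : ℂ) := by rw [hMc, Matrix.map_apply, hφr]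
      have e5 : Mc k j = (M k j : ℂ) := by rw [hMc, Matrix.map_apply, hφr]
      rw [map_mul, e4, e5]
      have e6 : (starRingEnd ℂ) ((M k j : ℚ) : ℂ) = (M k j : ℂ) := by
        rw [show ((M k j : ℚ) : ℂ) = ((M k j : ℝ) : ℂ) by push_cast; rfl, Complex.conj_ofReal]
      rw [e6]
      push_cast
      ring
    rw [Finset.sum_congr rfl (fun j _ => e3 j), Finset.sum_comm]
    have e7 : ∀ i, ∑ j, ∑ k, v i * (starRingEnd ℂ) (v k) * ((M i j * d j * M k j : ℚ) : ℂ) =
        (c : ℂ) * (d i * ((‖v i‖ ^ 2 : ℝ) : ℂ)) := by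
      intro i
      rw [Finset.sum_comm]
      have e8 : ∀ k, ∑ j, v i * (starRingEnd ℂ) (v k) * ((M i j * d j * M k j : ℚ) : ℂ) =
          v i * (starRingEnd ℂ) (v k) * (((if i = k then c * d i else 0 : ℚ)) : ℂ) := by
        intro k
        rw [← Finset.mul_sum, ← h i k]
        push_cast
        rfl
      rw [Finset.sum_congr rfl (fun k _ => e8 k), Finset.sum_eq_single i]
      · rw [if_pos rfl, hconj]
        push_cast
        ring
      · intro k _ hk
        rw [if_neg (Ne.symm hk)]
        simp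
      · intro h0; exact absurd (Finset.mem_univ i) h0
    rw [Finset.sum_congr rfl (fun i _ => e7 i), ← Finset.mul_sum, hS]
    push_cast
    rfl
  rw [e1] at e2
  have e3 : ‖z‖ ^ 2 * S = c * S := by exact_mod_cast e2
  exact mul_right_cancel₀ hSpos.ne' e3

variable {K : Type*} [Field K] [CharZero K] {E : Type*} [Ring E] [Algebra K E]
  [Module.Finite K E]

/-- An element which acts as a similitude for a positive definite form on a rational space of
operators. -/
theorem weights_of_pos (Φ : E →ₗ[K] E →ₗ[K] K) (S : Set E) (h0 : (0 : E) ∈ S)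
    (hadd : ∀ a ∈ S, ∀ b ∈ S, a + b ∈ S) (hsmul : ∀ q : ℚ, ∀ a ∈ S, (q : K) • a ∈ S) (F : E)
    (hFS : ∀ a ∈ S, F * a ∈ S) (hsymm : ∀ a ∈ S, ∀ b ∈ S, Φ a b = Φ b a)
    (hrat : ∀ a ∈ S, ∀ b ∈ S, ∃ s : ℚ, Φ a b = s)
    (hpos : ∀ a ∈ S, a ≠ 0 → ∃ s : ℚ, Φ a a = s ∧ 0 < s) (c : ℚ)
    (hF : ∀ a ∈ S, ∀ b ∈ S, Φ (F * a) (F * b) = (c : K) * Φ a b) :
    ∃ P : ℚ[X], P ≠ 0 ∧ (∀ a ∈ S, aeval F (P.map (algebraMap ℚ K)) * a = 0) ∧
      ∀ z : ℂ, aeval z P = 0 → ‖z‖ ^ 2 = (c : ℝ) := by
  classical
  obtain ⟨N, x, hx, ho, hmax⟩ := exists_orthogonal Φ S hsymm (by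
    intro a ha ha0 h
    obtain ⟨s, hs, hs0⟩ := hpos a ha ha0
    rw [hs] at h
    have : s = 0 := by exact_mod_cast h
    exact hs0.ne' this)
  have hd : ∀ i, ∃ s : ℚ, Φ (x i) (x i) = s ∧ 0 < s := fun i => hpos _ (hx i).1 (hx i).2
  choose d hd1 hd2 using hd
  have hsum : ∀ {ι : Type} (s : Finset ι) (y : ι → E), (∀ i ∈ s, y i ∈ S) →
      ∑ i ∈ s, y i ∈ S := by
    intro ι s y hy
    induction s using Finset.induction_on with
    | empty => simpa using h0
    | insert a s ha ih =>
      rw [Finset.sum_insert ha]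
      exact hadd _ (hy a (by simp)) _ (ih (fun i hi => hy i (by simp [hi])))
  -- expansion in the orthogonal family
  have hexp : ∀ a ∈ S, ∃ v : Fin N → ℚ, a = ∑ i, (v i : K) • x i := by
    intro a ha
    choose σ hσ using fun i => hrat a ha (x i) (hx i).1
    refine ⟨fun i => σ i / d i, ?_⟩
    have hmem : a - ∑ i, ((σ i / d i : ℚ) : K) • x i ∈ S := by
      rw [sub_eq_add_neg]
      apply hadd _ ha
      have := hsmul (-1) _ (hsum Finset.univ (fun i => ((σ i / d i : ℚ) : K) • x i)
        (fun i _ => hsmul _ _ (hx i).1))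
      simpa using this
    rw [← sub_eq_zero]
    apply hmax _ hmem
    intro i
    rw [map_sub, LinearMap.sub_apply, map_sum, LinearMap.sum_apply, Finset.sum_eq_single i]
    · rw [map_smul, LinearMap.smul_apply, hd1, hσ, smul_eq_mul]
      have : (d i : K) ≠ 0 := by exact_mod_cast (hd2 i).ne'
      push_cast
      field_simp
      ring
    · intro j _ hj
      rw [map_smul, LinearMap.smul_apply, ho j i hj, smul_zero]
    · intro h; exact absurd (Finset.mem_univ i) h
  choose m hm using fun i => hexp (F * x i) (hFS _ (hx i).1)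
  set M : Matrix (Fin N) (Fin N) ℚ := Matrix.of m with hM
  have hMx : ∀ i, F * x i = ∑ j, (M i j : K) • x j := hm
  have hMM : ∀ i k, ∑ j, M i j * d j * M k j = if i = k then c * d i else 0 := by
    intro i k
    have e1 := hF _ (hx i).1 _ (hx k).1
    have e2 : Φ (F * x i) (F * x k) = ((∑ j, M i j * d j * M k j : ℚ) : K) := by
      rw [hMx i, hMx k, map_sum Φ, LinearMap.sum_apply]
      push_cast
      apply Finset.sum_congr rfl
      intro j _
      rw [map_smul, LinearMap.smul_apply, map_sum (Φ (x j)), Finset.sum_eq_single j]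
      · rw [map_smul, hd1, smul_eq_mul, smul_eq_mul]
        ring
      · intro l _ hl
        rw [map_smul, ho j l (Ne.symm hl), smul_zero]
      · intro h; exact absurd (Finset.mem_univ j) h
    rw [e2] at e1
    by_cases hik : i = k
    · subst hik
      rw [if_pos rfl]
      rw [hd1] at e1
      exact_mod_cast e1
    · rw [if_neg hik]
      rw [ho i k hik, mul_zero] at e1
      exact_mod_cast e1
  -- the action on row vectors
  set θ : (Fin N → ℚ) → E := fun v => ∑ i, (v i : K) • x i with hθ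
  have hθF : ∀ v, F * θ v = θ (Matrix.vecMul v M) := by
    intro v
    rw [hθ]
    beta_reduce
    rw [Finset.mul_sum]
    have e1 : ∀ i, F * ((v i : K) • x i) = ∑ j, ((v i * M i j : ℚ) : K) • x j := by
      intro i
      rw [mul_smul_comm, hMx, Finset.smul_sum]
      apply Finset.sum_congr rfl
      intro j _
      rw [smul_smul]
      push_cast; rfl
    rw [Finset.sum_congr rfl (fun i _ => e1 i), Finset.sum_comm]
    apply Finset.sum_congr rfl
    intro j _
    rw [← Finset.sum_smul]
    congr 1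
    rw [Matrix.vecMul, dotProduct]
    push_cast
    rfl
  have hθadd : ∀ v w, θ (v + w) = θ v + θ w := by
    intro v w
    rw [hθ]
    beta_reduce
    rw [← Finset.sum_add_distrib]
    apply Finset.sum_congr rfl
    intro i _
    rw [Pi.add_apply]
    push_cast
    rw [add_smul]
  have hθsmul : ∀ (q : ℚ) v, θ (q • v) = (q : K) • θ v := by
    intro q v
    rw [hθ]
    beta_reduce
    rw [Finset.smul_sum]
    apply Finset.sum_congr rfl
    intro i _
    rw [Pi.smul_apply, smul_smul, smul_eq_mul]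
    push_cast
    rfl
  have hθpow : ∀ (k : ℕ) v, F ^ k * θ v = θ (Matrix.vecMul v (M ^ k)) := by
    intro k
    induction k with
    | zero => intro v; simp
    | succ k ih =>
      intro v
      rw [pow_succ, mul_assoc, hθF, ih, Matrix.vecMul_vecMul, ← pow_succ']
  have hθP : ∀ (P : ℚ[X]) v, aeval F (P.map (algebraMap ℚ K)) * θ v =
      θ (Matrix.vecMul v (aeval M P)) := by
    intro P v
    induction P using Polynomial.induction_on' with
    | add p q hp hq =>
      rw [Polynomial.map_add, map_add, add_mul, hp, hq, map_add, Matrix.vecMul_add, hθadd]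
    | monomial k r =>
      have eK : algebraMap K E ((algebraMap ℚ K) r) * F ^ k = (r : K) • F ^ k := by
        rw [← Algebra.smul_def]
        congr 1
      have eM : algebraMap ℚ (Matrix (Fin N) (Fin N) ℚ) r * M ^ k = r • M ^ k :=
        (Algebra.smul_def r _).symm
      rw [Polynomial.map_monomial, aeval_monomial, aeval_monomial, eK, eM, smul_mul_assoc, hθpow,
        Matrix.vecMul_smul, hθsmul]
  refine ⟨M.charpoly, (Matrix.charpoly_monic M).ne_zero, ?_, ?_⟩
  · intro a ha
    obtain ⟨v, hv⟩ := hexp a ha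
    rw [show a = θ v from hv, hθP, Matrix.aeval_self_charpoly, Matrix.vecMul_zero, hθ]
    simp
  · intro z hz
    exact matrix_root M d hd2 hMM hz

end Pool.Agent.H914
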