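import Pool.Agent.H89.L.H914R2_KDefs
import Pool.Agent.H89.L.H914R2_Cyc

/-!
# Correspondences with coefficients in the coefficient field
-/

open CategoryTheory AlgebraicGeometry Finset

universe u v

namespace Pool.Agent.H914

open VarClass Obj WeilCohomology

variable {k : Type u} [Field k] {𝒱 : VarClass k} {ops : CycleOps 𝒱}

/-- The `K`-linear combinations of algebraic correspondences of degree `d`. -/
def KOp (W : WeilCohomology.{u, v} ops) (X Y : 𝒱.Obj) (d : ℤ) :
    Submodule W.K (W.H X →ₗ[W.K] W.H Y) :=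
  Submodule.span W.K {φ | ∃ p : ℕ, (p : ℤ) = X.dim + d ∧
    ∃ z, (X.prod Y).IsCyc p z ∧ W.corr (W.cl _ z) = φ}

variable {W : WeilCohomology.{u, v} ops} {X Y Z : 𝒱.Obj}

lemma KOp.gen {d : ℤ} {p : ℕ} (hp : (p : ℤ) = X.dim + d) {z : (X.prod Y).Cycles}
    (hz : (X.prod Y).IsCyc p z) : W.corr (W.cl _ z) ∈ KOp W X Y d :=
  Submodule.subset_span ⟨p, hp, z, hz, rfl⟩

lemma mem_KOp_iff {d : ℤ} {φ : W.H X →ₗ[W.K] W.H Y} :
    φ ∈ KOp W X Y d ↔ ∃ γ ∈ spanCycles W (X.prod Y) (X.dim + d), W.corr γ = φ := by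
  constructor
  · intro h
    induction h using Submodule.span_induction with
    | mem x hx =>
      obtain ⟨p, hp, z, hz, rfl⟩ := hx
      exact ⟨_, Submodule.subset_span ⟨p, hp, z, hz, rfl⟩, rfl⟩
    | zero => exact ⟨0, Submodule.zero_mem _, corr_zero W⟩
    | add x y _ _ hx hy =>
      obtain ⟨γ, hγ, rfl⟩ := hx
      obtain ⟨δ, hδ, rfl⟩ := hy
      exact ⟨γ + δ, Submodule.add_mem _ hγ hδ, corr_add W _ _⟩
    | smul a x _ hx =>
      obtain ⟨γ, hγ, rfl⟩ := hx
      exact ⟨a • γ, Submodule.smul_mem _ _ hγ, corr_smul W _ _⟩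
  · rintro ⟨γ, hγ, rfl⟩
    induction hγ using Submodule.span_induction with
    | mem x hx =>
      obtain ⟨p, hp, z, hz, rfl⟩ := hx
      exact KOp.gen hp hz
    | zero => rw [corr_zero]; exact Submodule.zero_mem _
    | add x y _ _ hx hy => rw [corr_add]; exact Submodule.add_mem _ hx hy
    | smul a x _ hx => rw [corr_smul]; exact Submodule.smul_mem _ _ hx

lemma KOp.cast {d e : ℤ} {φ : W.H X →ₗ[W.K] W.H Y} (h : φ ∈ KOp W X Y d) (hde : d = e) :
    φ ∈ KOp W X Y e := hde ▸ h

/-- Operators in `KOp` are homogeneous. -/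
lemma KOp.isHom {d : ℤ} {φ : W.H X →ₗ[W.K] W.H Y} (hφ : φ ∈ KOp W X Y d) :
    ∀ i : ℤ, ∀ a ∈ grZ (W.gr X) i, φ a ∈ grZ (W.gr Y) (i + 2 * d) := by
  intro i a ha
  induction hφ using Submodule.span_induction with
  | mem x hx =>
    obtain ⟨p, hp, z, hz, rfl⟩ := hx
    by_cases hi : 0 ≤ i
    · lift i to ℕ using hi
      rw [grZ_natCast] at ha
      have h1 := W.push_mem (snd X Y) (W.mul_mem (W.cl_mem hz) (W.map_mem (fst X Y) ha))
      rw [corr_apply]
      have e : ((2 * p + i : ℕ) : ℤ) + 2 * ((Y.dim : ℤ) - (X.prod Y).dim) =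
          (i : ℤ) + 2 * d := by
        rw [dim_prod]; push_cast; rw [hp]; ring
      rwa [e] at h1
    · rw [grZ_of_neg (by omega)] at ha
      rw [(Submodule.mem_bot _).1 ha, map_zero]
      exact Submodule.zero_mem _
  | zero => exact Submodule.zero_mem _
  | add x y _ _ hx hy => exact Submodule.add_mem _ hx hy
  | smul c x _ hx => exact Submodule.smul_mem _ _ hx

lemma KOp.comp {d e : ℤ} {φ : W.H X →ₗ[W.K] W.H Y} {ψ : W.H Y →ₗ[W.K] W.H Z}
    (hψ : ψ ∈ KOp W Y Z e) (hφ : φ ∈ KOp W X Y d) : ψ ∘ₗ φ ∈ KOp W X Z (d + e) := by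
  by_cases hde : (X.dim : ℤ) + (d + e) < 0
  · have h0 : ψ ∘ₗ φ = 0 := by
      apply gr_ext (W.isInternal X)
      intro i a ha
      have h1 := KOp.isHom hφ i a (by rw [grZ_natCast]; exact ha)
      have h2 := KOp.isHom hψ _ _ h1
      by_cases hi : 2 * X.dim < i
      · rw [W.gr_eq_bot X i hi] at ha
        rw [(Submodule.mem_bot _).1 ha, map_zero, map_zero]
      · rw [grZ_of_neg (by omega)] at h2
        rw [LinearMap.comp_apply, LinearMap.zero_apply]
        exact (Submodule.mem_bot _).1 h2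
    rw [h0]
    exact Submodule.zero_mem _
  · induction hψ using Submodule.span_induction with
    | mem x hx =>
      obtain ⟨q, hq, w, hw, rfl⟩ := hx
      induction hφ using Submodule.span_induction with
      | mem x hx =>
        obtain ⟨p, hp, z, hz, rfl⟩ := hx
        rw [← corr_compCyc W hw]
        exact KOp.gen (p := (X.dim + (d + e)).toNat) (by omega) (compCyc_mem hz hw (by omega))
      | zero => rw [LinearMap.comp_zero]; exact Submodule.zero_mem _
      | add x y _ _ hx hy => rw [LinearMap.comp_add]; exact Submodule.add_mem _ hx hy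
      | smul a x _ hx => rw [LinearMap.comp_smul]; exact Submodule.smul_mem _ _ hx
    | zero => rw [LinearMap.zero_comp]; exact Submodule.zero_mem _
    | add x y _ _ hx hy => rw [LinearMap.add_comp]; exact Submodule.add_mem _ hx hy
    | smul a x _ hx => rw [LinearMap.smul_comp]; exact Submodule.smul_mem _ _ hx

lemma KOp.id (X : 𝒱.Obj) : LinearMap.id ∈ KOp W X X 0 := by
  obtain ⟨q, hq, z, hz, hY⟩ | ⟨hd, _⟩ := Realized.one (ops := ops) (X := X)
  · have : (LinearMap.id : W.H X →ₗ[W.K] W.H X) = W.corr (W.cl _ z) := hY W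
    rw [this]
    exact KOp.gen hq hz
  · omega

/-- The exchange of the factors. -/
noncomputable def swap (X Y : 𝒱.Obj) : X.prod Y ⟶ Y.prod X := Obj.lift (snd X Y) (fst X Y)

lemma swap_fst (X Y : 𝒱.Obj) : swap X Y ≫ fst Y X = snd X Y := Obj.lift_fst _ _
lemma swap_snd (X Y : 𝒱.Obj) : swap X Y ≫ snd Y X = fst X Y := Obj.lift_snd _ _

/-- The trace is invariant under the exchange of the factors. -/
lemma tr_swap (c : W.H (Y.prod X)) : W.tr (X.prod Y) (W.map (swap X Y) c) = W.tr (Y.prod X) c := by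
  refine W.kunneth_induction (p := fun c => W.tr (X.prod Y) (W.map (swap X Y) c) =
    W.tr (Y.prod X) c) ?_ ?_ c
  · intro a b ha hb
    simp only [map_add, ha, hb]
  · intro i j a ha b hb
    rw [map_mul (W.map (swap X Y)), ← W.map_comp, ← W.map_comp, swap_fst, swap_snd,
      W.comm (W.map_mem (snd X Y) ha) (W.map_mem (fst X Y) hb), map_smul, W.tr_prod, W.tr_prod]
    by_cases hi : i = 2 * Y.dim
    · rw [hi, mul_assoc, pow_mul]
      simp [mul_comm]
    · rw [W.tr_eq_zero ha hi]
      simp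

/-- The correspondences in the two directions given by the same class are adjoint. -/
lemma tr_corr_swap {p : ℕ} {c : W.H (X.prod Y)} (hc : c ∈ W.gr _ (2 * p)) (a : W.H X)
    (b : W.H Y) :
    W.tr Y (W.corr c a * b) = W.tr X (a * W.corr (W.map (swap Y X) c) b) := by
  refine gr_induction (W.isInternal X) (p := fun a =>
    W.tr Y (W.corr c a * b) = W.tr X (a * W.corr (W.map (swap Y X) c) b)) ?_ ?_ a
  swap
  · intro a a' ha ha'
    rw [map_add, add_mul, add_mul, map_add, map_add, ha, ha']
  intro i a ha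
  refine gr_induction (W.isInternal Y) (p := fun b =>
    W.tr Y (W.corr c a * b) = W.tr X (a * W.corr (W.map (swap Y X) c) b)) ?_ ?_ b
  swap
  · intro b b' hb hb'
    rw [map_add, mul_add, mul_add, map_add, map_add, hb, hb']
  intro j b hb
  -- the left hand side
  have e1 : W.tr Y (W.corr c a * b) =
      W.tr (X.prod Y) (c * (W.map (fst X Y) a * W.map (snd X Y) b)) := by
    rw [corr_apply, W.tr_push, mul_assoc]
  have hdeg : c * (W.map (fst X Y) a * W.map (snd X Y) b) ∈
      W.gr (X.prod Y) (2 * p + (i + j)) :=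
    W.mul_mem hc (W.mul_mem (W.map_mem _ ha) (W.map_mem _ hb))
  -- the right hand side, up to sign
  have e2 : W.tr X (W.corr (W.map (swap Y X) c) b * a) =
      (-1 : W.K) ^ (i * j) * W.tr (X.prod Y) (c * (W.map (fst X Y) a * W.map (snd X Y) b)) := by
    rw [corr_apply, W.tr_push, ← tr_swap (X := Y) (Y := X),
      W.comm (W.map_mem (fst X Y) ha) (W.map_mem (snd X Y) hb), mul_smul_comm, map_smul,
      map_smul, map_mul (W.map (swap Y X)), map_mul (W.map (swap Y X)), ← W.map_comp,
      ← W.map_comp, swap_fst, swap_snd, smul_eq_mul, ← mul_assoc ((-1 : W.K) ^ (i * j)),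
      ← pow_add, ← two_mul, pow_mul]
    simp [mul_assoc]
  by_cases hij : 2 * p + (i + j) = 2 * (X.prod Y).dim
  · rw [dim_prod] at hij
    -- the image of `b` is homogeneous
    have h1 : W.map (swap Y X) c * W.map (fst Y X) b ∈ W.gr (Y.prod X) (2 * p + j) :=
      W.mul_mem (W.map_mem _ hc) (W.map_mem _ hb)
    have h2 := W.push_mem (snd Y X) h1
    rw [dim_prod] at h2
    have e3 : W.tr X (a * W.corr (W.map (swap Y X) c) b) =
        (-1 : W.K) ^ (i * (2 * X.dim - i)) * W.tr X (W.corr (W.map (swap Y X) c) b * a) := by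
      by_cases hi : i ≤ 2 * X.dim
      · rw [show ((2 * p + j : ℕ) : ℤ) + 2 * ((X.dim : ℤ) - ((Y.dim + X.dim : ℕ) : ℤ)) =
          ((2 * X.dim - i : ℕ) : ℤ) by omega, grZ_natCast] at h2
        rw [corr_apply, W.comm ha h2, map_smul, smul_eq_mul]
      · rw [W.gr_eq_bot X i (by omega)] at ha
        rw [(Submodule.mem_bot _).1 ha]
        simp
    by_cases hi : i ≤ 2 * X.dim
    · rw [e1, e3, e2, ← mul_assoc ((-1 : W.K) ^ (i * (2 * X.dim - i))), ← pow_add]
      have : Even (i * (2 * X.dim - i) + i * j) := by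
        rw [← mul_add]
        rcases Nat.even_or_odd i with h | h
        · exact h.mul_right _
        · apply Even.mul_left
          have h3 : Odd j := by
            by_contra h4
            rw [Nat.not_odd_iff_even] at h4
            have : Odd (2 * p + (i + j)) := (even_two_mul p).add_odd (h.add_even h4)
            rw [hij] at this
            exact (Nat.not_even_iff_odd.2 this) (even_two_mul _)
          have h4 : Odd (2 * X.dim - i) := Nat.Even.sub_odd hi (even_two_mul _) h
          exact h4.add_odd h3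
      rw [this.neg_one_pow, one_mul]
    · rw [W.gr_eq_bot X i (by omega)] at ha
      rw [(Submodule.mem_bot _).1 ha]
      simp
  · rw [e1, W.tr_eq_zero hdeg hij]
    -- the other side vanishes as well
    have h0 : W.tr X (W.corr (W.map (swap Y X) c) b * a) = 0 := by
      rw [e2, W.tr_eq_zero hdeg hij, mul_zero]
    have h1 : W.map (swap Y X) c * W.map (fst Y X) b ∈ W.gr (Y.prod X) (2 * p + j) :=
      W.mul_mem (W.map_mem _ hc) (W.map_mem _ hb)
    have h2 := W.push_mem (snd Y X) h1
    rw [corr_apply] at h0 ⊢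
    by_cases hm : ∃ m : ℕ, (m : ℤ) =
        ((2 * p + j : ℕ) : ℤ) + 2 * ((X.dim : ℤ) - ((Y.prod X).dim : ℤ))
    · obtain ⟨m, hm⟩ := hm
      rw [← hm, grZ_natCast] at h2
      rw [W.comm ha h2, map_smul, h0, smul_zero]
    · push Not at hm
      by_cases hneg : ((2 * p + j : ℕ) : ℤ) + 2 * ((X.dim : ℤ) - ((Y.prod X).dim : ℤ)) < 0
      · rw [grZ_of_neg hneg] at h2
        rw [(Submodule.mem_bot _).1 h2, mul_zero, map_zero]
      · exact absurd (Int.toNat_of_nonneg (by omega)) (hm _)

/-- Adjoints. -/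
lemma KOp.exists_adjoint {d : ℤ} {φ : W.H X →ₗ[W.K] W.H Y} (hφ : φ ∈ KOp W X Y d) :
    ∃ ψ ∈ KOp W Y X (d + X.dim - Y.dim), ∀ a b, W.tr Y (φ a * b) = W.tr X (a * ψ b) := by
  induction hφ using Submodule.span_induction with
  | mem x hx =>
    obtain ⟨p, hp, z, hz, rfl⟩ := hx
    refine ⟨W.corr (W.cl _ (ops.pull (swap Y X) z)), KOp.gen (p := p) (by omega)
      (ops.pull_mem _ hz), fun a b => ?_⟩
    rw [W.cl_pull]
    exact tr_corr_swap (W.cl_mem hz) a b
  | zero => exact ⟨0, Submodule.zero_mem _, fun a b => by simp⟩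
  | add x y _ _ hx hy =>
    obtain ⟨ψ, hψ, h1⟩ := hx
    obtain ⟨ψ', hψ', h2⟩ := hy
    exact ⟨ψ + ψ', Submodule.add_mem _ hψ hψ', fun a b => by
      rw [LinearMap.add_apply, LinearMap.add_apply, add_mul, mul_add, map_add, map_add, h1, h2]⟩
  | smul c x _ hx =>
    obtain ⟨ψ, hψ, h1⟩ := hx
    exact ⟨c • ψ, Submodule.smul_mem _ _ hψ, fun a b => by
      rw [LinearMap.smul_apply, LinearMap.smul_apply, smul_mul_assoc, mul_smul_comm, map_smul,
        map_smul, h1]⟩

/-- Nondegeneracy on the right. -/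
lemma nondeg_right {a : W.H X} (h : ∀ b, W.tr X (b * a) = 0) : a = 0 := by
  have key : ∀ i, proj (W.isInternal X) i a = 0 := by
    intro i
    apply W.nondeg
    intro c
    refine gr_induction (W.isInternal X)
      (p := fun c => W.tr X (proj (W.isInternal X) i a * c) = 0) ?_ ?_ c
    · intro j c hc
      rw [W.comm (proj_mem _ i a) hc, map_smul]
      by_cases hij : j + i = 2 * X.dim
      · have h1 : W.tr X (c * proj (W.isInternal X) i a) = W.tr X (c * a) := by
          refine gr_induction (W.isInternal X)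
            (p := fun b => W.tr X (c * proj (W.isInternal X) i b) = W.tr X (c * b)) ?_ ?_ a
          · intro l b hb
            by_cases hl : l = i
            · subst hl; rw [proj_same _ hb]
            · rw [proj_ne _ hb hl, mul_zero, map_zero,
                W.tr_eq_zero (W.mul_mem hc hb) (by omega)]
          · intro b b' hb hb'
            rw [map_add, mul_add, mul_add, map_add, map_add, hb, hb']
        rw [h1, h, smul_zero]
      · rw [W.tr_eq_zero (W.mul_mem hc (proj_mem _ i a)) hij, smul_zero]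
    · intro c c' hc hc'
      rw [mul_add, map_add, hc, hc', add_zero]
  have hsum := sum_proj (W.isInternal X) (N := 2 * X.dim + 1)
    (fun i hi => W.gr_eq_bot X i (by omega))
  have h2 := congrArg (fun F => F a) hsum
  simp only [LinearMap.sum_apply, key, Finset.sum_const_zero, Module.End.one_apply] at h2
  exact h2.symm

end Pool.Agent.H914
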