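import Pool.Agent.H89.L.W5h38_TV_Defs
import Pool.Agent.H89.L.W5h38_TV_Strata

/-!
# The theorem for the schemes built from torus schemes
-/

set_option autoImplicit false

open CategoryTheory AlgebraicGeometry MvPolynomial Pool.Agent.Y116.UV Pool.Agent.Z125.UN

namespace Pool.Agent.W5h38.TV

lemma dim_PI {R : Type} [CommRing R] {σ : Type} (I : Set (MvPolynomial σ R))
    (w : MvPolynomial σ R) : ringKrullDim (PI I w) =
      ringKrullDim (Localization.Away (Ideal.Quotient.mk (Ideal.span I) w)) := by
  change ringKrullDim (Localization.Away (Ideal.Quotient.mk (Ideal.span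
    (Set.range (fun p : I => (p : MvPolynomial σ R)))) w)) = _
  rw [Subtype.range_coe]

lemma rk_eq {N m : ℕ} (w : Fin N → Fin m → ℤ) (S : Finset (Fin N)) :
    rk (fun i : S => w i) = orbitDim w S := by
  rw [rk, orbitDim]
  have h : (Set.range fun (i : S) (j : Fin m) => (w i j : ℚ)) =
      {v : Fin m → ℚ | ∃ i ∈ S, ∀ j, v j = (w i j : ℚ)} := by
    ext v
    constructor
    · rintro ⟨i, rfl⟩
      exact ⟨i, i.2, fun j => rfl⟩
    · rintro ⟨i, hi, h⟩
      exact ⟨⟨i, hi⟩, (funext h).symm⟩
  rw [h]

section

variable {k : Type} [CommRing k] {P : Sch k → Prop} (hP : Bnd True P) {n : ℕ}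

include hP

/-- from dimension at most `n` to complexity at most `n` -/
theorem built (hn : ∀ (A : Type) [CommRing A] [Algebra k A] [Algebra.FiniteType k A],
    ringKrullDim A ≤ n → P (aff k A)) {X : Sch k} (hX : Built n X) : P X := by
  induction hX with
  | torus X h =>
    obtain ⟨N, m, κ, G, w, hG, hd, rfl⟩ := h
    refine p_torus hP hn G w hG fun S => ?_
    rw [rk_eq, dim_PI]
    exact hd S
  | iso X Y hX e _ ih => exact hP.iso hX e ih
  | total Z X U i j hX ht _ _ hZ hU => exact hP.total i j hX ht hZ hU
  | opened Z X U i j hX ht _ _ hZ hX' => exact hP.opened i j hX ht hZ hX'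
  | closed Z X U i j hX ht _ _ hX' hU => exact hP.closed i j hX ht hX' hU

end

/-- affine schemes of dimension at most `n` -/
theorem built_of_dim {k : Type} [CommRing k] {n : ℕ} {A : Type} [CommRing A] [Algebra k A]
    [Algebra.FiniteType k A] (hA : ringKrullDim A ≤ n) : Built n (aff k A) := by
  obtain ⟨N, f, hf⟩ := Algebra.FiniteType.iff_quotient_mvPolynomial''.mp
    (inferInstance : Algebra.FiniteType k A)
  let G : RingHom.ker f → MvPolynomial (Fin N) k := fun p => p.1
  have hG : Ideal.span (Set.range G) = RingHom.ker f := by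
    have h1 : Set.range G = (RingHom.ker f : Set (MvPolynomial (Fin N) k)) := Subtype.range_coe
    rw [h1]
    exact Ideal.span_eq _
  have e0 : (MvPolynomial (Fin N) k ⧸ Ideal.span (Set.range G)) ≃ₐ[k] A :=
    (Ideal.quotientEquivAlgOfEq k hG).trans (Ideal.quotientKerAlgEquivOfSurjective hf)
  have h1 : Built n (aff k (MvPolynomial (Fin N) k ⧸ Ideal.span (Set.range G))) := by
    refine .torus _ ⟨N, 0, _, G, fun _ => 0, fun l => ⟨0, fun _ _ => Subsingleton.elim _ _⟩,
      fun S => ?_, rfl⟩
    refine (dim_away _).trans ?_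
    have h2 : ringKrullDim (MvPolynomial (Fin N) k ⧸ Ideal.span (Set.range G ∪
        X '' ((S : Set (Fin N))ᶜ))) ≤
        ringKrullDim (MvPolynomial (Fin N) k ⧸ Ideal.span (Set.range G)) := by
      have hle : Ideal.span (Set.range G) ≤ Ideal.span (Set.range G ∪ X '' ((S : Set (Fin N))ᶜ)) :=
        Ideal.span_mono Set.subset_union_left
      exact ringKrullDim_le_of_surjective (Ideal.Quotient.factor hle)
        (Ideal.Quotient.factor_surjective hle)
    refine h2.trans ?_
    rw [ringKrullDim_eq_of_ringEquiv e0.toRingEquiv]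
    refine hA.trans ?_
    exact_mod_cast Nat.le_add_right n _
  exact .iso _ _ (ft_aff True) ⟨(affIso e0).symm⟩ h1

/-- The closed-open property in dimension at most `n`, and in complexity at most `n`. -/
theorem dim_iff {k : Type} [Field k] [PerfectField k] {P : Sch k → Prop} (hP : Bnd True P) (n : ℕ) :
    (∀ X : Sch k, FT True X → Smooth X.hom → topologicalKrullDim X.left ≤ n → P X) ↔
      ∀ X : Sch k, Built n X → P X := by
  constructor
  · intro h X hX
    refine built hP (fun A _ _ _ hA => ?_) hX
    refine dim_smooth hP n h _ (ft_aff True) ?_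
    rw [topDim_aff]
    exact hA
  · intro h X hX _ hn
    exact of_affine_dim hP (fun A _ _ _ hA => h _ (built_of_dim hA)) X hX hn

end Pool.Agent.W5h38.TV
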