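import Pool.Agent.H89.L.W5h38_TV_Lau
import Pool.Agent.H89.L.Z125_UN_Dim2

/-!
# Graded rings generated by units: the closed-open property and the dimension
-/

set_option autoImplicit false

open CategoryTheory AlgebraicGeometry MvPolynomial Pool.Agent.Y116.UV Pool.Agent.Z125.UN

namespace Pool.Agent.W5h38.TV

/-- the dimension of a ring of Laurent polynomials -/
lemma dim_laurent (B : Type) [CommRing B] :
    ringKrullDim B + 1 ≤ ringKrullDim (LaurentPolynomial B) := by
  let f : LaurentPolynomial B →+* B := LaurentPolynomial.eval₂ (RingHom.id B) 1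
  have hf : Function.Surjective f := fun b => ⟨LaurentPolynomial.C b, LaurentPolynomial.eval₂_C _ _ _⟩
  have hr : LaurentPolynomial.T 1 - 1 ∈ nonZeroDivisors (LaurentPolynomial B) := by
    have h1 : (Polynomial.X - Polynomial.C 1 : Polynomial B) ∈ nonZeroDivisors (Polynomial B) :=
      (Polynomial.monic_X_sub_C (1 : B)).mem_nonZeroDivisors
    have h2 := IsLocalization.map_nonZeroDivisors_le (Submonoid.powers (Polynomial.X : Polynomial B))
      (LaurentPolynomial B)
    have h3 := h2 (Submonoid.mem_map_of_mem (algebraMap (Polynomial B) (LaurentPolynomial B)) h1)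
    rwa [map_sub, LaurentPolynomial.algebraMap_eq_toLaurent, LaurentPolynomial.algebraMap_eq_toLaurent,
      Polynomial.toLaurent_X, Polynomial.C_1, map_one] at h3
  refine ringKrullDim_succ_le_of_surjective f hf hr ?_
  rw [map_sub, map_one]
  change LaurentPolynomial.eval₂ (RingHom.id B) 1 (LaurentPolynomial.T 1) - 1 = 0
  rw [LaurentPolynomial.eval₂_T]
  simp

section

variable {R : Type} [CommRing R] {sep : Prop} {P : Sch R → Prop} (hP : Bnd sep P)

include hP

/-- The property is true for the product with the torus. -/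
lemma p_laurent {A : Type} [CommRing A] [Algebra R A] [Algebra.FiniteType R A] (h : P (aff R A)) :
    P (aff R (LaurentPolynomial A)) := by
  have hft : Algebra.FiniteType R (Polynomial A) :=
    Algebra.FiniteType.trans (S := A) inferInstance inferInstance
  have hft1 : Algebra.FiniteType R (MvPolynomial PUnit A) :=
    Algebra.FiniteType.trans (S := A) inferInstance inferInstance
  have h1 : P (aff R (Polynomial A)) :=
    iso_alg hP.toUni ((MvPolynomial.pUnitAlgEquiv A).restrictScalars R) (p_poly hP PUnit h)
  have h2 : P (aff R (Polynomial A ⧸ Ideal.span {(Polynomial.X : Polynomial A)})) := by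
    have e := (Polynomial.quotientSpanXSubCAlgEquiv (0 : A)).restrictScalars R
    rw [Polynomial.C_0, sub_zero] at e
    exact iso_alg hP.toUni e.symm h
  have h3 : P (aff R (Localization.Away (Polynomial.X : Polynomial A))) := ring_open hP _ h2 h1
  have hft2 : Algebra.FiniteType R (Localization.Away (Polynomial.X : Polynomial A)) :=
    Algebra.FiniteType.trans (S := Polynomial A) inferInstance inferInstance
  let e := IsLocalization.algEquiv (Submonoid.powers (Polynomial.X : Polynomial A))
    (Localization.Away (Polynomial.X : Polynomial A)) (LaurentPolynomial A)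
  let e2 : Localization.Away (Polynomial.X : Polynomial A) ≃ₐ[R] LaurentPolynomial A :=
    AlgEquiv.ofRingEquiv (f := e.toRingEquiv) (by
      intro r
      change e (algebraMap R (Localization.Away (Polynomial.X : Polynomial A)) r) = _
      rw [IsScalarTower.algebraMap_apply R (Polynomial A)
        (Localization.Away (Polynomial.X : Polynomial A)), e.commutes,
        LaurentPolynomial.algebraMap_eq_toLaurent, LaurentPolynomial.algebraMap_apply]
      change Polynomial.toLaurent (Polynomial.C (algebraMap R A r)) = _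
      rw [Polynomial.toLaurent_C])
  exact iso_alg hP.toUni e2 h3

end

section rank

/-- the rank of a family of weights -/
noncomputable def rk {σ : Type} {m : ℕ} (w : σ → Fin m → ℤ) : ℕ :=
  Module.finrank ℚ (Submodule.span ℚ (Set.range fun (i : σ) (j : Fin m) => (w i j : ℚ)))

lemma rk_zero {σ : Type} (w : σ → Fin 0 → ℤ) : rk w = 0 := by
  rw [rk]
  have h : (Submodule.span ℚ (Set.range fun (i : σ) (j : Fin 0) => (w i j : ℚ))) = ⊥ := by
    rw [eq_bot_iff]
    intro x _
    rw [Submodule.mem_bot]
    exact Subsingleton.elim _ _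
  rw [h]
  simp

lemma rk_le {σ : Type} {m : ℕ} (w : σ → Fin (m + 1) → ℤ) (w' : σ → Fin m → ℤ) (c : σ → ℤ)
    (y : Fin (m + 1) → ℤ) (h0 : ∀ i, w i 0 = c i * y 0)
    (h : ∀ i j, w' i j = w i j.succ - c i * y j.succ) : rk w ≤ rk w' + 1 := by
  let ι : (Fin m → ℚ) →ₗ[ℚ] (Fin (m + 1) → ℚ) :=
    { toFun := fun v => Fin.cons 0 v
      map_add' := fun a b => by
        funext j
        refine Fin.cases ?_ (fun j => ?_) j <;> simp
      map_smul' := fun a b => by
        funext j
        refine Fin.cases ?_ (fun j => ?_) j <;> simp }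
  set V' := Submodule.span ℚ (Set.range fun (i : σ) (j : Fin m) => (w' i j : ℚ)) with hV'
  set yq : Fin (m + 1) → ℚ := fun j => (y j : ℚ) with hy
  have h1 : Submodule.span ℚ (Set.range fun (i : σ) (j : Fin (m + 1)) => (w i j : ℚ)) ≤
      V'.map ι ⊔ Submodule.span ℚ {yq} := by
    rw [Submodule.span_le]
    rintro _ ⟨i, rfl⟩
    have h2 : (fun j => (w i j : ℚ)) = ι (fun j => (w' i j : ℚ)) + (c i : ℚ) • yq := by
      funext j
      refine Fin.cases ?_ (fun j => ?_) j
      · change (w i 0 : ℚ) = 0 + (c i : ℚ) * (y 0 : ℚ)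
        rw [h0]
        push_cast
        ring
      · change (w i j.succ : ℚ) = (w' i j : ℚ) + (c i : ℚ) * (y j.succ : ℚ)
        rw [h]
        push_cast
        ring
    change (fun j => (w i j : ℚ)) ∈ V'.map ι ⊔ Submodule.span ℚ {yq}
    rw [h2]
    refine Submodule.add_mem_sup (Submodule.mem_map_of_mem (Submodule.subset_span ⟨i, rfl⟩))
      (Submodule.smul_mem _ _ (Submodule.mem_span_singleton_self _))
  calc rk w ≤ Module.finrank ℚ ↥(V'.map ι ⊔ Submodule.span ℚ {yq}) := Submodule.finrank_mono h1
    _ ≤ Module.finrank ℚ ↥(V'.map ι) + Module.finrank ℚ ↥(Submodule.span ℚ {yq}) :=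
      Submodule.finrank_add_le_finrank_add_finrank _ _
    _ ≤ rk w' + 1 := by
      refine Nat.add_le_add (Submodule.finrank_map_le _ _) ?_
      exact le_trans (finrank_span_le_card {yq}) (by simp)

end rank

section gcd

/-- the greatest common divisor of a family of integers -/
lemma exists_gcd {σ : Type} [Fintype σ] (v : σ → ℤ) (i0 : σ) (h : v i0 ≠ 0) :
    ∃ (g : ℤ) (m c : σ → ℤ), (∀ i, v i = c i * g) ∧ ∑ i, m i * v i = g ∧ ∑ i, m i * c i = 1 := by
  obtain ⟨g, hg⟩ := (IsPrincipalIdealRing.principal (Ideal.span (Set.range v))).principal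
  have h1 : ∀ i, ∃ c, v i = c * g := by
    intro i
    have h2 : v i ∈ Ideal.span (Set.range v) := Ideal.subset_span ⟨i, rfl⟩
    rw [hg] at h2
    obtain ⟨c, hc⟩ := Submodule.mem_span_singleton.mp h2
    exact ⟨c, hc.symm⟩
  choose c hc using h1
  have h3 : g ∈ Ideal.span (Set.range v) := by
    rw [hg]
    exact Submodule.mem_span_singleton_self g
  obtain ⟨m, hm⟩ := (Submodule.mem_span_range_iff_exists_fun ℤ).mp h3
  have hm' : ∑ i, m i * v i = g := by
    rw [← hm]
    rfl
  refine ⟨g, m, c, hc, hm', ?_⟩
  have hg0 : g ≠ 0 := by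
    rintro rfl
    exact h (by rw [hc i0, mul_zero])
  have h4 : (∑ i, m i * c i) * g = 1 * g := by
    rw [one_mul, Finset.sum_mul]
    nth_rewrite 2 [← hm']
    refine Finset.sum_congr rfl fun i _ => ?_
    rw [hc i]
    ring
  exact mul_right_cancel₀ hg0 h4

end gcd

end Pool.Agent.W5h38.TV
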