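import Pool.Agent.H89.L.Z125_UN_Pc

/-!
# A graded ring generated by units is a ring of Laurent polynomials
-/

set_option autoImplicit false

open MvPolynomial Pool.Agent.Z125.UN

namespace Pool.Agent.W5h38.TV

/-- a product of powers of one element -/
lemma prod_zpow_sum {σ : Type} [Fintype σ] {M : Type} [CommGroup M] (y : M) (f : σ → ℤ) :
    ∏ i, y ^ f i = y ^ ∑ i, f i := by
  classical
  have h : ∀ s : Finset σ, ∏ i ∈ s, y ^ f i = y ^ ∑ i ∈ s, f i := by
    intro s
    induction s using Finset.induction_on with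
    | empty => simp
    | insert a s ha ih => rw [Finset.prod_insert ha, Finset.sum_insert ha, ih, zpow_add]
  exact h _

section scale

variable {R : Type} [CommRing R] {σ : Type} [Fintype σ] {C : Type} [CommRing C] [Algebra R C]

/-- scaling the variables of a weighted homogeneous polynomial by the powers of a unit -/
lemma scale (c : σ → ℤ) {p : MvPolynomial σ R} {d : ℤ} (hp : IsWeightedHomogeneous c p d)
    (y : Cˣ) (b : σ → C) :
    aeval (fun i => b i * ((y ^ c i : Cˣ) : C)) p = ((y ^ d : Cˣ) : C) * aeval b p := by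
  rw [aeval_def, aeval_def, eval₂_eq', eval₂_eq', Finset.mul_sum]
  refine Finset.sum_congr rfl fun s hs => ?_
  have h1 : Finsupp.weight c s = d := hp (mem_support_iff.mp hs)
  have h2 : ∑ i, (s i : ℤ) * c i = d := by
    rw [← h1, Finsupp.weight_apply, Finsupp.sum_fintype _ _ (by simp)]
    simp
  have h3 : ∏ i, ((y ^ c i : Cˣ) : C) ^ s i = ((y ^ d : Cˣ) : C) := by
    rw [← h2]
    have h4 : (y ^ (∑ i, (s i : ℤ) * c i) : Cˣ) = ∏ i, (y ^ c i) ^ s i := by
      rw [← prod_zpow_sum]
      refine Finset.prod_congr rfl fun i _ => ?_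
      rw [← zpow_natCast, ← zpow_mul, mul_comm]
    rw [h4, Units.coe_prod]
    simp
  simp only [mul_pow, Finset.prod_mul_distrib]
  rw [h3]
  ring

/-- the positive part of a monomial -/
noncomputable def ypos (R : Type) [CommRing R] (m : σ → ℤ) : MvPolynomial σ R :=
  ∏ i, X i ^ (m i).toNat

/-- the equation `monomial = 1` -/
noncomputable def yrel (R : Type) [CommRing R] (m : σ → ℤ) : MvPolynomial σ R :=
  ypos R m - ypos R (fun i => -m i)

lemma aeval_ypos (m : σ → ℤ) (b : σ → Cˣ) :
    aeval (fun i => (b i : C)) (ypos R m) = ((∏ i, b i ^ m i : Cˣ) : C) *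
      aeval (fun i => (b i : C)) (ypos R (fun i => -m i)) := by
  simp only [ypos, map_prod, map_pow, aeval_X]
  rw [Units.coe_prod, ← Finset.prod_mul_distrib]
  refine Finset.prod_congr rfl fun i _ => ?_
  have h : b i ^ (m i).toNat = b i ^ m i * b i ^ (-m i).toNat := by
    rw [← zpow_natCast, ← zpow_natCast, ← zpow_add]
    congr 1
    omega
  have := congrArg (fun z : Cˣ => (z : C)) h
  simpa using this

lemma aeval_yrel (m : σ → ℤ) (b : σ → Cˣ) (h : ∏ i, b i ^ m i = 1) :
    aeval (fun i => (b i : C)) (yrel R m) = 0 := by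
  rw [yrel, map_sub, aeval_ypos (R := R) m b, h]
  simp

lemma prod_eq_one (m : σ → ℤ) (b : σ → Cˣ) (h : aeval (fun i => (b i : C)) (yrel R m) = 0) :
    ∏ i, b i ^ m i = 1 := by
  rw [yrel, map_sub, aeval_ypos (R := R) m b, sub_eq_zero] at h
  have h1 : aeval (fun i => (b i : C)) (ypos R (fun i => -m i)) =
      ((∏ i, b i ^ (-m i).toNat : Cˣ) : C) := by
    simp only [ypos, map_prod, map_pow, aeval_X]
    rw [Units.coe_prod]
    simp
  rw [h1] at h
  have h2 : (∏ i, b i ^ m i) * (∏ i, b i ^ (-m i).toNat) = ∏ i, b i ^ (-m i).toNat := by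
    apply Units.ext
    rw [Units.val_mul]
    exact h
  exact mul_eq_right.mp h2

end scale

section lau

variable {R : Type} [CommRing R] {σ κ : Type} [Fintype σ] (G : κ → MvPolynomial σ R)

/-- the product of the variables -/
noncomputable def xx (R : Type) [CommRing R] (σ : Type) [Fintype σ] : MvPolynomial σ R := ∏ i, X i

/-- the coordinates are units where all coordinates are different from zero -/
lemma unit_pv (i : σ) : IsUnit (pv G (xx R σ) i) := by
  have h := pc_unit G (xx R σ)
  rw [xx, map_prod] at h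
  exact (IsUnit.prod_univ_iff.mp h) i

/-- the coordinates, as units -/
noncomputable def uv (i : σ) : (Pc G (xx R σ))ˣ := (unit_pv G i).unit

lemma uv_val (i : σ) : (uv G i : Pc G (xx R σ)) = pv G (xx R σ) i := rfl

lemma unit_xx {C : Type} [CommRing C] [Algebra R C] (b : σ → C) (hb : ∀ i, IsUnit (b i)) :
    IsUnit (aeval b (xx R σ)) := by
  rw [xx, map_prod]
  simp only [aeval_X]
  exact IsUnit.prod_univ_iff.mpr hb

variable (c : σ → ℤ) (m : σ → ℤ)

/-- the ring of degree zero -/
abbrev Bz : Type := Pc (adj G (yrel R m)) (xx R σ)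

lemma Bz_rel : ∏ i, uv (adj G (yrel R m)) i ^ m i = 1 := by
  apply prod_eq_one (R := R)
  have h := pc_rel (adj G (yrel R m)) (xx R σ) none
  rw [← pc_aeval] at h
  exact h

/-- the monomial of degree one -/
noncomputable def ym : (Pc G (xx R σ))ˣ := ∏ i, uv G i ^ m i

/-- the units `x_i y ^ (- c_i)` of degree zero -/
noncomputable def zu (i : σ) : (Pc G (xx R σ))ˣ := uv G i * ym G m ^ (-c i)

lemma zu_val (i : σ) : (zu G c m i : Pc G (xx R σ)) =
    pv G (xx R σ) i * ((((ym G m)⁻¹ ^ c i : (Pc G (xx R σ))ˣ)) : Pc G (xx R σ)) := by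
  rw [zu, Units.val_mul, uv_val, inv_zpow']

lemma zu_prod (hm : ∑ i, m i * c i = 1) : ∏ i, zu G c m i ^ m i = 1 := by
  simp only [zu, mul_zpow, Finset.prod_mul_distrib]
  have h1 : ∏ i, (ym G m ^ (-c i)) ^ m i = (ym G m)⁻¹ := by
    have h2 : ∀ i, (ym G m ^ (-c i)) ^ m i = ym G m ^ (-(m i * c i)) := by
      intro i
      rw [← zpow_mul]
      congr 1
      ring
    simp only [h2]
    rw [prod_zpow_sum, Finset.sum_neg_distrib, hm, zpow_neg_one]
  rw [h1]
  change ym G m * (ym G m)⁻¹ = 1
  exact mul_inv_cancel _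

/-- from the ring of degree zero -/
noncomputable def psiB (hG : ∀ k, ∃ d, IsWeightedHomogeneous c (G k) d) (hm : ∑ i, m i * c i = 1) :
    Bz G m →ₐ[R] Pc G (xx R σ) :=
  pcLift (adj G (yrel R m)) (xx R σ) (fun i => (zu G c m i : Pc G (xx R σ)))
    (by
      rintro (_ | k)
      · exact aeval_yrel (R := R) m _ (zu_prod G c m hm)
      · obtain ⟨d, hd⟩ := hG k
        change aeval _ (G k) = 0
        simp only [zu_val]
        rw [scale c hd, pc_aeval, pc_rel, mul_zero])
    (unit_xx _ fun i => (zu G c m i).isUnit)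

open LaurentPolynomial in
/-- the unit `T` -/
noncomputable def Tu (B : Type) [CommRing B] : (LaurentPolynomial B)ˣ where
  val := T 1
  inv := T (-1)
  val_inv := by rw [← T_add]; simp
  inv_val := by rw [← T_add]; simp

open LaurentPolynomial in
lemma Tu_zpow (B : Type) [CommRing B] (n : ℤ) : ((Tu B ^ n : (LaurentPolynomial B)ˣ) :
    LaurentPolynomial B) = T n := by
  have h : ∀ k : ℕ, ((Tu B ^ k : (LaurentPolynomial B)ˣ) : LaurentPolynomial B) = T (k : ℤ) := by
    intro k
    rw [Units.val_pow_eq_pow_val]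
    change (T 1 : LaurentPolynomial B) ^ k = T (k : ℤ)
    rw [T_pow, mul_one]
  rcases n.eq_nat_or_neg with ⟨k, rfl | rfl⟩
  · rw [zpow_natCast, h]
  · rw [zpow_neg, zpow_natCast]
    apply Units.inv_eq_of_mul_eq_one_right
    rw [h, ← T_add]
    simp

/-- the coordinates of degree zero, as units of the ring of Laurent polynomials -/
noncomputable def cu (i : σ) : (LaurentPolynomial (Bz G m))ˣ :=
  Units.map (LaurentPolynomial.C : Bz G m →+* LaurentPolynomial (Bz G m)).toMonoidHom
    (uv (adj G (yrel R m)) i)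

lemma cu_prod : ∏ i, cu G m i ^ m i = 1 := by
  have h := congrArg (Units.map (LaurentPolynomial.C : Bz G m →+* LaurentPolynomial (Bz G m)).toMonoidHom)
    (Bz_rel G m)
  rw [map_prod, map_one] at h
  simp only [map_zpow] at h
  exact h

/-- to the ring of Laurent polynomials -/
noncomputable def phi (hG : ∀ k, ∃ d, IsWeightedHomogeneous c (G k) d) :
    Pc G (xx R σ) →ₐ[R] LaurentPolynomial (Bz G m) :=
  pcLift G (xx R σ) (fun i => (cu G m i : LaurentPolynomial (Bz G m)) *
      ((Tu (Bz G m) ^ c i : (LaurentPolynomial (Bz G m))ˣ) : LaurentPolynomial (Bz G m)))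
    (by
      intro k
      obtain ⟨d, hd⟩ := hG k
      rw [scale c hd]
      have h2 := aeval_pv_comp (adj G (yrel R m)) (xx R σ)
        (C := LaurentPolynomial (Bz G m))
        (IsScalarTower.toAlgHom R (Bz G m) (LaurentPolynomial (Bz G m))) (G k)
      have h3 : pc (adj G (yrel R m)) (xx R σ) (G k) = 0 := pc_rel (adj G (yrel R m)) (xx R σ) (some k)
      rw [h3, map_zero] at h2
      have h4 : (fun i => (cu G m i : LaurentPolynomial (Bz G m))) = fun s =>
        (IsScalarTower.toAlgHom R (Bz G m) (LaurentPolynomial (Bz G m)))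
          (pv (adj G (yrel R m)) (xx R σ) s) := rfl
      rw [h4, h2, mul_zero])
    (unit_xx _ fun i => (cu G m i * Tu (Bz G m) ^ c i).isUnit)

lemma phi_pv (hG : ∀ k, ∃ d, IsWeightedHomogeneous c (G k) d) (i : σ) :
    phi G c m hG (pv G (xx R σ) i) = ((cu G m i * Tu (Bz G m) ^ c i : (LaurentPolynomial (Bz G m))ˣ) :
      LaurentPolynomial (Bz G m)) := by
  rw [phi, pcLift_pv, Units.val_mul]

lemma phi_uv (hG : ∀ k, ∃ d, IsWeightedHomogeneous c (G k) d) (i : σ) :
    Units.map (phi G c m hG : Pc G (xx R σ) →* LaurentPolynomial (Bz G m)) (uv G i) =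
      cu G m i * Tu (Bz G m) ^ c i := by
  apply Units.ext
  exact phi_pv G c m hG i

lemma phi_ym (hG : ∀ k, ∃ d, IsWeightedHomogeneous c (G k) d) (hm : ∑ i, m i * c i = 1) :
    Units.map (phi G c m hG : Pc G (xx R σ) →* LaurentPolynomial (Bz G m)) (ym G m) =
      Tu (Bz G m) := by
  rw [ym, map_prod]
  simp only [map_zpow, phi_uv, mul_zpow, Finset.prod_mul_distrib]
  rw [cu_prod, one_mul]
  have h2 : ∀ i, (Tu (Bz G m) ^ c i) ^ m i = Tu (Bz G m) ^ (m i * c i) := by
    intro i
    rw [← zpow_mul]
    congr 1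
    ring
  simp only [h2]
  rw [prod_zpow_sum, hm, zpow_one]

/-- from the ring of Laurent polynomials -/
noncomputable def psi (hG : ∀ k, ∃ d, IsWeightedHomogeneous c (G k) d) (hm : ∑ i, m i * c i = 1) :
    LaurentPolynomial (Bz G m) →ₐ[R] Pc G (xx R σ) where
  __ := LaurentPolynomial.eval₂ (psiB G c m hG hm : Bz G m →+* Pc G (xx R σ)) (ym G m)
  commutes' r := by
    change LaurentPolynomial.eval₂ (psiB G c m hG hm : Bz G m →+* Pc G (xx R σ)) (ym G m)
      (LaurentPolynomial.C (algebraMap R _ r)) = _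
    rw [LaurentPolynomial.eval₂_C]
    exact (psiB G c m hG hm).commutes r

lemma psi_C (hG : ∀ k, ∃ d, IsWeightedHomogeneous c (G k) d) (hm : ∑ i, m i * c i = 1)
    (b : Bz G m) : psi G c m hG hm (LaurentPolynomial.C b) = psiB G c m hG hm b :=
  LaurentPolynomial.eval₂_C _ _ _

lemma psi_T (hG : ∀ k, ∃ d, IsWeightedHomogeneous c (G k) d) (hm : ∑ i, m i * c i = 1)
    (n : ℤ) : psi G c m hG hm (LaurentPolynomial.T n) =
      ((ym G m ^ n : (Pc G (xx R σ))ˣ) : Pc G (xx R σ)) :=
  LaurentPolynomial.eval₂_T _ _ _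

/-- The ring of a graded ring generated by units is a ring of Laurent polynomials. -/
noncomputable def lauE (hG : ∀ k, ∃ d, IsWeightedHomogeneous c (G k) d)
    (hm : ∑ i, m i * c i = 1) : Pc G (xx R σ) ≃ₐ[R] LaurentPolynomial (Bz G m) :=
  AlgEquiv.ofAlgHom (phi G c m hG) (psi G c m hG hm)
    (by
      apply AlgHom.ext
      intro p
      have h : ((phi G c m hG : Pc G (xx R σ) →+* LaurentPolynomial (Bz G m)).comp
          (psi G c m hG hm : LaurentPolynomial (Bz G m) →+* Pc G (xx R σ))) =
          RingHom.id (LaurentPolynomial (Bz G m)) := by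
        apply AddMonoidAlgebra.ringHom_ext
        · intro b
          change phi G c m hG (psi G c m hG hm (LaurentPolynomial.C b)) = LaurentPolynomial.C b
          rw [psi_C]
          have h1 : (phi G c m hG).comp (psiB G c m hG hm) =
              IsScalarTower.toAlgHom R (Bz G m) (LaurentPolynomial (Bz G m)) := by
            apply pc_ext
            intro i
            rw [AlgHom.comp_apply, psiB, pcLift_pv]
            have h2 : Units.map (phi G c m hG : Pc G (xx R σ) →* LaurentPolynomial (Bz G m))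
                (zu G c m i) = cu G m i := by
              rw [zu, map_mul, map_zpow, phi_uv, phi_ym G c m hG hm, mul_assoc, ← zpow_add]
              simp
            exact congrArg (fun u : (LaurentPolynomial (Bz G m))ˣ => (u : LaurentPolynomial (Bz G m))) h2
          exact DFunLike.congr_fun h1 b
        · intro n
          change phi G c m hG (psi G c m hG hm (LaurentPolynomial.T n)) = LaurentPolynomial.T n
          rw [psi_T, ← Tu_zpow, ← phi_ym G c m hG hm, ← map_zpow]
          rfl
      exact congrArg (fun f : LaurentPolynomial (Bz G m) →+* LaurentPolynomial (Bz G m) => f p) h)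
    (by
      apply pc_ext
      intro i
      rw [AlgHom.comp_apply, phi_pv, Units.val_mul, Tu_zpow, map_mul, psi_T]
      change psi G c m hG hm (LaurentPolynomial.C (pv (adj G (yrel R m)) (xx R σ) i)) * _ = _
      rw [psi_C, psiB, pcLift_pv, ← Units.val_mul, zu, mul_assoc, ← zpow_add]
      simp [uv_val])

end lau

end Pool.Agent.W5h38.TV
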