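import Pool.Agent.H89.L.W5h38_TV_Dim

/-!
# Closed subschemes of affine spaces stable under a torus
-/

set_option autoImplicit false

open CategoryTheory AlgebraicGeometry MvPolynomial Pool.Agent.Y116.UV Pool.Agent.Z125.UN

namespace Pool.Agent.W5h38.TV

section hom

variable {R : Type} [CommRing R] {σ : Type}

lemma weight_sum [Fintype σ] {M : Type} [AddCommMonoid M] (w : σ → M) (s : σ →₀ ℕ) :
    Finsupp.weight w s = ∑ i, s i • w i := by
  rw [Finsupp.weight_apply, Finsupp.sum_fintype _ _ (by simp)]

variable [Fintype σ]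

/-- the weights of degree zero with respect to the first coordinate -/
lemma hom_tail {m : ℕ} (w : σ → Fin (m + 1) → ℤ) (w' : σ → Fin m → ℤ) (c : σ → ℤ)
    (y : Fin (m + 1) → ℤ) (h : ∀ i j, w' i j = w i j.succ - c i * y j.succ)
    {p : MvPolynomial σ R} {d : Fin (m + 1) → ℤ} {e : ℤ} (h1 : IsWeightedHomogeneous w p d)
    (h2 : IsWeightedHomogeneous c p e) :
    IsWeightedHomogeneous w' p (fun j => d j.succ - e * y j.succ) := by
  intro s hs
  have h3 := h1 hs
  have h4 := h2 hs
  rw [weight_sum] at h3 h4 ⊢
  funext j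
  have h5 : (∑ i, s i • w i) j.succ = d j.succ := by rw [h3]
  rw [Finset.sum_apply] at h5 ⊢
  simp only [Pi.smul_apply, nsmul_eq_mul] at h5 h4 ⊢
  rw [← h5, ← h4, Finset.sum_mul, ← Finset.sum_sub_distrib]
  refine Finset.sum_congr rfl fun i _ => ?_
  rw [h]
  ring

/-- division of the first coordinate by the greatest common divisor -/
lemma hom_div {m : ℕ} (w : σ → Fin (m + 1) → ℤ) (c : σ → ℤ) {g : ℤ} (hg : g ≠ 0)
    (h : ∀ i, w i 0 = c i * g) {p : MvPolynomial σ R} {d : Fin (m + 1) → ℤ}
    (h1 : IsWeightedHomogeneous w p d) : ∃ e, IsWeightedHomogeneous c p e := by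
  refine ⟨d 0 / g, ?_⟩
  intro s hs
  have h3 := h1 hs
  rw [weight_sum] at h3 ⊢
  have h5 : (∑ i, s i • w i) 0 = d 0 := by rw [h3]
  rw [Finset.sum_apply] at h5
  simp only [Pi.smul_apply, nsmul_eq_mul] at h5 ⊢
  have h6 : (∑ i, (s i : ℤ) * c i) * g = d 0 := by
    rw [← h5, Finset.sum_mul]
    refine Finset.sum_congr rfl fun i _ => ?_
    rw [h]
    ring
  rw [← h6, Int.mul_ediv_cancel _ hg]

lemma hom_ypos {M : Type} [AddCommMonoid M] (w : σ → M) (m : σ → ℤ) :
    IsWeightedHomogeneous w (ypos R m) (∑ i, (m i).toNat • w i) := by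
  rw [ypos]
  exact IsWeightedHomogeneous.prod _ _ _ fun i _ => (isWeightedHomogeneous_X R w i).pow _

lemma hom_yrel {m : ℕ} (w : σ → Fin m → ℤ) (a : σ → ℤ) (h : ∀ j, ∑ i, a i * w i j = 0) :
    ∃ d, IsWeightedHomogeneous w (yrel R a) d := by
  refine ⟨∑ i, (a i).toNat • w i, ?_⟩
  have h1 : ∑ i, (a i).toNat • w i = ∑ i, (-a i).toNat • w i := by
    funext j
    rw [Finset.sum_apply, Finset.sum_apply, ← sub_eq_zero, ← Finset.sum_sub_distrib, ← h j]
    refine Finset.sum_congr rfl fun i _ => ?_
    simp only [Pi.smul_apply, nsmul_eq_mul]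
    rw [← sub_mul]
    congr 1
    omega
  have h2 := hom_ypos (R := R) w a
  have h3 := hom_ypos (R := R) w (fun i => -a i)
  rw [← h1] at h3
  exact (weightedHomogeneousSubmodule R w _).sub_mem h2 h3

end hom

lemma le_of_succ (x : WithBot ℕ∞) (k : ℕ) (h : x + 1 ≤ ((k : ℕ) : WithBot ℕ∞) + 1) :
    x ≤ ((k : ℕ) : WithBot ℕ∞) := by
  induction x using WithBot.recBotCoe with
  | bot => exact bot_le
  | coe a =>
    have h1 : ((a + 1 : ℕ∞) : WithBot ℕ∞) ≤ (((k : ℕ∞) + 1 : ℕ∞) : WithBot ℕ∞) := by
      exact_mod_cast h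
    rw [WithBot.coe_le_coe] at h1
    have h2 : a ≤ (k : ℕ∞) := by
      exact (ENat.add_le_add_iff_right ENat.one_ne_top).mp h1
    exact_mod_cast h2

section units

variable {R : Type} [CommRing R] {sep : Prop} {P : Sch R → Prop} (hP : Bnd sep P) {n : ℕ}
  (hn : ∀ (A : Type) [CommRing A] [Algebra R A] [Algebra.FiniteType R A], ringKrullDim A ≤ n →
    P (aff R A))

include hP hn

/-- The case of the points with all coordinates different from zero. -/
theorem p_units : ∀ (m : ℕ) {σ κ : Type} [Fintype σ] (G : κ → MvPolynomial σ R)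
    (w : σ → Fin m → ℤ), (∀ k, ∃ d, IsWeightedHomogeneous w (G k) d) →
    ringKrullDim (Pc G (xx R σ)) ≤ ((n + rk w : ℕ) : WithBot ℕ∞) → P (aff R (Pc G (xx R σ))) := by
  intro m
  induction m with
  | zero =>
    intro σ κ _ G w _ hd
    rw [rk_zero, add_zero] at hd
    exact hn _ hd
  | succ m ih =>
    intro σ κ _ G w hG hd
    by_cases h0 : ∀ i, w i 0 = 0
    · refine ih G (fun i j => w i j.succ) (fun k => ?_) ?_
      · obtain ⟨d, hd⟩ := hG k
        have hc : ∃ e, IsWeightedHomogeneous (fun _ : σ => (0 : ℤ)) (G k) e := by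
          refine ⟨0, ?_⟩
          intro s _
          rw [weight_sum]
          simp
        obtain ⟨e, he⟩ := hc
        exact ⟨_, hom_tail w (fun i j => w i j.succ) (fun _ => 0) 0 (by simp) hd he⟩
      · refine hd.trans ?_
        have h1 : rk w ≤ rk (fun (i : σ) (j : Fin m) => w i j.succ) := by
          let ι : (Fin m → ℚ) →ₗ[ℚ] (Fin (m + 1) → ℚ) :=
            { toFun := fun v => Fin.cons 0 v
              map_add' := fun a b => by
                funext j
                refine Fin.cases ?_ (fun j => ?_) j <;> simp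
              map_smul' := fun a b => by
                funext j
                refine Fin.cases ?_ (fun j => ?_) j <;> simp }
          have h2 : Submodule.span ℚ (Set.range fun (i : σ) (j : Fin (m + 1)) => (w i j : ℚ)) ≤
              (Submodule.span ℚ (Set.range fun (i : σ) (j : Fin m) => (w i j.succ : ℚ))).map ι := by
            rw [Submodule.span_le]
            rintro _ ⟨i, rfl⟩
            refine ⟨_, Submodule.subset_span ⟨i, rfl⟩, ?_⟩
            funext j
            refine Fin.cases ?_ (fun j => ?_) j
            · change (0 : ℚ) = (w i 0 : ℚ)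
              rw [h0]
              simp
            · rfl
          exact (Submodule.finrank_mono h2).trans (Submodule.finrank_map_le _ _)
        exact_mod_cast Nat.add_le_add_left h1 n
    · obtain ⟨i0, hi0⟩ := not_forall.mp h0
      obtain ⟨g, a, c, hc, hag, hac⟩ := exists_gcd (fun i => w i 0) i0 hi0
      have hg : g ≠ 0 := by
        rintro rfl
        exact hi0 (by have := hc i0; simpa using this)
      -- the weight of the monomial
      let y : Fin (m + 1) → ℤ := fun j => ∑ i, a i * w i j
      let w' : σ → Fin m → ℤ := fun i j => w i j.succ - c i * y j.succ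
      have hcG : ∀ k, ∃ e, IsWeightedHomogeneous c (G k) e := by
        intro k
        obtain ⟨d, hd⟩ := hG k
        exact hom_div w c hg hc hd
      -- the equation of the monomial
      have hy : ∀ j, ∑ i, a i * w' i j = 0 := by
        intro j
        have h1 : ∀ i, a i * w' i j = a i * w i j.succ - (a i * c i) * y j.succ := by
          intro i
          simp only [w']
          ring
        simp only [h1, Finset.sum_sub_distrib]
        rw [← Finset.sum_mul, hac]
        simp [y]
      have hB : P (aff R (Pc (adj G (yrel R a)) (xx R σ))) := by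
        refine ih (adj G (yrel R a)) w' ?_ ?_
        · rintro (_ | k)
          · exact hom_yrel w' a hy
          · obtain ⟨d, hd⟩ := hG k
            obtain ⟨e, he⟩ := hcG k
            exact ⟨_, hom_tail w w' c y (fun i j => rfl) hd he⟩
        · have h1 := dim_laurent (Pc (adj G (yrel R a)) (xx R σ))
          have h2 : ringKrullDim (LaurentPolynomial (Pc (adj G (yrel R a)) (xx R σ))) =
              ringKrullDim (Pc G (xx R σ)) :=
            (ringKrullDim_eq_of_ringEquiv (lauE G c a hcG hac).toRingEquiv).symm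
          have h3 : rk w ≤ rk w' + 1 := rk_le w w' c y (fun i => by
            rw [hc i]
            congr 1
            exact hag.symm) (fun i j => rfl)
          rw [h2] at h1
          have h4 : ringKrullDim (Pc (adj G (yrel R a)) (xx R σ)) + 1 ≤
              ((n + rk w' : ℕ) : WithBot ℕ∞) + 1 := by
            refine h1.trans (hd.trans ?_)
            have h5 : n + rk w ≤ n + rk w' + 1 := by omega
            exact_mod_cast h5
          exact le_of_succ _ _ h4
      have hft : Algebra.FiniteType R (LaurentPolynomial (Bz G a)) :=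
        Algebra.FiniteType.equiv inferInstance (lauE G c a hcG hac)
      exact iso_alg hP.toUni (lauE G c a hcG hac).symm (p_laurent hP hB)

end units

end Pool.Agent.W5h38.TV
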