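import Pool.Agent.H89.L.W5h68_SP_Cl
import Pool.Agent.H89.L.W5h68_SP_Dm

/-!
# Closed subschemes of tori given by functions of a subgroup of the characters
-/

set_option autoImplicit false

open Pool.Agent.Z125.UN Pool.Agent.Y116.UV

namespace Pool.Agent.W5h68.SP

section ga

variable {k : Type} [Field k] {M C : Type} [AddCommGroup M] [Semiring C] [Algebra k C]

/-- the character -/
noncomputable def gm (k : Type) [Field k] {M : Type} [AddCommGroup M] (m : M) :
    AddMonoidAlgebra k M := AddMonoidAlgebra.single m 1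

lemma gm_zero : gm k (0 : M) = 1 := rfl

lemma gm_add (a b : M) : gm k (a + b) = gm k a * gm k b := by
  rw [gm, gm, gm, AddMonoidAlgebra.single_mul_single, mul_one]

/-- the character as a unit -/
noncomputable def gu (k : Type) [Field k] {M : Type} [AddCommGroup M] :
    M →+ Additive (AddMonoidAlgebra k M)ˣ where
  toFun m := Additive.ofMul ⟨gm k m, gm k (-m), by rw [← gm_add, add_neg_cancel, gm_zero],
    by rw [← gm_add, neg_add_cancel, gm_zero]⟩
  map_zero' := by
    apply Additive.toMul.injective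
    apply Units.ext
    exact gm_zero
  map_add' a b := by
    apply Additive.toMul.injective
    apply Units.ext
    exact gm_add a b

lemma gu_val (m : M) : (((gu k m).toMul : (AddMonoidAlgebra k M)ˣ) : AddMonoidAlgebra k M) = gm k m :=
  rfl

/-- the homomorphism given by the values of the characters -/
noncomputable def gl (φ : M → C) (h0 : φ 0 = 1) (h : ∀ a b, φ (a + b) = φ a * φ b) :
    AddMonoidAlgebra k M →ₐ[k] C :=
  AddMonoidAlgebra.lift k C M
    { toFun := fun m => φ m.toAdd
      map_one' := h0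
      map_mul' := fun _ _ => h _ _ }

lemma gl_gm (φ : M → C) (h0 : φ 0 = 1) (h : ∀ a b, φ (a + b) = φ a * φ b) (m : M) :
    gl (k := k) φ h0 h (gm k m) = φ m := by
  rw [gl, gm, AddMonoidAlgebra.lift_single, one_smul]
  rfl

lemma ga_ext {f g : AddMonoidAlgebra k M →ₐ[k] C} (h : ∀ m, f (gm k m) = g (gm k m)) : f = g := by
  apply AddMonoidAlgebra.algHom_ext'
  · apply MonoidHom.ext
    intro m
    exact h m.toAdd
  · exact Subsingleton.elim _ _

lemma ga_induction {p : AddMonoidAlgebra k M → Prop} (h0 : p 0) (h1 : ∀ (a : k) (m : M),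
    p (algebraMap k _ a * gm k m)) (h2 : ∀ x y, p x → p y → p (x + y)) (x : AddMonoidAlgebra k M) :
    p x := by
  induction x using AddMonoidAlgebra.induction with
  | zero => exact h0
  | single_add a b f _ _ ih =>
    refine h2 _ _ ?_ ih
    have h3 := h1 b a
    rwa [gm, ← Algebra.smul_def, AddMonoidAlgebra.smul_single, smul_eq_mul, mul_one] at h3

variable {L : Type} [AddCommGroup L]

/-- the homomorphism of group algebras -/
noncomputable def gmap (k : Type) [Field k] {L M : Type} [AddCommGroup L] [AddCommGroup M]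
    (f : L →+ M) : AddMonoidAlgebra k L →ₐ[k] AddMonoidAlgebra k M :=
  gl (fun l => gm k (f l)) (by rw [map_zero, gm_zero]) (fun a b => by rw [map_add, gm_add])

lemma gmap_gm (f : L →+ M) (l : L) : gmap k f (gm k l) = gm k (f l) := gl_gm _ _ _ _

end ga

section split

variable {k : Type} [Field k] {L M : Type} [AddCommGroup L] [AddCommGroup M]

variable (φ : M →+ ℤ) (m₀ : M) (h₀ : φ m₀ = 1)

/-- the projection to the kernel -/
def prk : M →+ φ.ker where
  toFun m := ⟨m - φ m • m₀, by
    rw [AddMonoidHom.mem_ker, map_sub, map_zsmul, h₀, smul_eq_mul, mul_one, sub_self]⟩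
  map_zero' := by
    apply Subtype.ext
    simp
  map_add' a b := by
    apply Subtype.ext
    simp only [map_add, AddSubgroup.coe_add, add_smul]
    abel

lemma prk_coe (m : M) : ((prk φ m₀ h₀ m : φ.ker) : M) = m - φ m • m₀ := rfl

lemma prk_self : prk φ m₀ h₀ m₀ = 0 := by
  apply Subtype.ext
  rw [prk_coe, h₀, one_smul, sub_self]
  rfl

lemma prk_ker (m : φ.ker) : prk φ m₀ h₀ (m : M) = m := by
  apply Subtype.ext
  rw [prk_coe, m.2, zero_smul, sub_zero]

/-- the algebra of Laurent polynomials over the algebra of the kernel -/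
lemma split_equiv {B B₀ : Type} [CommRing B] [Algebra k B] [CommRing B₀] [Algebra k B₀]
    (q : AddMonoidAlgebra k M →ₐ[k] B) (q₀ : AddMonoidAlgebra k φ.ker →ₐ[k] B₀)
    (hq : Function.Surjective q) (hq₀ : Function.Surjective q₀) (F : B →ₐ[k] LaurentPolynomial B₀)
    (hF : ∀ m, F (q (gm k m)) = LaurentPolynomial.C (q₀ (gm k (prk φ m₀ h₀ m))) *
      LaurentPolynomial.T (φ m)) (I : B₀ →ₐ[k] B)
    (hI : ∀ m : φ.ker, I (q₀ (gm k m)) = q (gm k (m : M))) :
    Nonempty (B ≃ₐ[k] LaurentPolynomial B₀) := by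
  let u : Bˣ := Units.map (q : AddMonoidAlgebra k M →* B) (gu k m₀).toMul
  have hu : ∀ n : ℤ, ((u ^ n : Bˣ) : B) = q (gm k (n • m₀)) := by
    intro n
    rw [← map_zpow, ← gu_val, map_zsmul]
    rfl
  let G : LaurentPolynomial B₀ →+* B := LaurentPolynomial.eval₂ I.toRingHom u
  have hGC : ∀ a, G (LaurentPolynomial.C a) = I a := fun a => LaurentPolynomial.eval₂_C _ _ _
  have hGT : ∀ n, G (LaurentPolynomial.T n) = q (gm k (n • m₀)) := fun n => by
    rw [← hu]
    exact LaurentPolynomial.eval₂_T _ _ _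
  have hFI : ∀ a, F (I a) = LaurentPolynomial.C a := by
    intro a
    have h : (F.comp I).comp q₀ = (IsScalarTower.toAlgHom k B₀ (LaurentPolynomial B₀)).comp q₀ := by
      apply ga_ext
      intro m
      have h1 : F (I (q₀ (gm k m))) = LaurentPolynomial.C (q₀ (gm k m)) := by
        rw [hI, hF, prk_ker, m.2, LaurentPolynomial.T_zero, mul_one]
      exact h1
    obtain ⟨b, rfl⟩ := hq₀ a
    exact congrArg (fun f : AddMonoidAlgebra k φ.ker →ₐ[k] _ => f b) h
  have h1 : F.toRingHom.comp G = RingHom.id _ := by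
    apply laurent_hom_ext
    · intro a
      change F (G (LaurentPolynomial.C a)) = LaurentPolynomial.C a
      rw [hGC, hFI]
    · change F (G (LaurentPolynomial.T 1)) = LaurentPolynomial.T 1
      rw [hGT, one_smul, hF, prk_self, h₀, gm_zero, map_one, map_one, one_mul]
  have hc : ∀ r : k, G (F (algebraMap k _ r)) = algebraMap k _ r := by
    intro r
    rw [AlgHom.commutes]
    have h : algebraMap k (LaurentPolynomial B₀) r = LaurentPolynomial.C (algebraMap k B₀ r) := rfl
    rw [h, hGC, AlgHom.commutes]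
  let f : B →ₐ[k] B := { G.comp F.toRingHom with commutes' := hc }
  have h2 : ∀ b, G (F b) = b := by
    intro b
    obtain ⟨x, rfl⟩ := hq b
    have h3 : f.comp q = q := by
      apply ga_ext
      intro m
      change G (F (q (gm k m))) = q (gm k m)
      rw [hF, map_mul, hGC, hGT, hI, prk_coe, ← map_mul, ← gm_add, sub_add_cancel]
    exact congrArg (fun f : AddMonoidAlgebra k M →ₐ[k] _ => f x) h3
  exact ⟨AlgEquiv.ofRingEquiv (f := RingEquiv.ofRingHom F.toRingHom G h1 (RingHom.ext h2))
    (fun r => F.commutes r)⟩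

variable (ι : L →+ M) (S : Set (AddMonoidAlgebra k L))

/-- the ring of functions on the closed subscheme of the torus with the group of characters `M` given
by functions in characters of `L` -/
abbrev GQ : Type := AddMonoidAlgebra k M ⧸ Ideal.span (gmap k ι '' S)

/-- the class -/
noncomputable def qm : AddMonoidAlgebra k M →ₐ[k] GQ ι S := Ideal.Quotient.mkₐ k _

lemma qm_surj : Function.Surjective (qm ι S) := Ideal.Quotient.mkₐ_surjective k _

lemma qm_rel (s : AddMonoidAlgebra k L) (hs : s ∈ S) : qm ι S (gmap k ι s) = 0 :=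
  Ideal.Quotient.eq_zero_iff_mem.mpr (Ideal.subset_span ⟨s, hs, rfl⟩)

/-- homomorphisms to other rings -/
lemma gq_lift {C : Type} [Semiring C] [Algebra k C] (f : AddMonoidAlgebra k M →ₐ[k] C)
    (h : ∀ s ∈ S, f (gmap k ι s) = 0) : ∃ g : GQ ι S →ₐ[k] C, ∀ x, g (qm ι S x) = f x :=
  ⟨Ideal.Quotient.liftₐ _ f (by
    have h1 : Ideal.span (gmap k ι '' S) ≤ RingHom.ker f := by
      rw [Ideal.span_le]
      rintro _ ⟨s, hs, rfl⟩
      exact h s hs
    exact fun a ha => h1 ha), fun _ => rfl⟩

/-- the corestriction -/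
def cor (ι : L →+ M) (φ : M →+ ℤ) (hι : ∀ l, φ (ι l) = 0) : L →+ φ.ker :=
  ι.codRestrict φ.ker hι

variable (hι : ∀ l, φ (ι l) = 0)

include h₀ in
/-- the splitting of a factor `𝔾_m` -/
lemma gq_split : Nonempty (GQ ι S ≃ₐ[k] LaurentPolynomial (GQ (cor ι φ hι) S)) := by
  have key : ∀ (B₀ : Type) [CommRing B₀] [Algebra k B₀] (q₀ : AddMonoidAlgebra k φ.ker →ₐ[k] B₀),
      (∀ s ∈ S, q₀ (gmap k (cor ι φ hι) s) = 0) → ∃ F : GQ ι S →ₐ[k] LaurentPolynomial B₀,
      ∀ m, F (qm ι S (gm k m)) = LaurentPolynomial.C (q₀ (gm k (prk φ m₀ h₀ m))) *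
      LaurentPolynomial.T (φ m) := by
    intro B₀ _ _ q₀ hS
    have e0 : (fun m => LaurentPolynomial.C (q₀ (gm k (prk φ m₀ h₀ m))) *
        LaurentPolynomial.T (φ m)) 0 = 1 := by
      change LaurentPolynomial.C (q₀ (gm k (prk φ m₀ h₀ 0))) * LaurentPolynomial.T (φ 0) = 1
      rw [map_zero, map_zero, gm_zero, map_one, map_one, LaurentPolynomial.T_zero, mul_one]
    let f : AddMonoidAlgebra k M →ₐ[k] LaurentPolynomial B₀ :=
      gl (fun m => LaurentPolynomial.C (q₀ (gm k (prk φ m₀ h₀ m))) * LaurentPolynomial.T (φ m)) e0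
        (fun a b => by
          rw [map_add, map_add, gm_add, map_mul, map_mul, LaurentPolynomial.T_add]
          ring)
    have hf : ∀ m, f (gm k m) = LaurentPolynomial.C (q₀ (gm k (prk φ m₀ h₀ m))) *
        LaurentPolynomial.T (φ m) := fun m => gl_gm _ _ _ _
    have h1 : f.comp (gmap k ι) = (IsScalarTower.toAlgHom k B₀ (LaurentPolynomial B₀)).comp
        (q₀.comp (gmap k (cor ι φ hι))) := by
      apply ga_ext
      intro l
      have h2 : prk φ m₀ h₀ (ι l) = cor ι φ hι l := prk_ker φ m₀ h₀ (cor ι φ hι l)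
      have h3 : f (gmap k ι (gm k l)) =
          LaurentPolynomial.C (q₀ (gmap k (cor ι φ hι) (gm k l))) := by
        rw [gmap_gm, hf, hι, LaurentPolynomial.T_zero, mul_one, h2, gmap_gm]
      exact h3
    obtain ⟨F, hF⟩ := gq_lift ι S f (by
      intro s hs
      have h2 := congrArg (fun f : AddMonoidAlgebra k L →ₐ[k] LaurentPolynomial B₀ => f s) h1
      refine h2.trans ?_
      change LaurentPolynomial.C (q₀ (gmap k (cor ι φ hι) s)) = 0
      rw [hS s hs, map_zero])
    exact ⟨F, fun m => by rw [hF, hf]⟩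
  obtain ⟨F, hF⟩ := key (GQ (cor ι φ hι) S) (qm (cor ι φ hι) S) (qm_rel _ _)
  obtain ⟨I, hI⟩ := gq_lift (cor ι φ hι) S ((qm ι S).comp (gmap k φ.ker.subtype)) (by
    intro s hs
    have h1 : (gmap k φ.ker.subtype).comp (gmap k (cor ι φ hι)) = gmap k ι := by
      apply ga_ext
      intro l
      rw [AlgHom.comp_apply, gmap_gm, gmap_gm, gmap_gm]
      rfl
    have h2 := congrArg (fun f : AddMonoidAlgebra k L →ₐ[k] AddMonoidAlgebra k M => f s) h1
    change gmap k φ.ker.subtype (gmap k (cor ι φ hι) s) = gmap k ι s at h2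
    rw [AlgHom.comp_apply, h2, qm_rel ι S s hs])
  refine split_equiv φ m₀ h₀ (qm ι S) (qm (cor ι φ hι) S) (qm_surj _ _) (qm_surj _ _) F hF I ?_
  intro m
  rw [hI, AlgHom.comp_apply, gmap_gm]
  rfl

end split

end Pool.Agent.W5h68.SP
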