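import Pool.Agent.H89.L.W5h68_SP_Tor

/-!
# The decomposition of the affine space into tori
-/

set_option autoImplicit false

open MvPolynomial Pool.Agent.Z125.UN Pool.Agent.Y116.UV

namespace Pool.Agent.W5h68.SP

section

variable {k : Type} [Field k] {Q : (A : Type) → [CommRing A] → [Algebra k A] → Prop}
  (hQ : Cl k Q) {σ : Type} [Finite σ]

include hQ in
lemma q_total {κ : Type} {G : κ → MvPolynomial σ k} {w e : MvPolynomial σ k}
    (hc : Q (Pc (adj G e) w)) (ho : Q (Pc G (w * e))) : Q (Pc G w) :=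
  hQ.total (pc G w e) (hQ.iso (cloE G w e).symm hc) (hQ.iso (opnE G w e).symm ho)

/-- The piece `G' = 0`, `w ≠ 0` is the part of `G = 0` where the coordinates in `U` are not zero and
the coordinates in `T` are zero. -/
structure St {κ : Type} (G : κ → MvPolynomial σ k) (U T : Set σ) {κ' : Type}
    (G' : κ' → MvPolynomial σ k) (w : MvPolynomial σ k) : Prop where
  rel : ∀ j, G j ∈ Ideal.span (Set.range G')
  rel' : ∀ j, G' j ∈ Ideal.span (Set.range G ∪ X '' T)
  zero : ∀ i ∈ T, X i ∈ Ideal.span (Set.range G')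
  unit : ∀ i ∈ U, X i ∣ w
  unit' : w ∈ Submonoid.closure (X '' U : Set (MvPolynomial σ k))
  disj : ∀ i ∈ U, i ∉ T

variable {κ : Type} {G : κ → MvPolynomial σ k}

lemma st_start : St G ∅ ∅ G 1 where
  rel j := Ideal.subset_span ⟨j, rfl⟩
  rel' j := Ideal.subset_span (Or.inl ⟨j, rfl⟩)
  zero i hi := hi.elim
  unit i hi := hi.elim
  unit' := one_mem _
  disj i hi := hi.elim

lemma st_closed {U T : Set σ} {κ' : Type} {G' : κ' → MvPolynomial σ k} {w : MvPolynomial σ k}
    (h : St G U T G' w) {i : σ} (hi : i ∉ U) : St G U (insert i T) (adj G' (X i)) w := by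
  have h1 : Ideal.span (Set.range G') ≤ Ideal.span (Set.range (adj G' (X i))) := by
    rw [Ideal.span_le]
    rintro _ ⟨j, rfl⟩
    exact Ideal.subset_span ⟨some j, rfl⟩
  have h2 : Ideal.span (Set.range G ∪ X '' T) ≤
      Ideal.span (Set.range G ∪ X '' (insert i T)) :=
    Ideal.span_mono (Set.union_subset_union_right _ (Set.image_mono (Set.subset_insert _ _)))
  refine ⟨fun j => h1 (h.rel j), ?_, ?_, h.unit, h.unit', ?_⟩
  · rintro (_ | j)
    · exact Ideal.subset_span (Or.inr ⟨i, Set.mem_insert _ _, rfl⟩)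
    · exact h2 (h.rel' j)
  · rintro j (rfl | hj)
    · exact Ideal.subset_span ⟨none, rfl⟩
    · exact h1 (h.zero j hj)
  · rintro j hj (rfl | hj')
    · exact hi hj
    · exact h.disj j hj hj'

lemma st_open {U T : Set σ} {κ' : Type} {G' : κ' → MvPolynomial σ k} {w : MvPolynomial σ k}
    (h : St G U T G' w) {i : σ} (hi : i ∉ T) : St G (insert i U) T G' (w * X i) := by
  refine ⟨h.rel, h.rel', h.zero, ?_, ?_, ?_⟩
  · rintro j (rfl | hj)
    · exact dvd_mul_left _ _
    · exact (h.unit j hj).mul_right _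
  · refine mul_mem (Submonoid.closure_mono (Set.image_mono (Set.subset_insert _ _)) h.unit') ?_
    exact Submonoid.subset_closure ⟨i, Set.mem_insert _ _, rfl⟩
  · rintro j (rfl | hj)
    · exact hi
    · exact h.disj j hj

include hQ in
lemma strat (hfin : ∀ (U : Set σ) (κ' : Type) (G' : κ' → MvPolynomial σ k) (w : MvPolynomial σ k),
    St G U Uᶜ G' w → Q (Pc G' w)) : ∀ (n : ℕ) (U T : Set σ) (κ' : Type)
      (G' : κ' → MvPolynomial σ k) (w : MvPolynomial σ k), St G U T G' w →
      ((U ∪ T)ᶜ).ncard = n → Q (Pc G' w) := by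
  intro n
  induction n with
  | zero =>
    intro U T κ' G' w h hn
    rw [Set.ncard_eq_zero, Set.compl_empty_iff] at hn
    have h1 : T = Uᶜ := by
      ext i
      constructor
      · intro hi hi'
        exact h.disj i hi' hi
      · intro hi
        have h2 : i ∈ U ∪ T := by rw [hn]; trivial
        exact h2.resolve_left hi
    subst h1
    exact hfin U κ' G' w h
  | succ n ih =>
    intro U T κ' G' w h hn
    have h1 : ((U ∪ T)ᶜ).Nonempty := by
      rw [← Set.ncard_pos]
      omega
    obtain ⟨i, hi⟩ := h1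
    have hU : i ∉ U := fun h => hi (Or.inl h)
    have hT : i ∉ T := fun h => hi (Or.inr h)
    have h2 : ((U ∪ T)ᶜ \ {i}).ncard = n := by
      rw [Set.ncard_sdiff_singleton_of_mem hi, hn]
      rfl
    refine q_total hQ (ih _ _ _ _ _ (st_closed h hU) ?_) (ih _ _ _ _ _ (st_open h hT) ?_)
    · rw [← h2]
      congr 1
      ext j
      simp only [Set.mem_compl_iff, Set.mem_union, Set.mem_insert_iff, Set.mem_sdiff,
        Set.mem_singleton_iff]
      tauto
    · rw [← h2]
      congr 1
      ext j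
      simp only [Set.mem_compl_iff, Set.mem_union, Set.mem_insert_iff, Set.mem_sdiff,
        Set.mem_singleton_iff]
      tauto

end

section fin

variable {k : Type} [Field k] {σ : Type} {κ : Type} {G : κ → MvPolynomial σ k}

open Classical in
/-- the coordinates on the torus of the coordinates in `U` -/
noncomputable def xu (k : Type) [Field k] {σ : Type} (U : Set σ) (i : σ) :
    AddMonoidAlgebra k (U →₀ ℤ) :=
  if h : i ∈ U then gm k (Finsupp.single ⟨i, h⟩ 1) else 0

lemma xu_mem {U : Set σ} {i : σ} (h : i ∈ U) : xu k U i = gm k (Finsupp.single ⟨i, h⟩ 1) :=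
  dif_pos h

lemma xu_not {U : Set σ} {i : σ} (h : i ∉ U) : xu k U i = 0 := dif_neg h

lemma gm_unit {M : Type} [AddCommGroup M] (m : M) : IsUnit (gm k m) :=
  ⟨(gu k m).toMul, rfl⟩

/-- homomorphisms from the ring of the torus agree if they agree on the coordinates -/
lemma ga_ext' {U : Set σ} {C : Type} [CommRing C] [Algebra k C]
    {f g : AddMonoidAlgebra k (U →₀ ℤ) →ₐ[k] C} (h : ∀ i ∈ U, f (xu k U i) = g (xu k U i)) :
    f = g := by
  apply ga_ext
  let u : (U →₀ ℤ) →+ Additive Cˣ := ((Units.map (f : _ →* C)).toAdditive).comp (gu k)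
  let v : (U →₀ ℤ) →+ Additive Cˣ := ((Units.map (g : _ →* C)).toAdditive).comp (gu k)
  have h1 : u = v := by
    apply Finsupp.addHom_ext'
    rintro ⟨i, hi⟩
    apply AddMonoidHom.ext_int
    apply Additive.toMul.injective
    apply Units.ext
    have h2 := h i hi
    rw [xu_mem hi] at h2
    exact h2
  intro m
  exact congrArg (fun φ : (U →₀ ℤ) →+ Additive Cˣ => ((φ m).toMul : C)) h1

/-- the ring of functions on a stratum -/
abbrev Fin' (G : κ → MvPolynomial σ k) (U : Set σ) : Type :=
  AddMonoidAlgebra k (U →₀ ℤ) ⧸ Ideal.span (Set.range fun j => aeval (xu k U) (G j))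

lemma st_fin {U : Set σ} {κ' : Type} {G' : κ' → MvPolynomial σ k} {w : MvPolynomial σ k}
    (h : St G U Uᶜ G' w) : Nonempty (Pc G' w ≃ₐ[k] Fin' G U) := by
  let q : AddMonoidAlgebra k (U →₀ ℤ) →ₐ[k] Fin' G U := Ideal.Quotient.mkₐ k _
  have hq : ∀ p : MvPolynomial σ k, aeval (fun i => q (xu k U i)) p = q (aeval (xu k U) p) := by
    intro p
    have h1 : aeval (fun i => q (xu k U i)) = q.comp (aeval (xu k U)) := by
      apply MvPolynomial.algHom_ext
      intro i
      rw [aeval_X, AlgHom.comp_apply, aeval_X]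
    rw [h1]
    rfl
  have hz : ∀ j, aeval (fun i => q (xu k U i)) (G' j) = 0 := by
    intro j
    have h1 : Ideal.span (Set.range G ∪ X '' Uᶜ) ≤
        RingHom.ker (aeval (fun i => q (xu k U i)) : MvPolynomial σ k →ₐ[k] Fin' G U) := by
      rw [Ideal.span_le]
      rintro _ (⟨j, rfl⟩ | ⟨i, hi, rfl⟩)
      · change aeval (fun i => q (xu k U i)) (G j) = 0
        rw [hq]
        exact Ideal.Quotient.eq_zero_iff_mem.mpr (Ideal.subset_span ⟨j, rfl⟩)
      · change aeval (fun i => q (xu k U i)) (X i) = 0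
        rw [aeval_X, xu_not hi, map_zero]
    exact h1 (h.rel' j)
  have hw : IsUnit (aeval (fun i => q (xu k U i)) w) := by
    have h1 : Submonoid.closure (X '' U : Set (MvPolynomial σ k)) ≤
        (IsUnit.submonoid (Fin' G U)).comap (aeval (fun i => q (xu k U i))) := by
      rw [Submonoid.closure_le]
      rintro _ ⟨i, hi, rfl⟩
      change IsUnit (aeval (fun i => q (xu k U i)) (X i))
      rw [aeval_X, xu_mem hi]
      exact (gm_unit _).map _
    exact h1 h.unit'
  let F : Pc G' w →ₐ[k] Fin' G U := pcLift G' w (fun i => q (xu k U i)) hz hw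
  have hF : ∀ i, F (pv G' w i) = q (xu k U i) := fun i => pcLift_pv _ _ _ _ _ _
  -- the inverse
  have hu : ∀ i : U, IsUnit (pv G' w i) := by
    rintro ⟨i, hi⟩
    exact isUnit_of_dvd_unit (map_dvd (pc G' w) (h.unit i hi)) (pc_unit G' w)
  let ψ : (U →₀ ℤ) →+ Additive (Pc G' w)ˣ :=
    Finsupp.liftAddHom fun i => zmultiplesHom _ (Additive.ofMul (hu i).unit)
  let g : AddMonoidAlgebra k (U →₀ ℤ) →ₐ[k] Pc G' w :=
    gl (fun m => ((ψ m).toMul : Pc G' w)) (by rw [map_zero]; rfl) (fun a b => by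
      rw [map_add]
      rfl)
  have hg : ∀ i ∈ U, g (xu k U i) = pv G' w i := by
    intro i hi
    have h1 : ψ (Finsupp.single (⟨i, hi⟩ : U) 1) = Additive.ofMul (hu ⟨i, hi⟩).unit := by
      change Finsupp.liftAddHom _ _ = _
      rw [Finsupp.liftAddHom_apply_single]
      exact one_zsmul _
    have h2 : g (gm k (Finsupp.single (⟨i, hi⟩ : U) 1)) =
        ((ψ (Finsupp.single (⟨i, hi⟩ : U) 1)).toMul : Pc G' w) := gl_gm _ _ _ _
    rw [xu_mem hi, h2, h1]
    rfl
  have hg' : ∀ i, g (xu k U i) = pv G' w i := by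
    intro i
    by_cases hi : i ∈ U
    · exact hg i hi
    · rw [xu_not hi, map_zero]
      exact (pc_zero G' w (h.zero i hi)).symm
  have hgp : ∀ p : MvPolynomial σ k, g (aeval (xu k U) p) = pc G' w p := by
    intro p
    have h1 : g.comp (aeval (xu k U)) = pc G' w := by
      apply MvPolynomial.algHom_ext
      intro i
      rw [AlgHom.comp_apply, aeval_X, hg']
      rfl
    rw [← h1]
    rfl
  let I : Fin' G U →ₐ[k] Pc G' w := Ideal.Quotient.liftₐ _ g (by
    have h1 : Ideal.span (Set.range fun j => aeval (xu k U) (G j)) ≤ RingHom.ker g := by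
      rw [Ideal.span_le]
      rintro _ ⟨j, rfl⟩
      change g (aeval (xu k U) (G j)) = 0
      rw [hgp]
      exact pc_zero G' w (h.rel j)
    exact fun a ha => h1 ha)
  have hI : ∀ x, I (q x) = g x := fun x => rfl
  refine ⟨AlgEquiv.ofAlgHom F I ?_ ?_⟩
  · apply Ideal.Quotient.algHom_ext
    apply ga_ext'
    intro i hi
    change F (I (q (xu k U i))) = q (xu k U i)
    rw [hI, hg', hF]
  · apply pc_ext
    intro i
    rw [AlgHom.comp_apply, hF, hI, hg']
    rfl

end fin

end Pool.Agent.W5h68.SP
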