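import Pool.Agent.H89.L.W5h68_SP_Ga

/-!
# Closed subschemes of tori given by functions of a subgroup of the characters
-/

set_option autoImplicit false

open Pool.Agent.Z125.UN Pool.Agent.Y116.UV

namespace Pool.Agent.W5h68.SP

section alg

/-- a homomorphism to `ℤ` that is zero on a subgroup of smaller rank -/
lemma exists_coord {L M : Type} [AddCommGroup L] [AddCommGroup M] [Module.Finite ℤ M] (ι : L →+ M)
    (m : M) (hm : ∀ a : ℤ, a ≠ 0 → a • m ∉ ι.range) :
    ∃ (φ : M →+ ℤ) (m₀ : M), φ m₀ = 1 ∧ ∀ l, φ (ι l) = 0 := by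
  let N := M ⧸ (LinearMap.range ι.toIntLinearMap)
  let N' := N ⧸ Submodule.torsion ℤ N
  let π : M →ₗ[ℤ] N' := (Submodule.mkQ _).comp (Submodule.mkQ _)
  have h1 : π m ≠ 0 := by
    intro h
    have h2 : (Submodule.mkQ (LinearMap.range ι.toIntLinearMap)) m ∈ Submodule.torsion ℤ N := by
      have h3 : (Submodule.mkQ (Submodule.torsion ℤ N))
        ((Submodule.mkQ (LinearMap.range ι.toIntLinearMap)) m) = 0 := h
      rwa [Submodule.mkQ_apply, Submodule.Quotient.mk_eq_zero] at h3
    rw [Submodule.mem_torsion_iff] at h2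
    obtain ⟨⟨a, ha⟩, h4⟩ := h2
    have h5 : (Submodule.mkQ (LinearMap.range ι.toIntLinearMap)) (a • m) = 0 := by
      rw [map_smul]
      exact h4
    rw [Submodule.mkQ_apply, Submodule.Quotient.mk_eq_zero] at h5
    exact hm a (nonZeroDivisors.ne_zero ha) h5
  have : Module.Finite ℤ N' := inferInstance
  have : Module.Free ℤ N' := inferInstance
  let b := Module.Free.chooseBasis ℤ N'
  have h2 : ∃ i, b.repr (π m) i ≠ 0 := by
    by_contra h
    push Not at h
    exact h1 (b.repr.map_eq_zero_iff.mp (Finsupp.ext h))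
  obtain ⟨i, -⟩ := h2
  obtain ⟨y, hy⟩ := Submodule.mkQ_surjective (Submodule.torsion ℤ N) (b i)
  obtain ⟨m₀, hm₀⟩ := Submodule.mkQ_surjective (LinearMap.range ι.toIntLinearMap) y
  refine ⟨((b.coord i).comp π).toAddMonoidHom, m₀, ?_, ?_⟩
  · change b.coord i ((Submodule.mkQ _) ((Submodule.mkQ _) m₀)) = 1
    rw [hm₀, hy, Module.Basis.coord_apply, Module.Basis.repr_self, Finsupp.single_eq_same]
  · intro l
    change b.coord i ((Submodule.mkQ _) ((Submodule.mkQ _) (ι l))) = 0
    have h3 : (Submodule.mkQ (LinearMap.range ι.toIntLinearMap)) (ι l) = 0 := by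
      rw [Submodule.mkQ_apply, Submodule.Quotient.mk_eq_zero]
      exact ⟨l, rfl⟩
    rw [h3, map_zero, map_zero]

lemma rank_ker {M : Type} [AddCommGroup M] [Module.Finite ℤ M] (φ : M →+ ℤ)
    (m₀ : M) (h₀ : φ m₀ = 1) : Module.Finite ℤ φ.ker ∧
      Module.finrank ℤ φ.ker < Module.finrank ℤ M := by
  let K : Submodule ℤ M := LinearMap.ker φ.toIntLinearMap
  have e : φ.ker ≃ₗ[ℤ] K :=
    { toFun := fun x => ⟨x.1, x.2⟩
      invFun := fun x => ⟨x.1, x.2⟩
      left_inv := fun _ => rfl
      right_inv := fun _ => rfl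
      map_add' := fun _ _ => rfl
      map_smul' := fun _ _ => rfl }
  have h1 : Module.Finite ℤ K := inferInstance
  refine ⟨Module.Finite.equiv e.symm, ?_⟩
  rw [e.finrank_eq]
  have h3 := Submodule.finrank_quotient_add_finrank K
  have h4 : Function.Surjective φ.toIntLinearMap := by
    intro n
    refine ⟨n • m₀, ?_⟩
    rw [map_smul]
    change n • φ m₀ = n
    rw [h₀, smul_eq_mul, mul_one]
  have h5 := (φ.toIntLinearMap.quotKerEquivOfSurjective h4).finrank_eq
  rw [Module.finrank_self] at h5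
  change Module.finrank ℤ (M ⧸ K) = 1 at h5
  omega

end alg

lemma ft_ga (k : Type) [Field k] (M : Type) [AddCommGroup M] [Module.Finite ℤ M] :
    Algebra.FiniteType k (AddMonoidAlgebra k M) := by
  have : AddMonoid.FG M :=
    AddGroup.fg_iff_addMonoid_fg.mp (Module.Finite.iff_addGroup_fg.mp inferInstance)
  exact AddMonoidAlgebra.finiteType_of_fg k M

section

variable {k : Type} [Field k] {Q : (A : Type) → [CommRing A] → [Algebra k A] → Prop}
  (hQ : Cl k Q) {L : Type} [AddCommGroup L] (S : Set (AddMonoidAlgebra k L)) {n : ℕ}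

/-- the integral part -/
lemma gq_dim {M : Type} [AddCommGroup M] (ι : L →+ M)
    (hS : ringKrullDim (AddMonoidAlgebra k L ⧸ Ideal.span S) ≤ n)
    (hι : ∀ m, ∃ a : ℤ, a ≠ 0 ∧ a • m ∈ ι.range) : ringKrullDim (GQ ι S) ≤ n := by
  let f : (AddMonoidAlgebra k L ⧸ Ideal.span S) →+* GQ ι S :=
    Ideal.Quotient.lift _ ((qm ι S).comp (gmap k ι)).toRingHom (by
      have h1 : Ideal.span S ≤ RingHom.ker ((qm ι S).comp (gmap k ι)) := by
        rw [Ideal.span_le]
        intro s hs
        exact qm_rel ι S s hs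
      exact fun a ha => h1 ha)
  have hf : ∀ x, f (Ideal.Quotient.mk _ x) = qm ι S (gmap k ι x) := fun x => rfl
  refine (dim_integral f ?_).trans hS
  intro y
  obtain ⟨x, rfl⟩ := qm_surj ι S y
  have h0 : ∀ r : k, algebraMap k (GQ ι S) r = f (Ideal.Quotient.mk _ (algebraMap k _ r)) := by
    intro r
    rw [hf, AlgHom.commutes, AlgHom.commutes]
  induction x using ga_induction with
  | h0 =>
    rw [map_zero]
    exact f.isIntegralElem_zero
  | h1 r m =>
    rw [map_mul, AlgHom.commutes, h0]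
    refine RingHom.IsIntegralElem.mul f (f.isIntegralElem_map) ?_
    have h2 : ∃ a : ℕ, 0 < a ∧ (a : ℤ) • m ∈ ι.range := by
      obtain ⟨a, ha, h3⟩ := hι m
      rcases lt_trichotomy a 0 with h4 | h4 | h4
      · refine ⟨(-a).toNat, by omega, ?_⟩
        rw [Int.toNat_of_nonneg (by omega), neg_smul]
        exact neg_mem h3
      · exact absurd h4 ha
      · refine ⟨a.toNat, by omega, ?_⟩
        rwa [Int.toNat_of_nonneg (by omega)]
    obtain ⟨a, ha, l, hl⟩ := h2
    have h3 : (qm ι S (gm k m)) ^ a = f (Ideal.Quotient.mk _ (gm k l)) := by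
      rw [hf, gmap_gm, hl, ← map_pow, ← gu_val, ← gu_val, map_zsmul]
      rw [toMul_zsmul, zpow_natCast, Units.val_pow_eq_pow_val]
    let _ : Algebra (AddMonoidAlgebra k L ⧸ Ideal.span S) (GQ ι S) := f.toAlgebra
    have h4 : IsIntegral (AddMonoidAlgebra k L ⧸ Ideal.span S) ((qm ι S (gm k m)) ^ a) := by
      rw [h3]
      exact isIntegral_algebraMap
    exact IsIntegral.of_pow ha h4
  | h2 x y hx hy =>
    rw [map_add]
    exact RingHom.IsIntegralElem.add f hx hy

include hQ in
/-- Closed subschemes of tori: if the functions are functions of characters of `L` and the subscheme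
of the torus of `L` has dimension at most `n`, then the conclusion for schemes of dimension at most
`n` implies the one for the subscheme. -/
theorem cl_torus (h : ∀ (A : Type) [CommRing A] [Algebra k A] [Algebra.FiniteType k A],
    ringKrullDim A ≤ n → Q A) (hS : ringKrullDim (AddMonoidAlgebra k L ⧸ Ideal.span S) ≤ n) :
    ∀ (r : ℕ) (M : Type) [AddCommGroup M] [Module.Finite ℤ M]
      (_ : Module.finrank ℤ M = r) (ι : L →+ M), Q (GQ ι S) := by
  intro r
  induction r using Nat.strong_induction_on with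
  | _ r ih =>
    intro M _ _ hr ι
    have hft := ft_ga k M
    by_cases hι : ∀ m, ∃ a : ℤ, a ≠ 0 ∧ a • m ∈ ι.range
    · exact h _ (gq_dim S ι hS hι)
    · push Not at hι
      obtain ⟨m, hm⟩ := hι
      obtain ⟨φ, m₀, h₀, h₁⟩ := exists_coord ι m hm
      obtain ⟨h2, h4⟩ := rank_ker φ m₀ h₀
      have h5 := ih _ (hr ▸ h4) φ.ker rfl (cor ι φ h₁)
      obtain ⟨e⟩ := gq_split φ m₀ h₀ ι S h₁
      have hft' := ft_ga k φ.ker
      have := ft_laurent (R := k) (GQ (cor ι φ h₁) S)
      exact hQ.iso e.symm (cl_laurent hQ h5)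

end

end Pool.Agent.W5h68.SP
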