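import Pool.Agent.H89.L.W5h93_EU_Defs
import Pool.Agent.H89.L.H447R3_AoDefs

/-!
# The numbers of algebraic classes: definitions
-/

set_option autoImplicit false

open CategoryTheory AlgebraicGeometry Pool.Agent.Y116.UV

universe v

namespace Pool.Agent.W5h93.EU

open Pool.Agent.H914 Pool.Agent.H914.VarClass Pool.Agent.H914.VarClass.Obj
  Pool.Agent.H914.WeilCohomology Pool.Agent.H447

variable {k : Type} [Field k] {𝒱 : VarClass k} {ops : CycleOps 𝒱}

/-- The prime field `ℚ` of the coefficient field. -/
def ratField (K : Type v) [Field K] : Subfield K := ⊥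

/-- The span, over the subfield `F` of the coefficient field, of the classes of the cycles of codimension
`p` on `X`. -/
def algClasses (W : WeilCohomology.{0, v} ops) (F : Subfield W.K) (X : 𝒱.Obj) (p : ℕ) :
    Submodule F (W.H X) :=
  Submodule.span F {x | ∃ z, X.IsCyc p z ∧ W.cl X z = x}

/-- The dimension of a subspace. -/
noncomputable def rk {F M : Type v} [Field F] [AddCommGroup M] [Module F M] (A : Submodule F M) : ℕ :=
  Module.finrank F A

/-- The subspace is finite-dimensional. -/
def IsFin {F M : Type v} [Field F] [AddCommGroup M] [Module F M] (A : Submodule F M) : Prop :=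
  Module.Finite F A

/-- The rank of the group of the cycles of codimension `p` on `X` modulo homological equivalence. -/
noncomputable def algRank (W : WeilCohomology.{0, v} ops) (X : 𝒱.Obj) (p : ℕ) : ℕ :=
  rk (algClasses W (ratField W.K) X p)

/-- The ranks `algRank` are finite. -/
def FiniteRanks (W : WeilCohomology.{0, v} ops) : Prop :=
  ∀ (X : 𝒱.Obj) (p : ℕ), IsFin (algClasses W (ratField W.K) X p)

/-- Every variety of the class has a divisor with hard Lefschetz. -/
def HasLefschetz (W : WeilCohomology.{0, v} ops) : Prop :=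
  ∀ X : 𝒱.Obj, ∃ D : X.Cycles, X.IsCyc 1 D ∧ HardLefschetz W X D

/-- `δ` is the additive invariant whose value at the variety `X` of the class, of dimension `d`, has the
coefficients `rank A^(d-q)(X) - rank A^q(X)`, `0 ≤ q ≤ d`, where `A^q(X)` are the algebraic cycles of
codimension `q` modulo homological equivalence, with rational coefficients. (For the smooth projective
varieties in characteristic zero it exists by the theorem of Bittner, since both ranks are
compatible with blow-ups.) -/
structure IsDefect (W : WeilCohomology.{0, v} ops) (δ : Sch k → ℤ → ℤ) : Prop extends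
    IsEuler δ where
  inside : ∀ (X : 𝒱.Obj) (q : ℕ), q ≤ X.dim →
    δ (sch X.V) q = (algRank W X (X.dim - q) : ℤ) - algRank W X q
  outside : ∀ (X : 𝒱.Obj) (c : ℤ), c < 0 ∨ (X.dim : ℤ) < c → δ (sch X.V) c = 0

/-- The conjecture A for the varieties of dimension at most `n` in the class, and all divisors with hard
Lefschetz. -/
def ADim (W : WeilCohomology.{0, v} ops) (n : ℕ) : Prop :=
  ∀ X : 𝒱.Obj, DimLE X.V n → ∀ D : X.Cycles, X.IsCyc 1 D → HardLefschetz W X D → LefschetzA W X D

/-- The conjecture A for all varieties of the class. -/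
def AAll (W : WeilCohomology.{0, v} ops) : Prop :=
  ∀ (X : 𝒱.Obj) (D : X.Cycles), X.IsCyc 1 D → HardLefschetz W X D → LefschetzA W X D

/-- The conjecture A in codimension one for all varieties of the class. -/
def AOne (W : WeilCohomology.{0, v} ops) : Prop :=
  ∀ (X : 𝒱.Obj) (D : X.Cycles), X.IsCyc 1 D → HardLefschetz W X D → LefschetzAIn W X D 1

/-- `δ` vanishes for the hypersurfaces `T(x, y, z) = 1`, for all trilinear forms `T` over `k` with a block
of at most `m` variables. -/
def VanishesBlock (δ : Sch k → ℤ → ℤ) (m : ℕ) : Prop :=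
  ∀ (a b d : ℕ) (T : Fin a → Fin b → Fin d → k), (a ≤ m ∨ b ≤ m ∨ d ≤ m) → ∀ c, δ (hypS T) c = 0

/-- `δ` vanishes for the hypersurfaces `T(x, y, z) = 1`, for all trilinear forms `T` over `k`. -/
def Vanishes (δ : Sch k → ℤ → ℤ) : Prop :=
  ∀ (a b d : ℕ) (T : Fin a → Fin b → Fin d → k) (c : ℤ), δ (hypS T) c = 0

end Pool.Agent.W5h93.EU
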