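import Pool.Agent.H89.L.Z125_UN_Pc
import Pool.Agent.H89.L.Y116_UV_Main
import Pool.Agent.H89.L.Y116_UV_Space

/-!
# Closed-open decompositions and affine bundles
-/

set_option autoImplicit false

open CategoryTheory AlgebraicGeometry MvPolynomial Pool.Agent.Y116.UV

namespace Pool.Agent.Z125.UN

/-- As `Uni`, and the property is true for the affine bundles of Jouanolou over a scheme for which
it is true. -/
structure Bnd {R : Type} [CommRing R] (sep : Prop) (P : Sch R → Prop) : Prop extends Uni sep P where
  bundle : ∀ (A : Type) [CommRing A] [Algebra R A] [Algebra.FiniteType R A] (m : ℕ)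
    (f : Fin m → A) (U : Sch R) (j : U ⟶ aff R A), IsOpenImmersion j.left →
    Set.range j.left = {x : PrimeSpectrum A | ∃ l, f l ∉ x.asIdeal} → P U → P (aff R (Jou f))

section iso

variable {R : Type} [CommRing R] {σ κ : Type} (G : κ → MvPolynomial σ R) (w : MvPolynomial σ R)
  (τ : Type)

/-- the relations in more variables -/
noncomputable def rl (τ : Type) (k : κ) : MvPolynomial (σ ⊕ τ) R := rename Sum.inl (G k)

/-- to the piece in more variables -/
noncomputable def polyF : MvPolynomial τ (Pc G w) →ₐ[R] Pc (rl G τ) (rename Sum.inl w) :=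
  aevalTower (pcLift G w (fun s => pv (rl G τ) (rename Sum.inl w) (Sum.inl s))
    (fun k => by
      have h := pc_rel (rl G τ) (rename Sum.inl w) k
      rw [← pc_aeval, rl, aeval_rename] at h
      exact h)
    (by
      have h := pc_unit (rl G τ) (rename Sum.inl w)
      rw [← pc_aeval, aeval_rename] at h
      exact h)) (fun t => pv (rl G τ) (rename Sum.inl w) (Sum.inr t))

lemma polyF_C (s : σ) : polyF G w τ (C (pv G w s)) = pv (rl G τ) (rename Sum.inl w) (Sum.inl s) := by
  rw [polyF, aevalTower_C, pcLift_pv]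

lemma polyF_X (t : τ) : polyF G w τ (X t) = pv (rl G τ) (rename Sum.inl w) (Sum.inr t) := by
  rw [polyF, aevalTower_X]

lemma aeval_poly (p : MvPolynomial σ R) :
    aeval (Sum.elim (fun s => C (pv G w s)) X : σ ⊕ τ → MvPolynomial τ (Pc G w))
      (rename Sum.inl p) = C (pc G w p) := by
  rw [aeval_rename]
  have h : ((Sum.elim (fun s => C (pv G w s)) X : σ ⊕ τ → MvPolynomial τ (Pc G w)) ∘ Sum.inl) =
      fun s => IsScalarTower.toAlgHom R (Pc G w) (MvPolynomial τ (Pc G w)) (pv G w s) := rfl
  rw [h, aeval_pv_comp]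
  rfl

/-- from the piece in more variables -/
noncomputable def polyG : Pc (rl G τ) (rename Sum.inl w) →ₐ[R] MvPolynomial τ (Pc G w) :=
  pcLift (rl G τ) (rename Sum.inl w) (Sum.elim (fun s => C (pv G w s)) X)
    (fun k => by rw [rl, aeval_poly, pc_rel, map_zero])
    (by rw [aeval_poly]; exact (pc_unit G w).map _)

lemma polyG_inl (s : σ) : polyG G w τ (pv (rl G τ) (rename Sum.inl w) (Sum.inl s)) =
    C (pv G w s) := by
  rw [polyG, pcLift_pv]
  rfl

lemma polyG_inr (t : τ) : polyG G w τ (pv (rl G τ) (rename Sum.inl w) (Sum.inr t)) = X t := by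
  rw [polyG, pcLift_pv]
  rfl

/-- polynomials over a piece -/
noncomputable def polyE : MvPolynomial τ (Pc G w) ≃ₐ[R] Pc (rl G τ) (rename Sum.inl w) :=
  AlgEquiv.ofAlgHom (polyF G w τ) (polyG G w τ)
    (by
      apply pc_ext
      rintro (s | t)
      · rw [AlgHom.comp_apply, polyG_inl, polyF_C]
        rfl
      · rw [AlgHom.comp_apply, polyG_inr, polyF_X]
        rfl)
    (by
      apply MvPolynomial.algHom_ext'
      · apply pc_ext
        intro s
        change polyG G w τ (polyF G w τ (C (pv G w s))) = C (pv G w s)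
        rw [polyF_C, polyG_inl]
      · intro t
        rw [AlgHom.comp_apply, polyF_X, polyG_inr]
        rfl)

end iso

section

variable {R : Type} [CommRing R] {sep : Prop} {P : Sch R → Prop} (hP : Bnd sep P)

section split

variable {σ κ : Type} [Finite σ] {G : κ → MvPolynomial σ R} {w e : MvPolynomial σ R}

include hP

lemma pc_total (hc : P (aff R (Pc (adj G e) w))) (ho : P (aff R (Pc G (w * e)))) :
    P (aff R (Pc G w)) :=
  hP.total _ _ (ft_aff sep) (triple_away (pc G w e))
    (iso_alg hP.toUni (cloE G w e).symm hc) (iso_alg hP.toUni (opnE G w e).symm ho)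

lemma pc_closed (hw : P (aff R (Pc G w))) (ho : P (aff R (Pc G (w * e)))) :
    P (aff R (Pc (adj G e) w)) :=
  iso_alg hP.toUni (cloE G w e) (hP.closed _ _ (ft_aff sep) (triple_away (pc G w e)) hw
    (iso_alg hP.toUni (opnE G w e).symm ho))

lemma pc_open (hw : P (aff R (Pc G w))) (hc : P (aff R (Pc (adj G e) w))) :
    P (aff R (Pc G (w * e))) :=
  have : Algebra.FiniteType R (Localization.Away (pc G w e)) :=
    Algebra.FiniteType.trans (S := Pc G w) inferInstance inferInstance
  iso_alg hP.toUni (opnE G w e) (hP.opened _ _ (ft_aff sep) (triple_away (pc G w e))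
    (iso_alg hP.toUni (cloE G w e).symm hc) hw)

end split

section poly

variable {A : Type} [CommRing A] [Algebra R A] [Algebra.FiniteType R A]

include hP

lemma p_poly_fin (n : ℕ) (h : P (aff R A)) : P (aff R (MvPolynomial (Fin n) A)) := by
  have h1 : IsOpenImmersion (𝟙 (aff R A) : aff R A ⟶ aff R A).left :=
    inferInstanceAs (IsOpenImmersion (𝟙 (aff R A).left))
  have h2 : Set.range (𝟙 (aff R A) : aff R A ⟶ aff R A).left =
      {x : PrimeSpectrum A | ∃ l, f1 A n l ∉ x.asIdeal} := by
    have h1 : Set.range (𝟙 (aff R A) : aff R A ⟶ aff R A).left = Set.univ := Set.range_id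
    have h2 : {x : PrimeSpectrum A | ∃ l, f1 A n l ∉ x.asIdeal} = Set.univ := by
      rw [Set.eq_univ_iff_forall]
      intro x
      exact ⟨0, fun h => x.isPrime.ne_top ((Ideal.eq_top_iff_one _).mpr h)⟩
    exact h1.trans h2.symm
  have h3 := hP.bundle A (n + 1) (f1 A n) (aff R A) (𝟙 _) h1 h2 h
  have : Algebra.FiniteType R (Jou (f1 A n)) :=
    Algebra.FiniteType.trans (S := A) inferInstance inferInstance
  exact iso_alg hP.toUni ((jouOne A n).restrictScalars R) h3

lemma p_poly (τ : Type) [Fintype τ] (h : P (aff R A)) : P (aff R (MvPolynomial τ A)) := by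
  have : Algebra.FiniteType R (MvPolynomial (Fin (Fintype.card τ)) A) :=
    Algebra.FiniteType.trans (S := A) inferInstance inferInstance
  exact iso_alg hP.toUni ((renameEquiv A (Fintype.equivFin τ).symm).restrictScalars R)
    (p_poly_fin hP _ h)

lemma pc_poly {σ κ : Type} [Finite σ] {G : κ → MvPolynomial σ R} {w : MvPolynomial σ R} (τ : Type)
    [Fintype τ] (h : P (aff R (Pc G w))) : P (aff R (Pc (rl G τ) (rename Sum.inl w))) := by
  have : Algebra.FiniteType R (MvPolynomial τ (Pc G w)) :=
    Algebra.FiniteType.trans (S := Pc G w) inferInstance inferInstance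
  exact iso_alg hP.toUni (polyE G w τ) (p_poly hP τ h)

end poly

end

end Pool.Agent.Z125.UN
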