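import Pool.Agent.H89.L.Z125_UN_MotDefs
import Pool.Agent.H89.L.Z125_UN_Bnd
import Pool.Agent.H89.L.Y116_UV_Graph
import Pool.Agent.H89.L.Y116_UV_Space

/-!
# Schur-finiteness of motives with compact support is closed under closed-open decompositions
-/

set_option autoImplicit false

open CategoryTheory MonoidalCategory AlgebraicGeometry Pool.Agent.TH137.DG Pool.Agent.Y116.UV
  Pretriangulated

namespace Pool.Agent.Z125.UN

universe v u

section

variable {k : Type} [Field k] {C : Type u} [Category.{v} C] [MonoidalCategory C]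
  [SymmetricCategory C] [Preadditive C] [Linear ℚ C] [Limits.HasZeroObject C] [HasShift C ℤ]
  [∀ n : ℤ, (shiftFunctor C n).Additive] [Pretriangulated C] {D : Motives k C}

lemma sf_tw (hD : IsMotives D) (A : C) : ∀ n, IsSchurFinite (tw D.L n A) ↔ IsSchurFinite A
  | 0 => Iff.rfl
  | n + 1 => (hD.twist _).trans (sf_tw hD A n)

lemma sf_unshift (hD : IsMotives D) (A : C) (h : IsSchurFinite (A⟦(1 : ℤ)⟧)) : IsSchurFinite A :=
  (sf_iso ⟨shiftShiftNeg A (1 : ℤ)⟩).mp (hD.shift _ (-1) h)

lemma sf_space (hD : IsMotives D) (n : ℕ) :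
    IsSchurFinite (D.Mc (aff k (MvPolynomial (Fin n) k))) := by
  have h1 : IsSchurFinite (D.Mc (aff k k)) := (sf_iso hD.point).mpr sf_unit
  have h2 := hD.bundle k (n + 1) (f1 k n) (aff k k) (𝟙 _) inferInstance (range_id n)
  have h3 : IsSchurFinite (D.Mc (aff k (Jou (f1 k n)))) := by
    rw [sf_iso h2, sf_tw hD]
    exact h1
  exact (sf_iso (hD.iso (ft_aff True) ⟨(affIso (jouOne k n)).symm⟩)).mp h3

/-- Schur-finiteness of the motive with compact support has the closure properties `Bnd`. -/
theorem bnd_sf (hD : IsMotives D) : Bnd True fun X : Sch k => IsSchurFinite (D.Mc X) where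
  iso h e := (sf_iso (hD.iso h e)).mp
  total i j h ht hZ hU := by
    obtain ⟨a, b, d, hT⟩ := hD.localization i j h ht
    exact hD.cone _ (inv_rot_of_distTriang _ hT) (hD.shift _ (-1) hU) hZ
  opened i j h ht hZ hX := by
    obtain ⟨a, b, d, hT⟩ := hD.localization i j h ht
    exact hD.cone _ hT hZ hX
  closed i j h ht hX hU := by
    obtain ⟨a, b, d, hT⟩ := hD.localization i j h ht
    exact sf_unshift hD _ (hD.cone _ (rot_of_distTriang _ hT) hX hU)
  space := sf_space hD
  jouanolou A _ _ _ m f U j hj hr h := by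
    have h2 := (sf_iso (hD.bundle A m f U j hj hr)).mp h
    exact (sf_tw hD _ _).mp h2
  torus A _ _ _ h := by
    obtain ⟨s, r, hs⟩ := hD.torus A
    exact (hD.twist _).mp (sf_retract s r hs h)
  bundle A _ _ _ m f U j hj hr h := by
    rw [sf_iso (hD.bundle A m f U j hj hr), sf_tw hD]
    exact h

end

end Pool.Agent.Z125.UN
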