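import Pool.Agent.H89.L.Y116_UV_Defs
import Pool.Agent.H89.L.H914R2_Weil

/-!
# Additive invariants of schemes with values in Laurent polynomials: definitions
-/

set_option autoImplicit false

open CategoryTheory AlgebraicGeometry Pool.Agent.Y116.UV

namespace Pool.Agent.W5h93.EU

/-- `U` is the complement of the closed subscheme `f = 0` of `Spec A`. -/
def IsComplement {k : Type} [Field k] {A : Type} [CommRing A] [Algebra k A] {m : ℕ} (f : Fin m → A)
    (U : Sch k) : Prop :=
  ∃ j : U ⟶ aff k A, IsOpenImmersion j.left ∧
    Set.range j.left = {x : PrimeSpectrum A | ∃ l, f l ∉ x.asIdeal}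

/-- `δ X : ℤ → ℤ` are the coefficients of an invariant of the separated schemes `X` of finite type
over `k` with values in the Laurent polynomials `∑ δ X c L ^ c`, which is additive for closed-open
decompositions and compatible with affine bundles: the invariant of the total space of the affine
bundle `Spec A[w_1, …, w_m] / (∑ f_l w_l - 1) → U` with fibre `𝔸^(m-1)`, where `U` is the complement
of `f = 0` in `Spec A`, is `L ^ (m - 1)` times the invariant of `U`. The invariant of the point is
zero. -/
structure IsEuler {k : Type} [Field k] (δ : Sch k → ℤ → ℤ) : Prop where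
  iso : ∀ {X Y : Sch k}, FT True X → Nonempty (X ≅ Y) → δ X = δ Y
  additive : ∀ {Z X U : Sch k} (i : Z ⟶ X) (j : U ⟶ X), FT True X → IsTriple i j →
    ∀ c, δ X c = δ Z c + δ U c
  bundle : ∀ (A : Type) [CommRing A] [Algebra k A] [Algebra.FiniteType k A] (m : ℕ)
    (f : Fin m → A) (U : Sch k), IsComplement f U → ∀ c, δ (aff k (Jou f)) c = δ U (c - (m - 1))
  bounded : ∀ X : Sch k, FT True X → ∃ b : ℤ, ∀ c, c < b → δ X c = 0
  point : ∀ c, δ (aff k k) c = 0

open Pool.Agent.H914 in
/-- The variety `X` as a scheme over `k`. -/
noncomputable def sch {k : Type} [Field k] (X : SmVar k) : Sch k := Over.mk X.str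

open Pool.Agent.H914 in
/-- The dimension of the variety `X` is at most `n`: this is required for the relative dimension and for
the Krull dimension, which are equal. -/
def DimLE {k : Type} [Field k] (X : SmVar k) (n : ℕ) : Prop :=
  X.dim ≤ n ∧ topologicalKrullDim X.X ≤ n

/-- Some non-empty open subschemes of `Y` and `Y'` are isomorphic. -/
def Birational {k : Type} [Field k] (Y Y' : Sch k) : Prop :=
  ∃ (V : Sch k) (i : V ⟶ Y) (j : V ⟶ Y'), Nonempty V.left ∧ IsOpenImmersion i.left ∧
    IsOpenImmersion j.left

open Pool.Agent.H914 in
/-- Every integral affine scheme of finite type over `k` of dimension `d ≤ n` is birational to a variety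
of the class `𝒱` of dimension `d`. (For the class of the smooth projective varieties over an
algebraically closed field this is the theorem of Hironaka in characteristic zero; it is known for
`n ≤ 3` in all characteristics.) -/
def HasModels {k : Type} [Field k] (𝒱 : VarClass k) (n : ℕ) : Prop :=
  ∀ (A : Type) [CommRing A] [IsDomain A] [Algebra k A] [Algebra.FiniteType k A] (d : ℕ), d ≤ n →
    ringKrullDim A = d →
      ∃ X : 𝒱.Obj, Birational (aff k A) (sch X.V) ∧ X.dim = d ∧ topologicalKrullDim X.V.X = d

end Pool.Agent.W5h93.EU
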