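import Pool.Agent.H89.L.W5h93_EU_Prod

/-!
# Affine bundles and products
-/

set_option autoImplicit false

open CategoryTheory CategoryTheory.Limits AlgebraicGeometry Pool.Agent.Y116.UV

namespace Pool.Agent.W5h93.EU

set_option maxHeartbeats 400000

open TensorProduct MvPolynomial

section ring

variable {k : Type} [Field k] {A D : Type} [CommRing A] [CommRing D] [Algebra k A]
  [Algebra k D] {m : ℕ} (f : Fin m → A)

/-- constants -/
noncomputable def jc : A →ₐ[k] Jou f := IsScalarTower.toAlgHom k A (Jou f)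

/-- coordinates -/
noncomputable def jw (l : Fin m) : Jou f := Ideal.Quotient.mk _ (X l)

lemma jrel : ∑ l, jc (k := k) f (f l) * jw f l = 1 := by
  have h1 : (Ideal.Quotient.mk (Ideal.span {∑ l, C (f l) * X l - 1}))
      (∑ l, C (f l) * X l - 1) = 0 :=
    Ideal.Quotient.eq_zero_iff_mem.mpr (Ideal.subset_span rfl)
  rw [map_sub, map_sum, map_one, sub_eq_zero] at h1
  rw [← h1]
  refine Finset.sum_congr rfl fun l _ => ?_
  rw [map_mul]
  rfl

/-- maps from `A[w]/(∑ f w - 1)` -/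
noncomputable def jLift (g : A →ₐ[k] D) (w : Fin m → D) (h : ∑ l, g (f l) * w l = 1) :
    Jou f →ₐ[k] D :=
  Ideal.Quotient.liftₐ _ (aevalTower g w) (by
    intro a ha
    rw [← RingHom.mem_ker]
    refine (Ideal.span_le.mpr ?_ : Ideal.span _ ≤ _) ha
    rintro _ rfl
    rw [SetLike.mem_coe, RingHom.mem_ker, map_sub, map_sum, map_one, ← h, sub_eq_zero]
    refine Finset.sum_congr rfl fun l _ => ?_
    rw [map_mul, aevalTower_X, aevalTower_C])

variable {f}

lemma jLift_c (g : A →ₐ[k] D) (w : Fin m → D) (h : ∑ l, g (f l) * w l = 1) (a : A) :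
    jLift f g w h (jc (k := k) f a) = g a := aevalTower_C _ _ _

lemma jLift_w (g : A →ₐ[k] D) (w : Fin m → D) (h : ∑ l, g (f l) * w l = 1) (l : Fin m) :
    jLift f g w h (jw f l) = w l := aevalTower_X _ _ _

lemma j_ext {g g' : Jou f →ₐ[k] D} (h1 : ∀ a, g (jc (k := k) f a) = g' (jc (k := k) f a))
    (h2 : ∀ l, g (jw f l) = g' (jw f l)) : g = g' := by
  apply Ideal.Quotient.algHom_ext
  exact MvPolynomial.algHom_ext' (AlgHom.ext h1) h2

lemma j_ext_comp {E : Type} [CommRing E] [Algebra k E] (p : Jou f →ₐ[k] E) (q : E →ₐ[k] D)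
    (g : Jou f →ₐ[k] D) (h1 : ∀ a, q (p (jc (k := k) f a)) = g (jc (k := k) f a))
    (h2 : ∀ l, q (p (jw f l)) = g (jw f l)) (x : Jou f) : q (p x) = g x :=
  DFunLike.congr_fun (j_ext (g := q.comp p) (g' := g) h1 h2) x

end ring

section copr

variable {k : Type} [Field k] {A B C : Type} [CommRing A] [CommRing B] [CommRing C] [Algebra k A]
  [Algebra k B] [Algebra k C]

/-- the universal property of the tensor product -/
structure Copr (i : A →ₐ[k] C) (r : B →ₐ[k] C) : Prop where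
  ex : ∀ (D : Type) [CommRing D] [Algebra k D] (g : A →ₐ[k] D) (h : B →ₐ[k] D),
    ∃ u : C →ₐ[k] D, (∀ a, u (i a) = g a) ∧ ∀ b, u (r b) = h b
  ext : ∀ (D : Type) [CommRing D] [Algebra k D] (u v : C →ₐ[k] D),
    (∀ a, u (i a) = v (i a)) → (∀ b, u (r b) = v (r b)) → u = v

lemma copr_tensor (A B : Type) [CommRing A] [CommRing B] [Algebra k A] [Algebra k B] :
    Copr (k := k) (C := A ⊗[k] B) Algebra.TensorProduct.includeLeft
      Algebra.TensorProduct.includeRight where
  ex D _ _ g h := ⟨Algebra.TensorProduct.lift g h fun _ _ => mul_comm _ _,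
    fun a => (Algebra.TensorProduct.lift_tmul _ _ _ _ _).trans (by rw [map_one, mul_one]),
    fun b => (Algebra.TensorProduct.lift_tmul _ _ _ _ _).trans (by rw [map_one, one_mul])⟩
  ext D _ _ u v h1 h2 := Algebra.TensorProduct.ext (AlgHom.ext h1) (AlgHom.ext h2)

lemma Copr.equiv {C' : Type} [CommRing C'] [Algebra k C'] {i : A →ₐ[k] C} {r : B →ₐ[k] C}
    {i' : A →ₐ[k] C'} {r' : B →ₐ[k] C'} (h : Copr i r) (h' : Copr i' r') :
    Nonempty (C ≃ₐ[k] C') := by
  obtain ⟨u, hu, hu'⟩ := h.ex C' i' r'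
  obtain ⟨v, hv, hv'⟩ := h'.ex C i r
  refine ⟨AlgEquiv.ofAlgHom u v (h'.ext _ _ _ (fun a => ?_) fun b => ?_)
    (h.ext _ _ _ (fun a => ?_) fun b => ?_)⟩
  · rw [AlgHom.comp_apply, hv, hu, AlgHom.id_apply]
  · rw [AlgHom.comp_apply, hv', hu', AlgHom.id_apply]
  · rw [AlgHom.comp_apply, hu, hv, AlgHom.id_apply]
  · rw [AlgHom.comp_apply, hu', hv', AlgHom.id_apply]

/-- affine bundles over products -/
lemma Copr.jou {i : A →ₐ[k] C} {r : B →ₐ[k] C} (h : Copr i r) {m : ℕ} (f : Fin m → A) :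
    Copr (jLift f ((jc (k := k) fun l => i (f l)).comp i) (jw _) (jrel (k := k) fun l => i (f l)))
      ((jc (k := k) fun l => i (f l)).comp r) where
  ex D _ _ g g' := by
    obtain ⟨u, hu, hu'⟩ := h.ex D (g.comp (jc f)) g'
    refine ⟨jLift _ u (fun l => g (jw f l)) ?_, fun a => ?_, fun b => ?_⟩
    · rw [← map_one g, ← jrel (k := k) f, map_sum]
      refine Finset.sum_congr rfl fun l _ => ?_
      rw [map_mul, hu, AlgHom.comp_apply]
    · refine j_ext_comp _ _ _ (fun a => ?_) (fun l => ?_) a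
      · rw [jLift_c, AlgHom.comp_apply, jLift_c, hu, AlgHom.comp_apply]
      · rw [jLift_w, jLift_w]
    · rw [AlgHom.comp_apply, jLift_c, hu']
  ext D _ _ u v h1 h2 := by
    refine j_ext (fun c => ?_) fun l => ?_
    · refine DFunLike.congr_fun (f := u.comp (jc _)) (g := v.comp (jc _)) (h.ext _ _ _ ?_ ?_) c
      · intro a
        have := h1 (jc (k := k) f a)
        rwa [jLift_c] at this
      · exact h2
    · have := h1 (jw f l)
      rwa [jLift_w] at this

end copr

/-- the affine bundle over the product -/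
lemma jouTensor {k : Type} [Field k] {A : Type} [CommRing A] [Algebra k A] {m : ℕ} (f : Fin m → A)
    (B : Type) [CommRing B] [Algebra k B] :
    Nonempty (Jou f ⊗[k] B ≃ₐ[k] Jou fun l => f l ⊗ₜ[k] (1 : B)) :=
  (copr_tensor (Jou f) B).equiv ((copr_tensor A B).jou f)

end Pool.Agent.W5h93.EU
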