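import Pool.Agent.H89.L.W5h93_EU_PDefs0

/-!
# Products and direct sums of trilinear forms: definitions
-/

set_option autoImplicit false

open CategoryTheory AlgebraicGeometry Pool.Agent.Y116.UV

universe v

namespace Pool.Agent.W5h93.EU

open Pool.Agent.H914 Pool.Agent.H914.VarClass Pool.Agent.H914.VarClass.Obj
  Pool.Agent.H914.WeilCohomology Pool.Agent.W534

/-- A function of two blocks of indices which is zero outside of the two diagonal blocks; see `dsum`. -/
def blockSum {k : Type} [Field k] {b d b' d' : ℕ} (M : Fin b → Fin d → k)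
    (M' : Fin b' → Fin d' → k) : Fin (b + b') → Fin (d + d') → k :=
  fun j l => Fin.addCases (fun j => Fin.addCases (fun l => M j l) (fun _ => 0) l)
    (fun j => Fin.addCases (fun _ => 0) (fun l => M' j l) l) j

/-- The direct sum `T(x, y, z) + T'(x', y', z')` of two trilinear forms, in disjoint sets of
variables. -/
def dsum {k : Type} [Field k] {a b d a' b' d' : ℕ} (T : Fin a → Fin b → Fin d → k)
    (T' : Fin a' → Fin b' → Fin d' → k) : Fin (a + a') → Fin (b + b') → Fin (d + d') → k :=
  fun i => Fin.addCases (fun i => blockSum (T i) fun _ _ => 0)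
    (fun i => blockSum (fun _ _ => 0) (T' i)) i

variable {k : Type} [Field k] {𝒱 : VarClass k} {ops : CycleOps 𝒱}

/-- The conjecture B for all varieties of the class. -/
def BAll (W : WeilCohomology.{0, v} ops) : Prop :=
  ∀ (X : 𝒱.Obj) (D : X.Cycles), X.IsCyc 1 D → HardLefschetz W X D → LefschetzB W X D

/-- One of the three blocks of variables has at most `m` variables. -/
def SmallBlock (a b d m : ℕ) : Prop := a ≤ m ∨ b ≤ m ∨ d ≤ m

/-- `δ` vanishes for the hypersurfaces `T(x, y, z) + T'(x', y', z') = 1`, for all trilinear forms `T` and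
`T'` over `k` each of which has a block of at most `m` variables. -/
def VanishesSums (δ : Sch k → ℤ → ℤ) (m : ℕ) : Prop :=
  ∀ (a b d a' b' d' : ℕ) (T : Fin a → Fin b → Fin d → k) (T' : Fin a' → Fin b' → Fin d' → k),
    SmallBlock a b d m → SmallBlock a' b' d' m → ∀ c, δ (hypS (dsum T T')) c = 0

end Pool.Agent.W5h93.EU
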