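import Pool.Agent.H89.L.W5h93_EU_Defs
import Pool.Agent.H89.L.W534_UDefs

/-!
# Products and the conjecture B: definitions
-/

set_option autoImplicit false

open CategoryTheory AlgebraicGeometry Pool.Agent.Y116.UV

universe v

namespace Pool.Agent.W5h93.EU

open Pool.Agent.H914 Pool.Agent.H914.VarClass Pool.Agent.H914.VarClass.Obj
  Pool.Agent.H914.WeilCohomology Pool.Agent.W534

/-- The product of two schemes over `k`. -/
noncomputable def pr {k : Type} [Field k] (X Y : Sch k) : Sch k :=
  Over.mk (Limits.pullback.fst X.hom Y.hom ≫ X.hom)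

variable {k : Type} [Field k] {𝒱 : VarClass k} {ops : CycleOps 𝒱}

/-- `δ` is the additive invariant whose value at the variety `X` of the class, of dimension `d`, has the
coefficients `rank A^(d-q)(X) - rank A^q(X)`, `0 ≤ q ≤ d`, where `A^q(X)` is the span of the classes
of the algebraic cycles of codimension `q`, over the coefficient field of the cohomology. (For the
smooth projective varieties in characteristic zero it exists by the theorem of Bittner, since both
ranks are compatible with blow-ups.) -/
structure IsSpanDefect (W : WeilCohomology.{0, v} ops) (δ : Sch k → ℤ → ℤ) : Prop extends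
    IsEuler δ where
  inside : ∀ (X : 𝒱.Obj) (q : ℕ), q ≤ X.dim →
    δ (sch X.V) q = (cycleRank W X (X.dim - q : ℕ) : ℤ) - cycleRank W X q
  outside : ∀ (X : 𝒱.Obj) (c : ℤ), c < 0 ∨ (X.dim : ℤ) < c → δ (sch X.V) c = 0

/-- The conjecture B for the varieties of dimension at most `n` in the class, and all divisors with hard
Lefschetz. -/
def BDim (W : WeilCohomology.{0, v} ops) (n : ℕ) : Prop :=
  ∀ X : 𝒱.Obj, DimLE X.V n → ∀ D : X.Cycles, X.IsCyc 1 D → HardLefschetz W X D → LefschetzB W X D

end Pool.Agent.W5h93.EU
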