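import Pool.Agent.H89.L.Z125_UN_NI

/-!
# Algebras of finite type over a perfect field and hypersurfaces: algebra
-/

set_option autoImplicit false

open MvPolynomial

namespace Pool.Agent.Z125.UN

section dim

/-- the dimension of an integral extension -/
lemma dim_le_of_integral {R S : Type} [CommRing R] [CommRing S] [IsDomain S] [Algebra R S]
    [Algebra.IsIntegral R S] (h : Function.Injective (algebraMap R S)) :
    ringKrullDim R ≤ ringKrullDim S := by
  unfold ringKrullDim Order.krullDim
  refine iSup_le fun l => ?_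
  obtain ⟨P, hP1, hP2⟩ := Ideal.exists_ideal_over_prime_of_isIntegral_of_isDomain
    (R := R) (S := S) l.head.asIdeal (by
      rw [(RingHom.injective_iff_ker_eq_bot _).mp h]
      exact bot_le)
  have : P.LiesOver (RelSeries.head l).asIdeal := ⟨hP2.symm⟩
  obtain ⟨L, hL, -, -⟩ := Ideal.exists_ltSeries_of_hasGoingUp (R := R) (S := S) l P
  refine le_trans ?_ (le_iSup _ L)
  rw [hL]

variable {k : Type} [Field k]

lemma dim_quot {N : ℕ} (I : Ideal (MvPolynomial (Fin (N + 1)) k)) (hI : I ≠ ⊥) :
    ringKrullDim (MvPolynomial (Fin (N + 1)) k ⧸ I) ≤ N := by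
  obtain ⟨f, hf, hf0⟩ := Submodule.exists_mem_ne_zero_of_ne_bot hI
  have h1 : ringKrullDim (MvPolynomial (Fin (N + 1)) k ⧸ Ideal.span {f}) + 1 ≤
      ringKrullDim (MvPolynomial (Fin (N + 1)) k) :=
    ringKrullDim_quotient_succ_le_of_nonZeroDivisor (mem_nonZeroDivisors_of_ne_zero hf0)
  rw [MvPolynomial.ringKrullDim_of_isNoetherianRing, ringKrullDim_eq_zero_of_field, zero_add,
    Nat.card_eq_fintype_card, Fintype.card_fin] at h1
  have h2 : ringKrullDim (MvPolynomial (Fin (N + 1)) k ⧸ I) ≤
      ringKrullDim (MvPolynomial (Fin (N + 1)) k ⧸ Ideal.span {f}) := by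
    have hle : Ideal.span {f} ≤ I := by
      rw [Ideal.span_le, Set.singleton_subset_iff]
      exact hf
    exact ringKrullDim_le_of_surjective (Ideal.Quotient.factor hle)
      (Ideal.Quotient.factor_surjective hle)
  refine h2.trans ?_
  rw [ENat.WithBot.add_one_le_natCast_iff] at h1
  have h3 : ((N + 1 : ℕ) : WithBot ℕ∞) = (N : WithBot ℕ∞) + 1 := by push_cast; rfl
  rw [h3] at h1
  exact ENat.WithBot.lt_add_one_iff.mp h1

end dim

section gens

variable (k : Type) [Field k] [PerfectField k] (B : Type) [CommRing B] [IsDomain B] [Algebra k B]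
  [Algebra.FiniteType k B]

/-- The fraction field of a domain of dimension at most `n` is generated by `n + 1` elements. -/
lemma exists_gens (n : ℕ) (hn : ringKrullDim B ≤ n) :
    ∃ x : Fin (n + 1) → FractionRing B, IntermediateField.adjoin k (Set.range x) = ⊤ := by
  classical
  have : Algebra.EssFiniteType B (FractionRing B) :=
    .of_isLocalization _ (nonZeroDivisors B)
  have : Algebra.EssFiniteType k (FractionRing B) := .comp _ B _
  obtain ⟨s, hs, hsep⟩ := exists_isTranscendenceBasis_and_isSeparable_of_perfectField k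
    (FractionRing B)
  -- the cardinality of `s`
  obtain ⟨r, g, ginj, gint⟩ := exists_integral_inj_algHom_of_fg k B
  let _ : Algebra (MvPolynomial (Fin r) k) B := g.toRingHom.toAlgebra
  have : IsScalarTower k (MvPolynomial (Fin r) k) B := .of_algebraMap_eq fun a => (g.commutes a).symm
  have hint : Algebra.IsIntegral (MvPolynomial (Fin r) k) B := ⟨gint⟩
  have hr : r ≤ n := by
    have h1 := (dim_le_of_integral (R := MvPolynomial (Fin r) k) (S := B) ginj).trans hn
    rw [MvPolynomial.ringKrullDim_of_isNoetherianRing, ringKrullDim_eq_zero_of_field, zero_add,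
      Nat.card_eq_fintype_card, Fintype.card_fin] at h1
    exact_mod_cast h1
  have : FaithfulSMul (MvPolynomial (Fin r) k) B :=
    (faithfulSMul_iff_algebraMap_injective _ _).mpr ginj
  have hb1 : IsTranscendenceBasis k (algebraMap (MvPolynomial (Fin r) k) B ∘ X) :=
    (IsTranscendenceBasis.mvPolynomial (Fin r) k).algebraMap_comp
  have hal : Algebra.IsAlgebraic B (FractionRing B) :=
    (IsFractionRing.comap_isAlgebraic_iff (A := B) (K := FractionRing B)
      (C := FractionRing B)).mpr inferInstance
  have hb2 : IsTranscendenceBasis k (algebraMap B (FractionRing B) ∘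
      (algebraMap (MvPolynomial (Fin r) k) B ∘ X)) := hb1.algebraMap_comp
  have hcard : s.card = r := by
    have h1 := IsTranscendenceBasis.cardinalMk_eq hs hb2
    rw [Cardinal.mk_fin, Cardinal.mk_coe_finset] at h1
    exact_mod_cast h1
  -- the primitive element
  let E := IntermediateField.adjoin k (s : Set (FractionRing B))
  have hfd : FiniteDimensional E (FractionRing B) := by
    obtain ⟨t, ht⟩ := IntermediateField.fg_top k (FractionRing B)
    have h1 : FiniteDimensional E (IntermediateField.adjoin E (t : Set (FractionRing B))) :=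
      IntermediateField.finiteDimensional_adjoin fun x _ => Algebra.IsIntegral.isIntegral x
    have h2 : IntermediateField.adjoin E (t : Set (FractionRing B)) = ⊤ := by
      rw [← IntermediateField.restrictScalars_eq_top_iff (K := k),
        IntermediateField.adjoin_adjoin_left, IntermediateField.adjoin_union, ht, sup_top_eq]
    rw [h2] at h1
    exact IntermediateField.topEquiv.toLinearEquiv.finiteDimensional
  obtain ⟨θ, hθ⟩ := Field.exists_primitive_element E (FractionRing B)
  have htop : IntermediateField.adjoin k ((insert θ s : Finset (FractionRing B)) :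
      Set (FractionRing B)) = ⊤ := by
    rw [Finset.coe_insert, ← Set.union_singleton, ← IntermediateField.adjoin_adjoin_left]
    exact (IntermediateField.restrictScalars_eq_top_iff (K := k)).mpr hθ
  let t : Finset (FractionRing B) := insert θ s
  have htc : t.card ≤ n + 1 := (Finset.card_insert_le _ _).trans (by omega)
  refine ⟨fun i => if h : i.1 < t.card then (t.equivFin.symm ⟨i.1, h⟩).1 else θ, ?_⟩
  rw [← htop]
  congr 1
  ext y
  constructor
  · rintro ⟨i, rfl⟩
    dsimp only
    split_ifs with h
    · exact (t.equivFin.symm ⟨i.1, h⟩).2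
    · exact Finset.mem_insert_self _ _
  · intro hy
    have hy' : y ∈ t := hy
    refine ⟨⟨(t.equivFin ⟨y, hy'⟩).1, by omega⟩, ?_⟩
    dsimp only
    rw [dif_pos (t.equivFin ⟨y, hy'⟩).2]
    simp

end gens

section emb

variable {k : Type} [Field k] {B : Type} [CommRing B] [IsDomain B] [Algebra k B]
  {N : ℕ} (x : Fin N → FractionRing B)

/-- the elements of `k[x][1/G0(x)]` -/
def Ts (G0 : MvPolynomial (Fin N) k) : Subalgebra k (FractionRing B) where
  carrier := {a | ∃ (m : ℕ) (p : MvPolynomial (Fin N) k), aeval x G0 ^ m * a = aeval x p}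
  mul_mem' := by
    rintro a b ⟨m, p, h1⟩ ⟨m', p', h2⟩
    refine ⟨m + m', p * p', ?_⟩
    rw [map_mul, ← h1, ← h2, pow_add]
    ring
  add_mem' := by
    rintro a b ⟨m, p, h1⟩ ⟨m', p', h2⟩
    refine ⟨m + m', G0 ^ m' * p + G0 ^ m * p', ?_⟩
    rw [map_add, map_mul, map_mul, map_pow, map_pow, ← h1, ← h2, pow_add]
    ring
  algebraMap_mem' := by
    intro r
    refine ⟨0, C r, ?_⟩
    rw [pow_zero, one_mul, algHom_C]

/-- A domain of finite type whose fraction field is generated by `N` elements has a non-empty open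
subscheme which is a locally closed subscheme of the affine space of dimension `N`. -/
lemma exists_emb [Algebra.FiniteType k B]
    (hx : IntermediateField.adjoin k (Set.range x) = ⊤) :
    ∃ w : B, w ≠ 0 ∧ ∃ (φ : MvPolynomial (Fin N) k →ₐ[k] Localization.Away w)
      (g : MvPolynomial (Fin N) k), IsUnit (φ g) ∧ ∀ a, ∃ (m : ℕ) (p : MvPolynomial (Fin N) k),
        φ g ^ m * a = φ p := by
  classical
  -- every element is a quotient of polynomials in `x`
  have hq : ∀ y : FractionRing B, ∃ p q : MvPolynomial (Fin N) k, aeval x q ≠ 0 ∧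
      aeval x q * y = aeval x p := by
    intro y
    have h1 : y ∈ IntermediateField.adjoin k (Set.range x) := by
      rw [hx]
      trivial
    obtain ⟨p, q, h2⟩ := (IntermediateField.mem_adjoin_range_iff k x y).mp h1
    by_cases h3 : aeval x q = 0
    · refine ⟨0, 1, ?_, ?_⟩
      · rw [map_one]
        exact one_ne_zero
      · rw [h2, h3, div_zero, mul_zero, map_zero]
    · refine ⟨p, q, h3, ?_⟩
      rw [h2]
      field_simp
  choose num den hden hnum using hq
  -- common denominator of `x`
  obtain ⟨⟨f, hf⟩, hfx⟩ := IsLocalization.exist_integer_multiples_of_finite (nonZeroDivisors B) x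
  choose a ha using hfx
  have hf0 : f ≠ 0 := nonZeroDivisors.ne_zero hf
  obtain ⟨S, hS⟩ := (Algebra.FiniteType.out : (⊤ : Subalgebra k B).FG)
  let ι0 : B →+* FractionRing B := algebraMap B (FractionRing B)
  have hι0 : Function.Injective ι0 := IsFractionRing.injective B (FractionRing B)
  let G0 : MvPolynomial (Fin N) k := den ((ι0 f)⁻¹) * ∏ b ∈ S, den (ι0 b)
  have hG0 : aeval x G0 ≠ 0 := by
    rw [map_mul, map_prod]
    exact mul_ne_zero (hden _) (Finset.prod_ne_zero_iff.mpr fun b _ => hden _)
  -- `B` is contained in `Ts`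
  have hT1 : (ι0 f)⁻¹ ∈ Ts x G0 := by
    refine ⟨1, num ((ι0 f)⁻¹) * ∏ b ∈ S, den (ι0 b), ?_⟩
    rw [pow_one, map_mul, map_mul, ← hnum]
    ring
  have hT2 : ∀ b : B, ι0 b ∈ Ts x G0 := by
    have h1 : (⊤ : Subalgebra k B) ≤
        (Ts x G0).comap (IsScalarTower.toAlgHom k B (FractionRing B)) := by
      rw [← hS, Algebra.adjoin_le_iff]
      intro b hb
      refine ⟨1, den ((ι0 f)⁻¹) * (num (ι0 b) * ∏ c ∈ S.erase b, den (ι0 c)), ?_⟩
      have h2 : ∏ c ∈ S, den (ι0 c) = den (ι0 b) * ∏ c ∈ S.erase b, den (ι0 c) :=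
        (Finset.mul_prod_erase S (fun c => den (ι0 c)) hb).symm
      have h3 := hnum (ι0 b)
      change aeval x G0 ^ 1 * ι0 b = _
      rw [pow_one, map_mul, h2, map_mul, map_mul, map_mul, ← h3]
      ring
    intro b
    exact h1 (Algebra.mem_top (x := b))
  have hT3 : (aeval x G0)⁻¹ ∈ Ts x G0 := by
    refine ⟨1, 1, ?_⟩
    rw [pow_one, map_one]
    exact mul_inv_cancel₀ hG0
  -- `G0(x)` as a fraction
  have hφ : ∀ p : MvPolynomial (Fin N) k, ∃ (M : ℕ) (b : B), aeval x p * ι0 f ^ M = ι0 b := by
    intro p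
    induction p using MvPolynomial.induction_on with
    | C r =>
      refine ⟨0, algebraMap k B r, ?_⟩
      rw [pow_zero, mul_one, algHom_C]
      exact IsScalarTower.algebraMap_apply k B (FractionRing B) r
    | add p q hp hq =>
      obtain ⟨M, b, h1⟩ := hp
      obtain ⟨M', b', h2⟩ := hq
      refine ⟨M + M', b * f ^ M' + b' * f ^ M, ?_⟩
      rw [map_add, map_add, map_mul, map_mul, map_pow, map_pow, ← h1, ← h2, pow_add]
      ring
    | mul_X p i hp =>
      obtain ⟨M, b, h1⟩ := hp
      refine ⟨M + 1, b * a i, ?_⟩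
      have h2 : ι0 (a i) = ι0 f * x i := by
        have := ha i
        rw [Algebra.smul_def] at this
        exact this
      rw [map_mul, map_mul, aeval_X, h2, ← h1]
      ring
  obtain ⟨M, w', hw'⟩ := hφ G0
  have hιf : ι0 f ≠ 0 := fun h => hf0 (hι0 (h.trans (map_zero ι0).symm))
  have hw'0 : w' ≠ 0 := by
    rintro rfl
    rw [map_zero] at hw'
    exact (mul_ne_zero hG0 (pow_ne_zero _ hιf)) hw'
  let w : B := f * w'
  have hw0 : w ≠ 0 := mul_ne_zero hf0 hw'0
  have hιw : ι0 w ≠ 0 := fun h => hw0 (hι0 (h.trans (map_zero ι0).symm))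
  refine ⟨w, hw0, ?_⟩
  -- the localisation and its embedding
  let L := Localization.Away w
  let ι : L →+* FractionRing B := IsLocalization.Away.lift w (g := ι0) (isUnit_iff_ne_zero.mpr hιw)
  have hι : ∀ b, ι (algebraMap B L b) = ι0 b := fun b => IsLocalization.Away.lift_eq w _ b
  have hsurj : ∀ c : L, ∃ (n : ℕ) (b : B), c * algebraMap B L w ^ n = algebraMap B L b := by
    intro c
    obtain ⟨⟨b, ⟨_, n, rfl⟩⟩, hb⟩ := IsLocalization.surj (Submonoid.powers w) c
    refine ⟨n, b, ?_⟩
    rw [← map_pow]
    exact hb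
  have hιinj : Function.Injective ι := by
    rw [injective_iff_map_eq_zero]
    intro c hc
    obtain ⟨n, b, hb⟩ := hsurj c
    have h1 := congrArg ι hb
    rw [map_mul, hc, zero_mul, hι] at h1
    have h2 : b = 0 := hι0 (h1.symm.trans (map_zero ι0).symm)
    rw [h2, map_zero] at hb
    exact ((IsLocalization.Away.algebraMap_isUnit (S := L) w).pow n).mul_left_eq_zero.mp hb
  have huw : IsUnit (algebraMap B L w) := IsLocalization.Away.algebraMap_isUnit w
  have huf : IsUnit (algebraMap B L f) := by
    have h1 : algebraMap B L w = algebraMap B L f * algebraMap B L w' := map_mul _ _ _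
    rw [h1] at huw
    exact isUnit_of_mul_isUnit_left huw
  have huw' : IsUnit (algebraMap B L w') := by
    have h1 : algebraMap B L w = algebraMap B L f * algebraMap B L w' := map_mul _ _ _
    rw [h1] at huw
    exact isUnit_of_mul_isUnit_right huw
  let fi : L := ↑huf.unit⁻¹
  have hfi : algebraMap B L f * fi = 1 := huf.mul_val_inv
  let φ : MvPolynomial (Fin N) k →ₐ[k] L := aeval fun i => algebraMap B L (a i) * fi
  have hax : ∀ i, ι0 (a i) = ι0 f * x i := by
    intro i
    have := ha i
    rw [Algebra.smul_def] at this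
    exact this
  have hιfi : ι0 f * ι fi = 1 := by
    rw [← hι f, ← map_mul, hfi, map_one]
  have hιφ : ∀ p, ι (φ p) = aeval x p := by
    have h1 : ι.comp φ.toRingHom = (aeval x : MvPolynomial (Fin N) k →ₐ[k] _).toRingHom := by
      apply MvPolynomial.ringHom_ext
      · intro r
        change ι (φ (C r)) = aeval x (C r)
        rw [algHom_C, algHom_C, IsScalarTower.algebraMap_apply k B L, hι]
        exact (IsScalarTower.algebraMap_apply k B (FractionRing B) r).symm
      · intro i
        change ι (φ (X i)) = aeval x (X i)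
        have h2 : φ (X i) = algebraMap B L (a i) * fi := aeval_X _ _
        rw [h2, map_mul, hι, hax, aeval_X]
        linear_combination x i * hιfi
    intro p
    exact congrArg (fun h : MvPolynomial (Fin N) k →+* FractionRing B => h p) h1
  refine ⟨φ, G0, ?_, ?_⟩
  · have h1 : φ G0 * algebraMap B L f ^ M = algebraMap B L w' := by
      apply hιinj
      rw [map_mul, map_pow, hιφ, hι, hι, hw']
    rw [← h1] at huw'
    exact isUnit_of_mul_isUnit_left huw'
  · intro c
    have h1 : ι c ∈ Ts x G0 := by
      obtain ⟨n, b, hb⟩ := hsurj c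
      have h3 := congrArg ι hb
      rw [map_mul, map_pow, hι, hι] at h3
      have h4 : (ι0 w)⁻¹ ∈ Ts x G0 := by
        have h5 : (ι0 w)⁻¹ = (ι0 f)⁻¹ * ((aeval x G0)⁻¹ * ((ι0 f)⁻¹) ^ M) := by
          change (ι0 (f * w'))⁻¹ = _
          rw [map_mul, ← hw', mul_inv, mul_inv, inv_pow]
        rw [h5]
        exact mul_mem hT1 (mul_mem hT3 (pow_mem hT1 M))
      have h6 : ι c = ι0 b * ((ι0 w)⁻¹) ^ n := by
        rw [← h3, mul_assoc, inv_pow, mul_inv_cancel₀ (pow_ne_zero _ hιw), mul_one]
      rw [h6]
      exact mul_mem (hT2 b) (pow_mem h4 n)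
    obtain ⟨m, p, h2⟩ := h1
    refine ⟨m, p, hιinj ?_⟩
    rw [map_mul, map_pow, hιφ, hιφ, h2]

end emb

end Pool.Agent.Z125.UN
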