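import Pool.Agent.H89.L.Z125_UN_Schur
import Pool.Agent.H89.L.Y116_UV_Defs

/-!
# Motives of schemes over a field, axiomatically

Data `M`, `Mc`, `L` in a `ℚ`-linear symmetric monoidal triangulated category `C` (in the application:
Voevodsky's category `DM_gm(k)_ℚ`, the motive, the motive with compact support, the object `ℤ(1)[2]`)
and the standard properties of them.
-/

set_option autoImplicit false

open CategoryTheory MonoidalCategory AlgebraicGeometry Pool.Agent.TH137.DG Pool.Agent.Y116.UV

namespace Pool.Agent.Z125.UN

universe v u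

/-- The motives `M X` (used for smooth `X`) and the motives with compact support `Mc X` of the schemes
over the field `k`, and the Lefschetz object `L = ℚ(1)[2]`. -/
structure Motives (k : Type) [Field k] (C : Type u) where
  M : Sch k → C
  Mc : Sch k → C
  L : C

/-- `L ⊗ (L ⊗ ⋯ (L ⊗ A))`, with `n` factors `L` -/
@[reducible] def tw {C : Type u} [Category.{v} C] [MonoidalCategory C] (L : C) : ℕ → C → C
  | 0, A => A
  | n + 1, A => L ⊗ tw L n A

variable {k : Type} [Field k] {C : Type u} [Category.{v} C] [MonoidalCategory C]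
  [SymmetricCategory C] [Preadditive C] [Linear ℚ C] [Limits.HasZeroObject C] [HasShift C ℤ]
  [∀ n : ℤ, (shiftFunctor C n).Additive] [Pretriangulated C]

/-- The standard properties of the category of geometric motives over a perfect field `k` with rational
coefficients and of the motives of separated schemes of finite type over `k`.

* `cone`, `shift`, `twist`: Schur-finite objects have the two-out-of-three property in distinguished
  triangles, and they are stable under shifts and Tate twists (Guletskii, Mazza);
* `iso`: isomorphic schemes have isomorphic motives with compact support;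
* `localization`: the triangle `Mc Z → Mc X → Mc U → Mc Z[1]` for a closed subscheme `Z` of `X` and
  its complement `U` (Voevodsky, Kelly);
* `bundle`: for the affine bundle `Spec A[w_1, …, w_m] / (∑ f_l w_l - 1) → U` with fibre `𝔸^(m-1)`,
  where `U` is the complement of `f = 0` in `Spec A`, the motive with compact support of the total
  space is the one of `U` twisted by `(m-1)[2m-2]`;
* `torus`: `Mc (X × 𝔾_m)` is the sum of `Mc X (1)[2]` and `Mc X [1]`, so that `L ⊗ Mc X` is a direct
  summand of it;
* `point`: `Mc (Spec k)` is the unit;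
* `duality`: for smooth `X` the object `Mc X` is, up to a Tate twist on each connected component,
  the dual of `M X`; so `M X` is Schur-finite if and only if `Mc X` is Schur-finite;
* `curves`: the motive `M X` is Schur-finite for smooth `X` of dimension at most one (Guletskii,
  Mazza). -/
structure IsMotives (D : Motives k C) : Prop where
  cone : ∀ T ∈ Pretriangulated.distinguishedTriangles (C := C), IsSchurFinite T.obj₁ →
    IsSchurFinite T.obj₂ → IsSchurFinite T.obj₃
  shift : ∀ (A : C) (n : ℤ), IsSchurFinite A → IsSchurFinite (A⟦n⟧)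
  twist : ∀ A : C, IsSchurFinite (D.L ⊗ A) ↔ IsSchurFinite A
  iso : ∀ {X Y : Sch k}, FT True X → Nonempty (X ≅ Y) → Nonempty (D.Mc X ≅ D.Mc Y)
  localization : ∀ {Z X U : Sch k} (i : Z ⟶ X) (j : U ⟶ X), FT True X → IsTriple i j →
    ∃ (a : D.Mc Z ⟶ D.Mc X) (b : D.Mc X ⟶ D.Mc U) (d : D.Mc U ⟶ (D.Mc Z)⟦(1 : ℤ)⟧),
      Pretriangulated.Triangle.mk a b d ∈ Pretriangulated.distinguishedTriangles (C := C)
  bundle : ∀ (A : Type) [CommRing A] [Algebra k A] [Algebra.FiniteType k A] (m : ℕ)
    (f : Fin m → A) (U : Sch k) (j : U ⟶ aff k A), IsOpenImmersion j.left →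
    Set.range j.left = {x : PrimeSpectrum A | ∃ l, f l ∉ x.asIdeal} →
    Nonempty (D.Mc (aff k (Jou f)) ≅ tw D.L (m - 1) (D.Mc U))
  torus : ∀ (A : Type) [CommRing A] [Algebra k A] [Algebra.FiniteType k A],
    ∃ (s : D.L ⊗ D.Mc (aff k A) ⟶ D.Mc (aff k (LaurentPolynomial A)))
      (r : D.Mc (aff k (LaurentPolynomial A)) ⟶ D.L ⊗ D.Mc (aff k A)), s ≫ r = 𝟙 _
  point : Nonempty (D.Mc (aff k k) ≅ 𝟙_ C)
  duality : ∀ X : Sch k, FT True X → Smooth X.hom →
    (IsSchurFinite (D.M X) ↔ IsSchurFinite (D.Mc X))
  curves : ∀ X : Sch k, FT True X → Smooth X.hom → topologicalKrullDim X.left ≤ 1 →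
    IsSchurFinite (D.M X)

end Pool.Agent.Z125.UN
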