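import Pool.Agent.H89.L.Z125_UN_Grad

/-!
# Noetherian induction
-/

set_option autoImplicit false

open CategoryTheory AlgebraicGeometry MvPolynomial Pool.Agent.Y116.UV

namespace Pool.Agent.Z125.UN

variable {R : Type} [CommRing R] {sep : Prop} {P : Sch R → Prop} (hP : Bnd sep P)

include hP

section split

variable {A : Type} [CommRing A] [Algebra R A] [Algebra.FiniteType R A]

lemma ring_total (w : A) (h1 : P (aff R (A ⧸ Ideal.span {w})))
    (h2 : P (aff R (Localization.Away w))) : P (aff R A) :=
  hP.total _ _ (ft_aff sep) (triple_away w) h1 h2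

lemma ring_open (w : A) (h1 : P (aff R (A ⧸ Ideal.span {w}))) (h2 : P (aff R A)) :
    P (aff R (Localization.Away w)) :=
  hP.opened _ _ (ft_aff sep) (triple_away w) h1 h2

/-- quotients of quotients -/
lemma quot_ideal (I J : Ideal A) (h : P (aff R (A ⧸ (I ⊔ J)))) :
    P (aff R ((A ⧸ I) ⧸ Ideal.map (Ideal.Quotient.mkₐ R I) J)) :=
  iso_alg hP.toUni (DoubleQuot.quotQuotEquivQuotSupₐ R I J).symm h

/-- quotients of quotients -/
lemma quot_mk (I : Ideal A) (a : A) (h : P (aff R (A ⧸ (I ⊔ Ideal.span {a})))) :
    P (aff R ((A ⧸ I) ⧸ Ideal.span {Ideal.Quotient.mk I a})) := by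
  have h2 : Ideal.map (Ideal.Quotient.mkₐ R I) (Ideal.span {a}) =
      Ideal.span {Ideal.Quotient.mk I a} := by
    rw [Ideal.map_span, Set.image_singleton]
    rfl
  rw [← h2]
  exact quot_ideal hP I _ h

end split

section

variable {A : Type} [CommRing A] [Algebra R A] [Algebra.FiniteType R A]

/-- If `a b = 0` then `A_a` is the localisation of `A / b`. -/
lemma zero_div {a b : A} (hab : a * b = 0) (h1 : P (aff R (A ⧸ Ideal.span {b})))
    (h2 : P (aff R ((A ⧸ Ideal.span {b}) ⧸ Ideal.span {Ideal.Quotient.mk (Ideal.span {b}) a}))) :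
    P (aff R (Localization.Away a)) := by
  have h3 := ring_open hP (Ideal.Quotient.mk (Ideal.span {b}) a) h2 h1
  -- the two localisations are isomorphic
  let B := A ⧸ Ideal.span {b}
  let S := Localization.Away (Ideal.Quotient.mk (Ideal.span {b}) a)
  let f : A →+* S := (algebraMap B S).comp (Ideal.Quotient.mk (Ideal.span {b}))
  let _ : Algebra A S := f.toAlgebra
  have hloc : IsLocalization.Away a S := by
    have hu : IsUnit (algebraMap A S a) := IsLocalization.Away.algebraMap_isUnit
      (S := S) (Ideal.Quotient.mk (Ideal.span {b}) a)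
    refine ⟨?_, ?_, ?_⟩
    · rintro ⟨_, n, rfl⟩
      change IsUnit (algebraMap A S (a ^ n))
      rw [map_pow]
      exact hu.pow n
    · intro z
      obtain ⟨⟨y, ⟨_, n, rfl⟩⟩, hy⟩ := IsLocalization.surj
        (Submonoid.powers (Ideal.Quotient.mk (Ideal.span {b}) a)) z
      obtain ⟨y, rfl⟩ := Ideal.Quotient.mk_surjective y
      refine ⟨(y, ⟨a ^ n, n, rfl⟩), ?_⟩
      change z * algebraMap A S (a ^ n) = _
      have h4 : algebraMap A S (a ^ n) =
          algebraMap B S ((Ideal.Quotient.mk (Ideal.span {b}) a) ^ n) := by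
        rw [← map_pow]
        rfl
      rw [h4]
      exact hy
    · intro x y hxy
      have h5 : algebraMap B S (Ideal.Quotient.mk _ x) = algebraMap B S (Ideal.Quotient.mk _ y) :=
        hxy
      obtain ⟨⟨_, n, rfl⟩, hc⟩ := (IsLocalization.eq_iff_exists
        (Submonoid.powers (Ideal.Quotient.mk (Ideal.span {b}) a)) S).mp h5
      have h6 : Ideal.Quotient.mk (Ideal.span {b}) (a ^ n * x - a ^ n * y) = 0 := by
        rw [map_sub, map_mul, map_mul, map_pow]
        exact sub_eq_zero.mpr hc
      rw [Ideal.Quotient.eq_zero_iff_mem, Ideal.mem_span_singleton] at h6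
      obtain ⟨c, hc⟩ := h6
      refine ⟨⟨a ^ (n + 1), n + 1, rfl⟩, ?_⟩
      change a ^ (n + 1) * x = a ^ (n + 1) * y
      have h7 : a ^ (n + 1) * x - a ^ (n + 1) * y = (a * b) * c := by
        linear_combination a * hc
      rw [hab, zero_mul, sub_eq_zero] at h7
      exact h7
  let e : Localization.Away a ≃ₐ[A] S :=
    IsLocalization.algEquiv (Submonoid.powers a) (Localization.Away a) S
  let e2 : S ≃ₐ[R] Localization.Away a := AlgEquiv.ofRingEquiv (f := e.symm.toRingEquiv) (by
    intro r
    have h8 : algebraMap R S r = algebraMap A S (algebraMap R A r) := rfl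
    change e.symm (algebraMap R S r) = _
    rw [h8, e.symm.commutes, ← IsScalarTower.algebraMap_apply])
  have : Algebra.FiniteType R S :=
    Algebra.FiniteType.trans (S := A ⧸ Ideal.span {b}) inferInstance inferInstance
  exact iso_alg hP.toUni e2 h3

end

/-- Noetherian induction: it is enough to find, for each domain of finite type, a non-empty open
subscheme for which the property is true. -/
theorem noeth [IsNoetherianRing R] {A : Type} [CommRing A] [Algebra R A] [Algebra.FiniteType R A]
    (h0 : ∀ (B : Type) [CommRing B] [Algebra R B], Subsingleton B → P (aff R B))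
    (hD : ∀ p : Ideal A, p.IsPrime → ∃ w : A ⧸ p, w ≠ 0 ∧ P (aff R (Localization.Away w))) :
    P (aff R A) := by
  have hN : IsNoetherianRing A := Algebra.FiniteType.isNoetherianRing R A
  have key : ∀ I : Ideal A, P (aff R (A ⧸ I)) := by
    intro I
    induction I using IsNoetherian.induction with
    | hgt I ih =>
    by_cases hI : I = ⊤
    · subst hI
      exact h0 _ (Ideal.Quotient.subsingleton_iff.mpr rfl)
    by_cases hp : Ideal.IsPrime I
    · obtain ⟨w, hw, hPw⟩ := hD I hp
      obtain ⟨w, rfl⟩ := Ideal.Quotient.mk_surjective w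
      refine ring_total hP _ (quot_mk hP I w (ih _ ?_)) hPw
      refine lt_of_le_of_ne le_sup_left fun h => hw ?_
      rw [Ideal.Quotient.eq_zero_iff_mem, h]
      exact Ideal.mem_sup_right (Ideal.mem_span_singleton_self w)
    · have h1 : ∃ a b, a * b ∈ I ∧ a ∉ I ∧ b ∉ I := by
        by_contra hcon
        push Not at hcon
        exact hp ⟨hI, fun {a b} hab => by
          by_contra h
          push Not at h
          exact h.2 (hcon a b hab h.1)⟩
      obtain ⟨a, b, hab, ha, hb⟩ := h1
      have hJ : ∀ c, c ∉ I → I < I ⊔ Ideal.span {c} := fun c hc =>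
        lt_of_le_of_ne le_sup_left fun h => hc (by
          rw [h]
          exact Ideal.mem_sup_right (Ideal.mem_span_singleton_self c))
      have hPa := quot_mk hP I a (ih _ (hJ a ha))
      have hPb := quot_mk hP I b (ih _ (hJ b hb))
      refine ring_total hP _ hPa (zero_div hP (b := Ideal.Quotient.mk I b) ?_ hPb ?_)
      · rw [← map_mul, Ideal.Quotient.eq_zero_iff_mem]
        exact hab
      · have h2 := ih (I ⊔ (Ideal.span {b} ⊔ Ideal.span {a}))
          (lt_of_lt_of_le (hJ b hb) (sup_le_sup_left le_sup_left I))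
        have h3 := quot_ideal hP I _ h2
        have h4 : Ideal.map (Ideal.Quotient.mkₐ R I) (Ideal.span {b} ⊔ Ideal.span {a}) =
            Ideal.span {Ideal.Quotient.mk I b} ⊔ Ideal.span {Ideal.Quotient.mk I a} := by
          rw [Ideal.map_sup, Ideal.map_span, Ideal.map_span, Set.image_singleton,
            Set.image_singleton]
          rfl
        rw [h4] at h3
        exact quot_mk hP _ _ h3
  have h := key ⊥
  exact iso_alg hP.toUni (AlgEquiv.quotientBot R A) h

end Pool.Agent.Z125.UN
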