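import Pool.Agent.H89.L.TH137_DG_SchurLemma

/-!
# Schur-finite objects: direct summands and the unit
-/

set_option autoImplicit false

open CategoryTheory MonoidalCategory Pool.Agent.TH137.DG

namespace Pool.Agent.Z125.UN

universe v u

variable {C : Type u} [Category.{v} C] [MonoidalCategory C]

/-- the tensor powers of a morphism -/
def tpm {a b : C} (f : a ⟶ b) : ∀ n, tpow a n ⟶ tpow b n
  | 0 => 𝟙 _
  | n + 1 => f ⊗ₘ tpm f n

lemma tpm_comp {a b c : C} (f : a ⟶ b) (g : b ⟶ c) : ∀ n, tpm f n ≫ tpm g n = tpm (f ≫ g) n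
  | 0 => Category.id_comp _
  | n + 1 => by
    change (f ⊗ₘ tpm f n) ≫ (g ⊗ₘ tpm g n) = (f ≫ g) ⊗ₘ tpm (f ≫ g) n
    rw [tensorHom_comp_tensorHom, tpm_comp f g n]

lemma tpm_id (a : C) : ∀ n, tpm (𝟙 a) n = 𝟙 _
  | 0 => rfl
  | n + 1 => by
    change 𝟙 a ⊗ₘ tpm (𝟙 a) n = _
    rw [tpm_id a n, id_tensorHom_id]

variable [SymmetricCategory C]

lemma insAct_nat {a b : C} (f : a ⟶ b) : ∀ (n : ℕ) (j : Fin (n + 1)),
    insAct a n j ≫ tpm f (n + 1) = tpm f (n + 1) ≫ insAct b n j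
  | 0, j => by
    change 𝟙 _ ≫ _ = _ ≫ 𝟙 _
    rw [Category.id_comp, Category.comp_id]
  | n + 1, j => by
    refine Fin.cases ?_ (fun j' => ?_) j
    · change 𝟙 _ ≫ _ = _ ≫ 𝟙 _
      rw [Category.id_comp, Category.comp_id]
    · have ih := insAct_nat f n j'
      change ((α_ a a (tpow a n)).inv ≫ (β_ a a).hom ▷ tpow a n ≫ (α_ a a (tpow a n)).hom ≫
        a ◁ insAct a n j') ≫ (f ⊗ₘ tpm f (n + 1)) = (f ⊗ₘ (f ⊗ₘ tpm f n)) ≫
        ((α_ b b (tpow b n)).inv ≫ (β_ b b).hom ▷ tpow b n ≫ (α_ b b (tpow b n)).hom ≫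
        b ◁ insAct b n j')
      have e1 : a ◁ insAct a n j' ≫ (f ⊗ₘ tpm f (n + 1)) =
          (f ⊗ₘ tpm f (n + 1)) ≫ b ◁ insAct b n j' := by
        rw [← id_tensorHom, ← id_tensorHom, tensorHom_comp_tensorHom, tensorHom_comp_tensorHom, ih,
          Category.id_comp, Category.comp_id]
      have e2 : (f ⊗ₘ (f ⊗ₘ tpm f n)) ≫ (α_ b b (tpow b n)).inv =
          (α_ a a (tpow a n)).inv ≫ ((f ⊗ₘ f) ⊗ₘ tpm f n) := by
        rw [associator_inv_naturality]
      have e3 : ((f ⊗ₘ f) ⊗ₘ tpm f n) ≫ (β_ b b).hom ▷ tpow b n =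
          (β_ a a).hom ▷ tpow a n ≫ ((f ⊗ₘ f) ⊗ₘ tpm f n) := by
        rw [← tensorHom_id, ← tensorHom_id, tensorHom_comp_tensorHom, tensorHom_comp_tensorHom,
          BraidedCategory.braiding_naturality, Category.id_comp, Category.comp_id]
      have e4 : ((f ⊗ₘ f) ⊗ₘ tpm f n) ≫ (α_ b b (tpow b n)).hom =
          (α_ a a (tpow a n)).hom ≫ (f ⊗ₘ (f ⊗ₘ tpm f n)) := by
        rw [associator_naturality]
      simp only [Category.assoc]
      rw [e1, reassoc_of% e2, reassoc_of% e3, reassoc_of% e4]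
      rfl

lemma permAct_nat {a b : C} (f : a ⟶ b) : ∀ (n : ℕ) (σ : Equiv.Perm (Fin n)),
    permAct a n σ ≫ tpm f n = tpm f n ≫ permAct b n σ
  | 0, σ => by
    change 𝟙 _ ≫ _ = _ ≫ 𝟙 _
    rw [Category.id_comp, Category.comp_id]
  | n + 1, σ => by
    have ih := permAct_nat f n (permTail σ)
    change (a ◁ permAct a n (permTail σ) ≫ insAct a n (σ 0)) ≫ tpm f (n + 1) =
      tpm f (n + 1) ≫ (b ◁ permAct b n (permTail σ) ≫ insAct b n (σ 0))
    rw [Category.assoc, insAct_nat, ← Category.assoc, ← Category.assoc]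
    congr 1
    change a ◁ permAct a n (permTail σ) ≫ (f ⊗ₘ tpm f n) = (f ⊗ₘ tpm f n) ≫ _
    rw [← id_tensorHom, ← id_tensorHom, tensorHom_comp_tensorHom, tensorHom_comp_tensorHom, ih,
      Category.id_comp, Category.comp_id]

variable [Preadditive C] [Linear ℚ C]

lemma grpAct_nat {a b : C} (f : a ⟶ b) (n : ℕ) (c : MonoidAlgebra ℚ (Equiv.Perm (Fin n))) :
    grpAct a n c ≫ tpm f n = tpm f n ≫ grpAct b n c := by
  unfold grpAct
  rw [Finsupp.sum, Finsupp.sum, Preadditive.sum_comp, Preadditive.comp_sum]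
  apply Finset.sum_congr rfl
  intro σ _
  rw [Linear.smul_comp, Linear.comp_smul, permAct_nat]

/-- A direct summand of a Schur-finite object is Schur-finite. -/
theorem sf_retract {a b : C} (s : a ⟶ b) (r : b ⟶ a) (h : s ≫ r = 𝟙 a) (hb : IsSchurFinite b) :
    IsSchurFinite a := by
  obtain ⟨n, μ, T, hn, h0⟩ := hb
  refine ⟨n, μ, T, hn, ?_⟩
  have h1 : grpAct a n (youngSymmetrizer T) ≫ tpm s n = 0 := by
    rw [grpAct_nat, h0, Limits.comp_zero]
  have h2 : (grpAct a n (youngSymmetrizer T) ≫ tpm s n) ≫ tpm r n = 0 := by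
    rw [h1, Limits.zero_comp]
  rwa [Category.assoc, tpm_comp, h, tpm_id, Category.comp_id] at h2

theorem sf_iso {a b : C} (e : Nonempty (a ≅ b)) : IsSchurFinite a ↔ IsSchurFinite b := by
  obtain ⟨e⟩ := e
  exact ⟨sf_retract e.inv e.hom e.inv_hom_id, sf_retract e.hom e.inv e.hom_inv_id⟩

omit [Preadditive C] [Linear ℚ C] in
lemma insAct_unit : ∀ (n : ℕ) (j : Fin (n + 1)), insAct (𝟙_ C) n j = 𝟙 _
  | 0, j => rfl
  | n + 1, j => by
    refine Fin.cases rfl (fun j' => ?_) j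
    change (α_ _ _ (tpow (𝟙_ C) n)).inv ≫ (β_ (𝟙_ C) (𝟙_ C)).hom ▷ tpow (𝟙_ C) n ≫
      (α_ _ _ (tpow (𝟙_ C) n)).hom ≫ (𝟙_ C) ◁ insAct (𝟙_ C) n j' = 𝟙 _
    have e3 : (β_ (𝟙_ C) (𝟙_ C)).hom = 𝟙 _ := by
      rw [braiding_tensorUnit_left]
      simp [unitors_equal]
    rw [e3, insAct_unit n j']
    simp

omit [Preadditive C] [Linear ℚ C] in
lemma permAct_unit : ∀ (n : ℕ) (σ : Equiv.Perm (Fin n)), permAct (𝟙_ C) n σ = 𝟙 _
  | 0, σ => rfl
  | n + 1, σ => by
    change (𝟙_ C) ◁ permAct (𝟙_ C) n (permTail σ) ≫ insAct (𝟙_ C) n (σ 0) = 𝟙 _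
    rw [insAct_unit, permAct_unit n]
    simp

/-- a column with two cells -/
def col2 : YoungDiagram where
  cells := {(0, 0), (1, 0)}
  isLowerSet := by
    intro a b h ha
    simp only [Finset.coe_insert, Finset.coe_singleton, Set.mem_insert_iff,
      Set.mem_singleton_iff] at ha ⊢
    obtain ⟨a1, a2⟩ := a
    obtain ⟨b1, b2⟩ := b
    have h1 : b1 ≤ a1 := h.1
    have h2 : b2 ≤ a2 := h.2
    simp only [Prod.mk.injEq] at ha ⊢
    omega

/-- The unit is Schur-finite: its exterior square vanishes. -/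
theorem sf_unit : IsSchurFinite (𝟙_ C) := by
  classical
  have hc : Fintype.card (Fin 2) = Fintype.card col2.cells := by
    rw [Fintype.card_fin, Fintype.card_coe]
    rfl
  obtain ⟨T⟩ := Fintype.card_eq.mp hc
  refine ⟨2, col2, T, by norm_num, ?_⟩
  have hcol : ∀ q : Equiv.Perm (Fin 2), q ∈ colStab T := by
    intro q i
    have h : ∀ x : col2.cells, x.1.2 = 0 := by
      intro x
      have := x.2
      change x.1 ∈ ({(0, 0), (1, 0)} : Finset (ℕ × ℕ)) at this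
      rw [Finset.mem_insert, Finset.mem_singleton] at this
      rcases this with h | h <;> rw [h]
    rw [h, h]
  -- the augmentation
  let ε : MonoidAlgebra ℚ (Equiv.Perm (Fin 2)) →ₐ[ℚ] ℚ :=
    MonoidAlgebra.lift ℚ ℚ (Equiv.Perm (Fin 2)) 1
  have h1 : ∀ c : MonoidAlgebra ℚ (Equiv.Perm (Fin 2)),
      grpAct (𝟙_ C) 2 c = ε c • 𝟙 (tpow (𝟙_ C) 2) := by
    intro c
    unfold grpAct
    have h2 : ε c = c.coeff.sum fun _ q => q := by
      change MonoidAlgebra.lift ℚ ℚ (Equiv.Perm (Fin 2)) 1 c = _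
      rw [MonoidAlgebra.lift_apply]
      simp [Finsupp.sum]
    rw [h2, Finsupp.sum, Finsupp.sum, Finset.sum_smul]
    apply Finset.sum_congr rfl
    intro σ _
    rw [permAct_unit]
  have h3 : ε (youngSymmetrizer T) = 0 := by
    unfold youngSymmetrizer
    rw [map_mul, map_sum ε _ (Finset.univ.filter (· ∈ colStab T))]
    have h4 : ∑ q ∈ Finset.univ.filter (· ∈ colStab T),
        ε (MonoidAlgebra.single q ((Equiv.Perm.sign q : ℤ) : ℚ)) = 0 := by
      rw [Finset.filter_true_of_mem fun q _ => hcol q]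
      have h5 : ∀ q : Equiv.Perm (Fin 2), ε (MonoidAlgebra.single q ((Equiv.Perm.sign q : ℤ) : ℚ)) =
          ((Equiv.Perm.sign q : ℤ) : ℚ) := by
        intro q
        change MonoidAlgebra.lift ℚ ℚ (Equiv.Perm (Fin 2)) 1 _ = _
        rw [MonoidAlgebra.lift_single]
        simp
      simp only [h5]
      have h6 : ∑ q : Equiv.Perm (Fin 2), (Equiv.Perm.sign q : ℤ) = 0 := by decide
      exact_mod_cast h6
    rw [h4, mul_zero]
  rw [h1, h3, zero_smul]

end Pool.Agent.Z125.UN
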